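import Pool.Agent.MP_92f1cb_al.H14.Defs

set_option autoImplicit false

namespace Pool.Agent.MP_92f1cb_al.H14

open Polynomial

namespace BasisRow

variable {k : Type} [Field k] {A : Type} [Ring A] [Algebra k A]
  (𝒜 : ℕ → Submodule k A) [GradedAlgebra 𝒜] {ι : Type} (e : ι → A)

/-- The corner `e i * A_d * e j`. -/
def W (p : ι × ι × ℕ) : Submodule k A :=
  (𝒜 p.2.2).map (LinearMap.mulLeft k (e p.1) ∘ₗ LinearMap.mulRight k (e p.2.1))

/-- The projection to the corner. -/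
noncomputable def pr (p : ι × ι × ℕ) : A →ₗ[k] A :=
  (LinearMap.mulLeft k (e p.1) ∘ₗ LinearMap.mulRight k (e p.2.1)) ∘ₗ GradedAlgebra.proj 𝒜 p.2.2

theorem pr_apply (p : ι × ι × ℕ) (a : A) :
    pr 𝒜 e p a = e p.1 * ((DirectSum.decompose 𝒜 a p.2.2 : A) * e p.2.1) := rfl

theorem pr_mem (p : ι × ι × ℕ) (a : A) : pr 𝒜 e p a ∈ W 𝒜 e p :=
  ⟨_, (DirectSum.decompose 𝒜 a p.2.2).2, rfl⟩

variable {𝒜 e}

theorem mem_W (he : OrthogonalIdempotents e) (h0 : ∀ i, e i ∈ 𝒜 0) {p : ι × ι × ℕ} {a : A} :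
    a ∈ W 𝒜 e p ↔ a ∈ 𝒜 p.2.2 ∧ e p.1 * a = a ∧ a * e p.2.1 = a := by
  constructor
  · rintro ⟨b, hb, rfl⟩
    simp only [LinearMap.comp_apply, LinearMap.mulLeft_apply, LinearMap.mulRight_apply]
    refine ⟨?_, by rw [← mul_assoc, (he.idem _).eq], by
      rw [mul_assoc, mul_assoc, (he.idem _).eq]⟩
    simpa using SetLike.mul_mem_graded (h0 p.1) (SetLike.mul_mem_graded hb (h0 p.2.1))
  · rintro ⟨h1, h2, h3⟩
    exact ⟨a, h1, by simp [h2, h3]⟩

theorem pr_same (he : OrthogonalIdempotents e) (h0 : ∀ i, e i ∈ 𝒜 0) {p : ι × ι × ℕ} {a : A}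
    (h : a ∈ W 𝒜 e p) : pr 𝒜 e p a = a := by
  obtain ⟨h1, h2, h3⟩ := (mem_W he h0).1 h
  rw [pr_apply, DirectSum.decompose_of_mem_same 𝒜 h1, h3, h2]

theorem pr_ne (he : OrthogonalIdempotents e) (h0 : ∀ i, e i ∈ 𝒜 0) {p q : ι × ι × ℕ} {a : A}
    (h : a ∈ W 𝒜 e q) (hpq : p ≠ q) : pr 𝒜 e p a = 0 := by
  obtain ⟨h1, h2, h3⟩ := (mem_W he h0).1 h
  rw [pr_apply]
  by_cases hd : q.2.2 = p.2.2
  · rw [← hd, DirectSum.decompose_of_mem_same 𝒜 h1]
    by_cases hi : p.1 = q.1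
    · have hj : q.2.1 ≠ p.2.1 := fun hj => hpq (Prod.ext hi (Prod.ext hj.symm hd.symm))
      rw [← h3, mul_assoc a, he.ortho hj, mul_zero, mul_zero]
    · rw [← h2, mul_assoc, ← mul_assoc, he.ortho hi, zero_mul]
  · rw [DirectSum.decompose_of_mem_ne 𝒜 h1 hd, zero_mul, mul_zero]

theorem internal [Fintype ι] [DecidableEq ι] (he : CompleteOrthogonalIdempotents e)
    (h0 : ∀ i, e i ∈ 𝒜 0) : DirectSum.IsInternal (W 𝒜 e) := by
  classical
  refine DirectSum.isInternal_submodule_of_iSupIndep_of_iSup_eq_top (fun p => ?_) ?_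
  · rw [Submodule.disjoint_def]
    intro a ha hb
    have : (⨆ q, ⨆ (_ : q ≠ p), W 𝒜 e q) ≤ LinearMap.ker (pr 𝒜 e p) :=
      iSup₂_le fun q hq b hb => pr_ne he.toOrthogonalIdempotents h0 hb hq.symm
    rw [← pr_same he.toOrthogonalIdempotents h0 ha]
    exact this hb
  · rw [eq_top_iff]
    intro a _
    rw [← DirectSum.sum_support_decompose 𝒜 a]
    refine Submodule.sum_mem _ fun d _ => ?_
    have : (DirectSum.decompose 𝒜 a d : A) = ∑ i, ∑ j, pr 𝒜 e (i, j, d) a := by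
      simp only [pr_apply, ← Finset.mul_sum, ← Finset.sum_mul, he.complete, mul_one, one_mul]
    rw [this]
    exact Submodule.sum_mem _ fun i _ => Submodule.sum_mem _ fun j _ =>
      Submodule.mem_iSup_of_mem (i, j, d) (pr_mem 𝒜 e _ a)

theorem zero_corner [Fintype ι] (he : OrthogonalIdempotents e)
    (h0 : 𝒜 0 = Submodule.span k (Set.range e)) {i j : ι} {a : A} (h : a ∈ W 𝒜 e (i, j, 0)) :
    ∃ c : k, a = c • (e i * e j) := by
  classical
  obtain ⟨b, hb, rfl⟩ := h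
  simp only [h0, SetLike.mem_coe] at hb
  obtain ⟨c, rfl⟩ := (Submodule.mem_span_range_iff_exists_fun k).1 hb
  refine ⟨c i, ?_⟩
  simp only [LinearMap.comp_apply, LinearMap.mulLeft_apply, LinearMap.mulRight_apply,
    ← mul_assoc, Finset.mul_sum, mul_smul_comm]
  rw [Finset.sum_eq_single i (fun l _ hl => by rw [he.ortho hl.symm, smul_zero]) (by simp),
    (he.idem i).eq, smul_mul_assoc]

end BasisRow

open BasisRow

theorem exists_cartan (k : Type) [Field k] (A : Type) [Ring A] [Algebra k A]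
    [FiniteDimensional k A] (𝒜 : ℕ → Submodule k A) [GradedAlgebra 𝒜]
    (ι : Type) (e : ι → A) :
    ∃ C : Matrix ι ι ℤ[X], ∀ i j d, (C i j).coeff d = (Module.finrank k
      ((𝒜 d).map (LinearMap.mulLeft k (e i) ∘ₗ LinearMap.mulRight k (e j))) : ℤ) := by
  classical
  have hfin : {d | 𝒜 d ≠ ⊥}.Finite := WellFoundedGT.finite_ne_bot_of_iSupIndep
    (DirectSum.Decomposition.isInternal 𝒜).submodule_iSupIndep
  refine ⟨fun i j => ∑ d ∈ hfin.toFinset, monomial d (Module.finrank k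
      ((𝒜 d).map (LinearMap.mulLeft k (e i) ∘ₗ LinearMap.mulRight k (e j))) : ℤ),
    fun i j d => ?_⟩
  simp only [finsetSum_coeff, coeff_monomial, Finset.sum_ite_eq', Set.Finite.mem_toFinset,
    Set.mem_ofPred_eq]
  by_cases h : 𝒜 d = ⊥
  swap
  · rw [if_pos h]
  · rw [if_neg (not_not.2 h), h, Submodule.map_bot, finrank_bot, Nat.cast_zero]

theorem exists_basis (k : Type) [Field k] (A : Type) [Ring A] [Algebra k A]
    [FiniteDimensional k A] (𝒜 : ℕ → Submodule k A) [GradedAlgebra 𝒜]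
    (ι : Type) [Fintype ι] [DecidableEq ι] (e : ι → A) (he : CompleteOrthogonalIdempotents e)
    (hne : ∀ i, e i ≠ 0) (h0 : 𝒜 0 = Submodule.span k (Set.range e))
    (C : Matrix ι ι ℤ[X])
    (hC : ∀ i j d, (C i j).coeff d = (Module.finrank k
      ((𝒜 d).map (LinearMap.mulLeft k (e i) ∘ₗ LinearMap.mulRight k (e j))) : ℤ)) :
    ∃ (B : Type) (_ : Fintype B) (β : Module.Basis B k A) (s t : B → ι) (deg : B → ℕ),
      (∀ x y z, β.repr (β x * β y) z ≠ 0 →
        t x = s y ∧ s z = s x ∧ t z = t y ∧ deg z = deg x + deg y) ∧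
      (∀ x, deg x = 0 → s x = t x ∧ ∃ c : k, ∀ y,
        (t x = s y → β x * β y = c • β y) ∧ (t y = s x → β y * β x = c • β y)) ∧
      (∀ z, β.repr 1 z ≠ 0 → deg z = 0) ∧
      C = 1 + hmat s t deg := by
  classical
  have ho := he.toOrthogonalIdempotents
  have h00 : ∀ i, e i ∈ 𝒜 0 := fun i => h0 ▸ Submodule.subset_span ⟨i, rfl⟩
  let β := (internal he h00).collectedBasis fun p => Module.finBasis k (W 𝒜 e p)
  have hβ : ∀ x, β x ∈ W 𝒜 e x.1 := fun x => (internal he h00).collectedBasis_mem _ x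
  have key : ∀ a z, β.repr a z ≠ 0 → pr 𝒜 e z.1 a ≠ 0 := fun a z h hz => by
    have : β.coord z ∘ₗ pr 𝒜 e z.1 = β.coord z := β.ext fun x => by
      rw [LinearMap.comp_apply]
      by_cases hx : z.1 = x.1
      · rw [hx, pr_same ho h00 (hβ x)]
      · rw [pr_ne ho h00 (hβ x) hx, map_zero, Module.Basis.coord_apply, β.repr_self,
          Finsupp.single_eq_of_ne fun h => hx (by rw [h])]
    apply h
    rw [← Module.Basis.coord_apply, ← this, LinearMap.comp_apply, hz, map_zero]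
  letI := FiniteDimensional.fintypeBasisIndex β
  refine ⟨_, this, β, fun x => x.1.1, fun x => x.1.2.1, fun x => x.1.2.2, fun x y z h => ?_,
    fun x hx => ?_, fun z h => ?_, ?_⟩
  · obtain ⟨a1, a2, a3⟩ := (mem_W ho h00).1 (hβ x)
    obtain ⟨b1, b2, b3⟩ := (mem_W ho h00).1 (hβ y)
    have hm : β x * β y ∈ W 𝒜 e (x.1.1, y.1.2.1, x.1.2.2 + y.1.2.2) :=
      (mem_W ho h00).2 ⟨SetLike.mul_mem_graded a1 b1, by rw [← mul_assoc, a2], by
        rw [mul_assoc, b3]⟩
    have hz : z.1 = (x.1.1, y.1.2.1, x.1.2.2 + y.1.2.2) := by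
      by_contra hz
      exact key _ z h (pr_ne ho h00 hm hz)
    refine ⟨?_, congrArg (·.1) hz, congrArg (·.2.1) hz, congrArg (·.2.2) hz⟩
    by_contra hxy
    apply h
    rw [← a3, ← b2, mul_assoc, ← mul_assoc (e _), ho.ortho hxy]
    simp
  · obtain ⟨⟨i, j, d⟩, u⟩ := x
    obtain rfl : d = 0 := hx
    obtain ⟨c, hc⟩ := zero_corner ho h0 (hβ ⟨(i, j, 0), u⟩)
    obtain rfl : i = j := by
      by_contra hij
      exact β.ne_zero _ (by rw [hc, ho.ortho hij, smul_zero])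
    rw [(ho.idem i).eq] at hc
    refine ⟨rfl, c, fun y => ⟨fun h => ?_, fun h => ?_⟩⟩
    · obtain rfl : i = y.1.1 := h
      rw [hc, smul_mul_assoc, ((mem_W ho h00).1 (hβ y)).2.1]
    · obtain rfl : y.1.2.1 = i := h
      rw [hc, mul_smul_comm, ((mem_W ho h00).1 (hβ y)).2.2]
  · by_contra hd
    refine key _ z h ?_
    rw [pr_apply, DirectSum.decompose_of_mem_ne 𝒜 (SetLike.one_mem_graded 𝒜) (Ne.symm hd),
      zero_mul, mul_zero]
  · ext i j d
    rw [hC]
    change (Module.finrank k (W 𝒜 e (i, j, d)) : ℤ) = _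
    simp only [Matrix.add_apply, coeff_add, hmat, Matrix.of_apply, finsetSum_coeff, coeff_X_pow,
      Finset.sum_boole, Finset.filter_filter]
    rcases Nat.eq_zero_or_pos d with rfl | hd
    · rw [Finset.filter_false_of_mem fun x _ hx => by omega]
      by_cases hij : i = j
      · subst hij
        have : W 𝒜 e (i, i, 0) = Submodule.span k {e i} := by
          refine le_antisymm (fun a ha => ?_) ((Submodule.span_singleton_le_iff_mem _ _).2
            ((mem_W ho h00).2 ⟨h00 i, (ho.idem i).eq, (ho.idem i).eq⟩))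
          obtain ⟨c, rfl⟩ := zero_corner ho h0 ha
          rw [(ho.idem i).eq]
          exact Submodule.smul_mem _ _ (Submodule.mem_span_singleton_self _)
        rw [this, finrank_span_singleton (hne i)]
        simp
      · have : W 𝒜 e (i, j, 0) = ⊥ := by
          rw [eq_bot_iff]
          intro a ha
          obtain ⟨c, rfl⟩ := zero_corner ho h0 ha
          simp [ho.ortho hij]
        rw [this, Matrix.one_apply_ne hij]
        simp
    · have h1 : ((1 : Matrix ι ι ℤ[X]) i j).coeff d = 0 := by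
        rw [Matrix.one_apply]
        split_ifs <;> simp [coeff_one, hd.ne']
      rw [h1, zero_add, Nat.cast_inj]
      symm
      rw [← Fintype.card_fin (Module.finrank k (W 𝒜 e (i, j, d))), ← Finset.card_univ]
      symm
      refine Finset.card_bij (fun u _ => ⟨(i, j, d), u⟩) (fun u _ => by simp [hd])
        (fun u _ v _ h => by simpa using h) ?_
      rintro ⟨⟨i', j', d'⟩, u⟩ hx
      simp only [Finset.mem_filter, Finset.mem_univ, true_and] at hx
      obtain ⟨⟨rfl, rfl, -⟩, rfl⟩ := hx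
      exact ⟨u, Finset.mem_univ _, rfl⟩

end Pool.Agent.MP_92f1cb_al.H14
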