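import Mathlib

set_option autoImplicit false

namespace Pool.Agent.MP_92f1cb_al.H14

namespace Chase

theorem rank_null {k M : Type} [Field k] [AddCommGroup M] [Module k M]
    (f : Module.End k M) (p : Submodule k M) [FiniteDimensional k p] :
    Module.finrank k ↥(p.map f) + Module.finrank k ↥(p ⊓ LinearMap.ker f)
      = Module.finrank k p := by
  have h := LinearMap.finrank_range_add_finrank_ker (f.domRestrict p)
  rw [LinearMap.range_domRestrict, LinearMap.ker_domRestrict,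
    ← Submodule.finrank_map_subtype_eq p, Submodule.map_comap_subtype] at h
  exact h

theorem mem_K {k M : Type} [Field k] [AddCommGroup M] [Module k M]
    (V : Submodule k M) (T : Module.End k M) (x : M) :
    x ∈ V ⊓ LinearMap.ker (1 - T) ↔ x ∈ V ∧ T x = x := by
  rw [Submodule.mem_inf, LinearMap.mem_ker, LinearMap.sub_apply, Module.End.one_apply,
    sub_eq_zero, eq_comm]

theorem telescope (d z : ℕ → ℤ) (h0 : d 0 = z 0) (h : ∀ n, d (n + 1) = z n + z (n + 1))
    (t : ℕ) : ∑ n ∈ Finset.range (t + 1), (-1 : ℤ) ^ n * d n = (-1) ^ t * z t := by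
  induction t with
  | zero => simp [h0]
  | succ t ih =>
    rw [Finset.sum_range_succ, ih, h, pow_succ]
    ring

end Chase

theorem euler_zero {k M : Type} [Field k] [AddCommGroup M] [Module k M]
    (U : ℕ → Submodule k M) (hfin : ∀ n, FiniteDimensional k (U n))
    (b b' T : Module.End k M) (N : ℕ → Module.End k M) (top : ℕ)
    (hU0 : U 0 = ⊥) (hUtop : ∀ n, top < n → U n = ⊥)
    (hb : ∀ n, ∀ x ∈ U (n + 1), b x ∈ U n) (hb' : ∀ n, ∀ x ∈ U (n + 1), b' x ∈ U n)
    (hT : ∀ n, ∀ x ∈ U n, T x ∈ U n) (hN : ∀ n, ∀ x ∈ U n, N n x ∈ U n)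
    (hbb : ∀ x, b (b x) = 0) (hbb' : ∀ x, b' (b' x) = 0)
    (I1 : ∀ x, b (x - T x) = b' x - T (b' x))
    (I2 : ∀ n, ∀ x ∈ U (n + 1), b' (N (n + 1) x) = N n (b x))
    (hTN : ∀ n, ∀ x ∈ U n, T (N n x) = N n x)
    (E1 : ∀ n, ∀ z ∈ U n, T z = z → ∃ y ∈ U n, N n y = z)
    (E2 : ∀ n, ∀ y ∈ U n, N n y = 0 → ∃ x ∈ U n, y = x - T x)
    (cone : ∀ n, ∀ y ∈ U (n + 1), ∀ x ∈ U n, b y = x - T x → b' x = 0 →
      ∃ u ∈ U (n + 2), N (n + 1) y = N (n + 1) (b u)) :
    ∑ n ∈ Finset.range (top + 1),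
      (-1 : ℤ) ^ n * (Module.finrank k ↥(U n ⊓ LinearMap.ker (1 - T)) : ℤ) = 0 := by
  have _ := hT
  have ex : ∀ n, ∀ z ∈ U n, T z = z → b' z = 0 →
      ∃ w ∈ U (n + 1), T w = w ∧ b' w = z := by
    intro n
    induction n using Nat.strong_induction_on with
    | _ n ih =>
      intro z hz hTz hbz
      rcases n with _ | n
      · rw [hU0, Submodule.mem_bot] at hz
        exact ⟨0, zero_mem _, map_zero _, by rw [hz, map_zero]⟩
      obtain ⟨y, hy, rfl⟩ := E1 _ z hz hTz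
      rw [I2 n y hy] at hbz
      obtain ⟨x, hx, hyx⟩ := E2 n _ (hb n y hy) hbz
      have hfix : T (b' x) = b' x := by
        have := I1 x
        rw [← hyx, hbb] at this
        exact (sub_eq_zero.1 this.symm).symm
      have hx' : ∃ x' ∈ U n, b y = x' - T x' ∧ b' x' = 0 := by
        rcases n with _ | m
        · rw [hU0, Submodule.mem_bot] at hx
          refine ⟨x, by rw [hx]; exact zero_mem _, hyx, by rw [hx, map_zero]⟩
        · obtain ⟨w, hw, hTw, hbw⟩ := ih m (by omega) _ (hb' m x hx) hfix (hbb' x)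
          refine ⟨x - w, sub_mem hx hw, ?_, by rw [map_sub, hbw, sub_self]⟩
          rw [map_sub, hTw, hyx]
          abel
      obtain ⟨x', hx1, hx2, hx3⟩ := hx'
      obtain ⟨u, hu, hNu⟩ := cone n y hy x' hx1 hx2 hx3
      exact ⟨N (n + 2) u, hN _ u hu, hTN _ u hu, by rw [I2 (n + 1) u hu, hNu]⟩
  have hmap : ∀ n, (U (n + 1) ⊓ LinearMap.ker (1 - T)).map b'
      = (U n ⊓ LinearMap.ker (1 - T)) ⊓ LinearMap.ker b' := by
    intro n
    ext z
    rw [Submodule.mem_map, Submodule.mem_inf, Chase.mem_K, LinearMap.mem_ker]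
    constructor
    · rintro ⟨w, hw, rfl⟩
      rw [Chase.mem_K] at hw
      refine ⟨⟨hb' n w hw.1, ?_⟩, hbb' w⟩
      have := I1 w
      rw [hw.2, sub_self, map_zero] at this
      exact (sub_eq_zero.1 this.symm).symm
    · rintro ⟨⟨h1, h2⟩, h3⟩
      obtain ⟨w, hw, hTw, hbw⟩ := ex n z h1 h2 h3
      exact ⟨w, (Chase.mem_K _ _ _).2 ⟨hw, hTw⟩, hbw⟩
  rw [Chase.telescope (fun n => (Module.finrank k ↥(U n ⊓ LinearMap.ker (1 - T)) : ℤ))
    (fun n => (Module.finrank k ↥((U n ⊓ LinearMap.ker (1 - T)) ⊓ LinearMap.ker b') : ℤ))]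
  · rw [← hmap top, hUtop (top + 1) (Nat.lt_succ_self _)]
    simp
  · rw [hU0, bot_inf_eq, bot_inf_eq]
  · intro n
    have := hfin (n + 1)
    have : FiniteDimensional k ↥(U (n + 1) ⊓ LinearMap.ker (1 - T)) :=
      Submodule.finiteDimensional_inf_left _ _
    have := Chase.rank_null b' (U (n + 1) ⊓ LinearMap.ker (1 - T))
    rw [hmap n] at this
    exact_mod_cast this.symm

end Pool.Agent.MP_92f1cb_al.H14
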