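import Pool.Agent.MP_92f1cb_al.H14.Defs

set_option autoImplicit false

namespace Pool.Agent.MP_92f1cb_al.H14

namespace Cnt1

variable {B : Type}

theorem mul_del (deg : B → ℕ) (N : ℕ) [NeZero N] (p : ZMod N × List B) :
    (N : ℤ) * del deg N p = (p.1.val : ℤ) + dl deg p.2 - ((tau deg N p).1.val : ℤ) := by
  have h1 : (tau deg N p).1.val = (p.1.val + dl deg p.2) % N := by
    show (p.1 + (dl deg p.2 : ZMod N)).val = _
    rw [ZMod.val_add, ZMod.val_natCast, Nat.add_mod_mod]
  have h2 := Nat.div_add_mod (p.1.val + dl deg p.2) N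
  rw [h1, del]
  have h3 : ((N * ((p.1.val + dl deg p.2) / N) + (p.1.val + dl deg p.2) % N : ℕ) : ℤ) =
      ((p.1.val + dl deg p.2 : ℕ) : ℤ) := by rw [h2]
  rw [Nat.cast_add, Nat.cast_mul, Nat.cast_add] at h3
  linarith

theorem tele (deg : B → ℕ) (N : ℕ) [NeZero N] (v : List B) (c : ZMod N) (u : List B) :
    (N : ℤ) * ∑ j ∈ Finset.range v.length, del deg N ((tau deg N)^[j] (c, u ++ v)) =
      (c.val : ℤ) + wt deg v - ((c + (wt deg v : ZMod N)).val : ℤ) := by
  induction v using List.reverseRecOn generalizing c u with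
  | nil => simp
  | append_singleton v x ih =>
    rw [List.length_append, List.length_singleton, Finset.sum_range_succ', mul_add]
    simp only [Function.iterate_succ_apply, Function.iterate_zero_apply]
    rw [mul_del, ← List.append_assoc, tau_concat, ← List.cons_append, ih]
    simp only [dl_concat, wt_append, wt_cons, wt_nil, add_zero, Nat.cast_add]
    rw [show c + (deg x : ZMod N) + (wt deg v : ZMod N) = c + ((wt deg v : ZMod N) + deg x) by ring]
    ring

end Cnt1

variable {B ι : Type} [Fintype B] [DecidableEq B] [Fintype ι] [DecidableEq ι]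

omit [Fintype B] [DecidableEq B] in
theorem sum_del_orbit (deg : B → ℕ) (N : ℕ) [NeZero N] (p : ZMod N × List B)
    (h : N ∣ wt deg p.2) :
    ∑ j ∈ Finset.range p.2.length, del deg N ((tau deg N)^[j] p) = ((wt deg p.2 / N : ℕ) : ℤ) := by
  obtain ⟨c, w⟩ := p
  have hN : (N : ℤ) ≠ 0 := Nat.cast_ne_zero.2 (NeZero.ne N)
  have h1 := Cnt1.tele deg N w c []
  rw [List.nil_append, (ZMod.natCast_eq_zero_iff _ _).2 h, add_zero] at h1
  apply mul_left_cancel₀ hN
  rw [h1, ← Nat.cast_mul, Nat.mul_div_cancel' h]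
  ring

omit [Fintype B] [DecidableEq B] in
theorem sum_del_sheets (deg : B → ℕ) (N : ℕ) [NeZero N] (w : List B) :
    ∑ c : ZMod N, del deg N (c, w) = (dl deg w : ℤ) := by
  have hN : (N : ℤ) ≠ 0 := Nat.cast_ne_zero.2 (NeZero.ne N)
  apply mul_left_cancel₀ hN
  rw [Finset.mul_sum]
  simp only [Cnt1.mul_del, tau]
  rw [Finset.sum_sub_distrib, Finset.sum_add_distrib,
    Equiv.sum_comp (Equiv.addRight (dl deg w : ZMod N)) (fun c : ZMod N => (c.val : ℤ)) |>.symm]
  simp [ZMod.card]

end Pool.Agent.MP_92f1cb_al.H14
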