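import Pool.Agent.MP_92f1cb_al.H14.Defs

set_option autoImplicit false

namespace Pool.Agent.MP_92f1cb_al.H14

open Polynomial

namespace Cnt2

variable {B ι : Type} [Fintype B]

/-- All words of length `n`. -/
noncomputable def LL (B : Type) [Fintype B] (n : ℕ) : Finset (List B) :=
  (List.finite_length_eq B n).toFinset

theorem mem_LL (n : ℕ) (w : List B) : w ∈ LL B n ↔ w.length = n := by
  simp [LL]

theorem LL_zero : LL B 0 = {[]} := by
  ext w
  simp [mem_LL]

theorem sum_LL_succ {M : Type} [AddCommMonoid M] (n : ℕ) (f : List B → M) :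
    ∑ u ∈ LL B (n + 1), f u = ∑ w ∈ LL B n, ∑ x : B, f (w ++ [x]) := by
  rw [← Finset.sum_product']
  symm
  refine Finset.sum_bij (fun p _ => p.1 ++ [p.2]) ?_ ?_ ?_ ?_
  · intro p hp
    rw [Finset.mem_product, mem_LL] at hp
    rw [mem_LL, List.length_append, hp.1, List.length_singleton]
  · intro p _ q _ h
    have h1 := List.append_inj' h rfl
    exact Prod.ext h1.1 (List.singleton_inj.1 h1.2)
  · intro u hu
    rw [mem_LL] at hu
    induction u using List.reverseRecOn with
    | nil => simp at hu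
    | append_singleton w x _ =>
      refine ⟨(w, x), ?_, rfl⟩
      rw [Finset.mem_product, mem_LL]
      simpa using hu
  · intro p _
    rfl

open Classical in
/-- Generating matrix of the positive paths of length `n`. -/
noncomputable def pth (s t : B → ι) (deg : B → ℕ) (n : ℕ) : Matrix ι ι ℤ[X] :=
  Matrix.of fun i j => ∑ w ∈ LL B n,
    if Comp s t i w j ∧ ∀ x ∈ w, 0 < deg x then X ^ wt deg w else 0

/-- One-step matrix with a chosen weight on each letter. -/
noncomputable def stp [DecidableEq ι] (s t : B → ι) (deg : B → ℕ) (c : B → ℤ[X]) :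
    Matrix ι ι ℤ[X] :=
  Matrix.of fun i j => ∑ x : B, if s x = i ∧ t x = j ∧ 0 < deg x then c x else 0

omit [Fintype B] in
theorem comp_concat (s t : B → ι) (i j : ι) (w : List B) (x : B) :
    Comp s t i (w ++ [x]) j ↔ Comp s t i w (s x) ∧ t x = j := by
  rw [comp_append]
  simp [Comp]

open Classical in
theorem pth_mul_stp [Fintype ι] [DecidableEq ι] (s t : B → ι) (deg : B → ℕ) (n : ℕ)
    (c : B → ℤ[X]) (i j : ι) :
    (pth s t deg n * stp s t deg c) i j = ∑ w ∈ LL B n, ∑ x : B,
      if Comp s t i (w ++ [x]) j ∧ ∀ y ∈ w ++ [x], 0 < deg y then X ^ wt deg w * c x else 0 := by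
  rw [Matrix.mul_apply]
  simp only [pth, stp, Matrix.of_apply, Finset.sum_mul_sum]
  rw [Finset.sum_comm]
  refine Finset.sum_congr rfl fun w _ => ?_
  rw [Finset.sum_comm]
  refine Finset.sum_congr rfl fun x _ => ?_
  rw [Finset.sum_eq_single (s x)]
  · rw [comp_concat]
    by_cases h1 : Comp s t i w (s x) ∧ ∀ y ∈ w, 0 < deg y
    · by_cases h2 : s x = s x ∧ t x = j ∧ 0 < deg x
      · rw [if_pos h1, if_pos h2, if_pos]
        refine ⟨⟨h1.1, h2.2.1⟩, fun y hy => ?_⟩
        rcases List.mem_append.1 hy with hy | hy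
        · exact h1.2 y hy
        · rw [List.mem_singleton.1 hy]
          exact h2.2.2
      · rw [if_neg h2, mul_zero, if_neg]
        rintro ⟨⟨_, h3⟩, h4⟩
        exact h2 ⟨rfl, h3, h4 x (by simp)⟩
    · rw [if_neg h1, zero_mul, if_neg]
      rintro ⟨⟨h3, _⟩, h4⟩
      exact h1 ⟨h3, fun y hy => h4 y (List.mem_append_left _ hy)⟩
  · intro l _ hl
    rw [if_neg (fun h : s x = l ∧ t x = j ∧ 0 < deg x => hl h.1.symm), mul_zero]
  · intro h
    exact absurd (Finset.mem_univ _) h

theorem hmat_eq [DecidableEq ι] (s t : B → ι) (deg : B → ℕ) :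
    hmat s t deg = stp s t deg (fun x => X ^ deg x) := by
  ext1 i j
  simp only [hmat, stp, Matrix.of_apply, Finset.sum_filter]

theorem X_mul_der (d : ℕ) : (X * derivative (X ^ d) : ℤ[X]) = C (d : ℤ) * X ^ d := by
  rcases d with _ | d
  · simp
  · rw [derivative_X_pow_succ]
    push_cast
    ring

theorem map_eq [DecidableEq ι] (s t : B → ι) (deg : B → ℕ) :
    (hmat s t deg).map (fun f => X * derivative f)
      = stp s t deg (fun x => C (deg x : ℤ) * X ^ deg x) := by
  rw [hmat_eq]
  ext1 i j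
  simp only [stp, Matrix.map_apply, Matrix.of_apply, derivative_sum, Finset.mul_sum]
  refine Finset.sum_congr rfl fun x _ => ?_
  split_ifs
  · exact X_mul_der _
  · simp

theorem hmat_pow [Fintype ι] [DecidableEq ι] (s t : B → ι) (deg : B → ℕ) (n : ℕ) :
    hmat s t deg ^ n = pth s t deg n := by
  classical
  induction n with
  | zero =>
    ext1 i j
    simp [pth, LL_zero, Comp, Matrix.one_apply]
  | succ n ih =>
    rw [pow_succ, ih, hmat_eq]
    ext1 i j
    rw [pth_mul_stp]
    simp only [pth, Matrix.of_apply]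
    rw [sum_LL_succ]
    refine Finset.sum_congr rfl fun w _ => Finset.sum_congr rfl fun x _ => ?_
    simp only [wt_append, wt_cons, wt_nil, add_zero, pow_add]

end Cnt2

section count
variable {B ι : Type} [Fintype B] [DecidableEq B] [Fintype ι] [DecidableEq ι]

set_option linter.unusedSectionVars false in
open Cnt2 in
theorem sum_dl_eq_coeff (s t : B → ι) (deg : B → ℕ) (g μ : ℕ) :
    ∑ u ∈ Wd s t deg (g + 1) μ, (dl deg u : ℤ)
      = (Matrix.trace (hmat s t deg ^ g *
          (hmat s t deg).map (fun f => X * derivative f))).coeff μ := by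
  classical
  rw [hmat_pow, map_eq]
  simp only [Matrix.trace, Matrix.diag_apply, pth_mul_stp, finsetSum_coeff]
  have hW : Wd s t deg (g + 1) μ
      = (LL B (g + 1)).filter (fun w => wt deg w = μ ∧ Good s t deg w) := by
    ext w
    simp [mem_Wd, mem_LL]
  rw [hW, Finset.sum_filter, sum_LL_succ, Finset.sum_comm (s := Finset.univ)]
  refine Finset.sum_congr rfl fun w _ => ?_
  rw [Finset.sum_comm]
  refine Finset.sum_congr rfl fun x _ => ?_
  rw [Finset.sum_eq_single (t x)]
  · have hG : Good s t deg (w ++ [x]) ↔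
        Comp s t (t x) (w ++ [x]) (t x) ∧ ∀ y ∈ w ++ [x], 0 < deg y := by
      unfold Good
      refine and_congr_left fun _ => ⟨?_, fun h => ⟨_, h⟩⟩
      rintro ⟨i, hi⟩
      have := ((comp_concat s t i i w x).1 hi).2
      rwa [this]
    rw [dl_concat]
    by_cases h : Comp s t (t x) (w ++ [x]) (t x) ∧ ∀ y ∈ w ++ [x], 0 < deg y
    · rw [if_pos h, mul_left_comm, ← pow_add, coeff_C_mul_X_pow]
      refine if_congr ?_ rfl rfl
      rw [wt_append, wt_cons, wt_nil, add_zero]
      exact ⟨fun h' => h'.1.symm, fun h' => ⟨h'.symm, hG.2 h⟩⟩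
    · rw [if_neg h, if_neg (fun h' => h (hG.1 h'.2)), coeff_zero]
  · intro i _ hi
    rw [if_neg, coeff_zero]
    rintro ⟨h, _⟩
    exact hi ((comp_concat s t i i w x).1 h).2.symm
  · intro h
    exact absurd (Finset.mem_univ _) h

end count

end Pool.Agent.MP_92f1cb_al.H14
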