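import Pool.Agent.MP_92f1cb_al.H14.Defs

/-! Fixed points of a power of the rotation are the periodic words. -/

set_option autoImplicit false

namespace Pool.Agent.MP_92f1cb_al.H14

open Polynomial

namespace Cnt3

section

variable {B ι : Type}

/-- The word `u` repeated `κ` times. -/
def rep (κ : ℕ) (u : List B) : List B := (List.replicate κ u).flatten

theorem rep_zero (u : List B) : rep 0 u = [] := rfl

theorem rep_succ (κ : ℕ) (u : List B) : rep (κ + 1) u = u ++ rep κ u := by
  simp [rep, List.replicate_succ]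

theorem rep_succ' (κ : ℕ) (u : List B) : rep (κ + 1) u = rep κ u ++ u := by
  simp [rep, List.replicate_succ']

theorem length_rep (κ : ℕ) (u : List B) : (rep κ u).length = u.length * κ := by
  induction κ with
  | zero => simp [rep_zero]
  | succ κ ih => rw [rep_succ', List.length_append, ih, Nat.mul_succ]

theorem wt_rep (deg : B → ℕ) (κ : ℕ) (u : List B) : wt deg (rep κ u) = κ * wt deg u := by
  induction κ with
  | zero => simp [rep_zero]
  | succ κ ih => rw [rep_succ', wt_append, ih, Nat.succ_mul]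

theorem eq_rep (κ : ℕ) (u v : List B) (hl : v.length = u.length * κ) (h : u ++ v = v ++ u) :
    v = rep κ u := by
  induction κ generalizing v with
  | zero => exact List.length_eq_zero_iff.1 (by simpa using hl)
  | succ κ ih =>
    have hp : u <+: v := List.prefix_of_prefix_length_le (h ▸ List.prefix_append u v)
      (List.prefix_append v u) (by rw [hl, Nat.mul_succ]; omega)
    obtain ⟨v', rfl⟩ := hp
    rw [rep_succ]
    congr 1
    refine ih v' ?_ ?_
    · rw [List.length_append, Nat.mul_succ] at hl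
      omega
    · rw [List.append_assoc] at h
      exact List.append_cancel_left h

theorem comp_rep (s t : B → ι) (κ : ℕ) (u : List B) (i : ι) (h : Comp s t i u i) :
    Comp s t i (rep κ u) i := by
  induction κ with
  | zero => exact rfl
  | succ κ ih => rw [rep_succ, comp_append]; exact ⟨i, h, ih⟩

theorem good_rep (s t : B → ι) (deg : B → ℕ) (κ : ℕ) (u : List B) (hu : u ≠ []) :
    Good s t deg (rep (κ + 1) u) ↔ Good s t deg u := by
  constructor
  · rintro ⟨⟨i, hi⟩, h2⟩
    refine ⟨?_, fun x hx => h2 x (by rw [rep_succ]; exact List.mem_append_left _ hx)⟩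
    rw [rep_succ, comp_append] at hi
    obtain ⟨l, h3, h4⟩ := hi
    have e : l = i := by
      rcases κ with _ | κ
      · exact h4
      · obtain ⟨x, u', rfl⟩ := List.exists_cons_of_ne_nil hu
        rw [rep_succ, List.cons_append] at h4
        exact h4.1.symm.trans h3.1
    exact ⟨i, e ▸ h3⟩
  · rintro ⟨⟨i, hi⟩, h2⟩
    refine ⟨⟨i, comp_rep s t _ u i hi⟩, fun x hx => ?_⟩
    simp only [rep, List.mem_flatten, List.mem_replicate] at hx
    obtain ⟨l, ⟨-, rfl⟩, hx⟩ := hx
    exact h2 x hx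

theorem dl_rep (deg : B → ℕ) (κ : ℕ) (u : List B) (hu : u ≠ []) :
    dl deg (rep (κ + 1) u) = dl deg u := by
  obtain ⟨u', x, rfl⟩ := (List.eq_nil_or_concat' u).resolve_left hu
  rw [rep_succ', ← List.append_assoc, dl_concat, dl_concat]

theorem fixed_rep (deg : B → ℕ) (N : ℕ) (κ : ℕ) (c : ZMod N) (u : List B) (h : N ∣ wt deg u) :
    (tau deg N)^[u.length] (c, rep (κ + 1) u) = (c, rep (κ + 1) u) := by
  rw [rep_succ', tau_iterate_append, (ZMod.natCast_eq_zero_iff _ _).2 h, add_zero, ← rep_succ,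
    rep_succ']

theorem of_fixed (deg : B → ℕ) (N : ℕ) (g κ : ℕ) (c : ZMod N) (w : List B)
    (hl : w.length = g * (κ + 1)) (h : (tau deg N)^[g] (c, w) = (c, w)) :
    ∃ u : List B, u.length = g ∧ w = rep (κ + 1) u ∧ N ∣ wt deg u := by
  obtain ⟨a, v, rfl, ha⟩ : ∃ a v : List B, w = a ++ v ∧ a.length = g * κ :=
    ⟨w.take (g * κ), w.drop (g * κ), (List.take_append_drop _ _).symm, by
      rw [List.length_take, hl, Nat.mul_succ]; omega⟩
  have hv : v.length = g := by
    rw [List.length_append, ha, Nat.mul_succ] at hl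
    omega
  subst hv
  rw [tau_iterate_append, Prod.mk.injEq] at h
  refine ⟨v, rfl, ?_, (ZMod.natCast_eq_zero_iff _ _).1 (by simpa using h.1)⟩
  rw [rep_succ', ← eq_rep κ v a ha h.2]

theorem hermite (N : ℕ) (hN : 0 < N) (d : ℕ) :
    ∑ c ∈ Finset.range N, (c + d) / N = d := by
  induction d with
  | zero =>
    exact Finset.sum_eq_zero fun c hc => Nat.div_eq_of_lt (by simpa using hc)
  | succ d ih =>
    have h1 := Finset.sum_range_succ (fun c => (c + d) / N) N
    have h2 := Finset.sum_range_succ' (fun c => (c + d) / N) N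
    have h3 : ∑ c ∈ Finset.range N, (c + 1 + d) / N =
        ∑ c ∈ Finset.range N, (c + (d + 1)) / N :=
      Finset.sum_congr rfl fun c _ => by rw [add_assoc, add_comm 1 d]
    rw [h1, ih, h3, zero_add, Nat.add_div_left _ hN] at h2
    omega

theorem sheets (deg : B → ℕ) (N : ℕ) [NeZero N] (w : List B) :
    ∑ c : ZMod N, del deg N (c, w) = (dl deg w : ℤ) := by
  obtain ⟨n, rfl⟩ := Nat.exists_eq_succ_of_ne_zero (NeZero.ne N)
  have h := hermite (n + 1) n.succ_pos (dl deg w)
  rw [← Fin.sum_univ_eq_sum_range (fun c => (c + dl deg w) / (n + 1))] at h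
  rw [← h, Nat.cast_sum]
  rfl

end

end Cnt3

section count
variable {B ι : Type} [Fintype B] [DecidableEq B] [Fintype ι] [DecidableEq ι]

open Cnt3 in
theorem sum_del_fixed (s t : B → ι) (deg : B → ℕ) (N : ℕ) [NeZero N] (g κ m : ℕ)
    (hg : 0 < g) (hκ : 0 < κ) (hN : N ∣ m) :
    ∑ p ∈ (Om s t deg N (g * κ) m).filter (fun p => (tau deg N)^[g] p = p), del deg N p
      = if κ ∣ m / N then ∑ u ∈ Wd s t deg g (m / κ), (dl deg u : ℤ) else 0 := by
  obtain ⟨κ, rfl⟩ := Nat.exists_eq_add_one_of_ne_zero hκ.ne'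
  have hN0 : 0 < N := Nat.pos_of_ne_zero (NeZero.ne N)
  have ne : ∀ u : List B, u.length = g → u ≠ [] := fun u hu e => by
    rw [e] at hu
    exact hg.ne hu
  split_ifs with hd
  · obtain ⟨e, he⟩ := hd
    have hm : m = (κ + 1) * (N * e) := by
      rw [← Nat.mul_div_cancel' hN, he]
      ring
    have hq : m / (κ + 1) = N * e := by rw [hm, Nat.mul_div_cancel_left _ κ.succ_pos]
    have h1 : ∑ u ∈ Wd s t deg g (m / (κ + 1)), (dl deg u : ℤ) =
        ∑ q ∈ (Finset.univ : Finset (ZMod N)) ×ˢ Wd s t deg g (m / (κ + 1)),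
          del deg N (q.1, rep (κ + 1) q.2) := by
      rw [Finset.sum_product_right]
      refine Finset.sum_congr rfl fun u hu => ?_
      dsimp only
      rw [sheets, dl_rep deg κ u (ne u ((mem_Wd _ _ _ _ _ _).1 hu).1)]
    rw [h1]
    symm
    refine Finset.sum_bij (fun q _ => (q.1, rep (κ + 1) q.2)) ?_ ?_ ?_ fun _ _ => rfl
    · rintro ⟨c, u⟩ hu
      obtain ⟨a1, a2, a3⟩ := (mem_Wd _ _ _ _ _ _).1 (Finset.mem_product.1 hu).2
      dsimp only at a1 a2 a3 ⊢
      rw [Finset.mem_filter, mem_Om]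
      refine ⟨⟨?_, ?_, (good_rep s t deg κ u (ne u a1)).2 a3⟩, ?_⟩
      · rw [← a1]
        exact length_rep _ _
      · rw [hq] at a2
        rw [hm, ← a2]
        exact wt_rep _ _ _
      · rw [← a1]
        exact fixed_rep deg N κ c u (by rw [a2, hq]; exact Dvd.intro _ rfl)
    · rintro ⟨c, u⟩ hu ⟨c', u'⟩ hu' h
      have a1 := ((mem_Wd _ _ _ _ _ _).1 (Finset.mem_product.1 hu).2).1
      have a2 := ((mem_Wd _ _ _ _ _ _).1 (Finset.mem_product.1 hu').2).1
      dsimp only at a1 a2 h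
      rw [Prod.mk.injEq, rep_succ, rep_succ] at h
      rw [h.1, (List.append_inj h.2 (a1.trans a2.symm)).1]
    · rintro ⟨c, w⟩ hw
      rw [Finset.mem_filter, mem_Om] at hw
      obtain ⟨⟨a1, a2, a3⟩, a4⟩ := hw
      obtain ⟨u, b1, rfl, -⟩ := of_fixed deg N g κ c w a1 a4
      refine ⟨(c, u), Finset.mem_product.2 ⟨Finset.mem_univ _, (mem_Wd _ _ _ _ _ _).2
        ⟨b1, ?_, (good_rep s t deg κ u (ne u b1)).1 a3⟩⟩, rfl⟩
      dsimp only at a2 ⊢
      rw [← a2, wt_rep, Nat.mul_div_cancel_left _ κ.succ_pos]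
  · refine Finset.sum_eq_zero ?_
    rintro ⟨c, w⟩ hw
    rw [Finset.mem_filter, mem_Om] at hw
    obtain ⟨⟨a1, a2, -⟩, a4⟩ := hw
    obtain ⟨u, -, rfl, e, he⟩ := of_fixed deg N g κ c w a1 a4
    dsimp only at a2
    refine absurd ⟨e, ?_⟩ hd
    rw [← a2, wt_rep, he, mul_left_comm, Nat.mul_div_cancel_left _ hN0]

end count

end Pool.Agent.MP_92f1cb_al.H14
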