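import Mathlib

set_option autoImplicit false

namespace Pool.Agent.MP_92f1cb_al.H14

namespace Cnt4

open Finset

theorem sign (n j : ℕ) : (-1 : ℤ) ^ n * ((-1 : ℤ) ^ (n + 1)) ^ j = (-1) ^ Nat.gcd n j := by
  rcases Nat.even_or_odd n with hn | hn
  · rw [hn.neg_one_pow, one_mul, hn.add_one.neg_one_pow]
    rcases Nat.even_or_odd j with hj | hj
    · rw [hj.neg_one_pow, Even.neg_one_pow]
      exact even_iff_two_dvd.2 (Nat.dvd_gcd hn.two_dvd hj.two_dvd)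
    · rw [hj.neg_one_pow, (hj.of_dvd_nat (Nat.gcd_dvd_right n j)).neg_one_pow]
  · rw [hn.neg_one_pow, hn.add_one.neg_one_pow, one_pow, mul_one,
      (hn.of_dvd_nat (Nat.gcd_dvd_left n j)).neg_one_pow]

theorem fibre (f : ℕ → ℤ) (n : ℕ) :
    ∑ j ∈ range n, f (Nat.gcd n j) = ∑ g ∈ n.divisors, (Nat.totient (n / g) : ℤ) * f g := by
  rw [← sum_fiberwise_of_maps_to (s := range n) (t := n.divisors) (g := fun j => Nat.gcd n j)
    fun j hj => Nat.mem_divisors.2 ⟨Nat.gcd_dvd_left n j, by have := mem_range.1 hj; omega⟩]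
  refine sum_congr rfl fun g hg => ?_
  rw [sum_congr rfl (g := fun _ => f g) fun j hj => by rw [(mem_filter.1 hj).2], sum_const,
    Nat.totient_div_of_dvd (Nat.dvd_of_mem_divisors hg), nsmul_eq_mul]

theorem pairs (T : ℕ → ℕ → ℤ) (m m' : ℕ) (hm : m' ≠ 0) :
    ∑ n ∈ range (m + 1), ∑ g ∈ n.divisors.filter (fun g => n / g ∣ m'), T (n / g) g =
      ∑ κ ∈ m'.divisors, ∑ g ∈ range (m / κ), T κ (g + 1) := by
  rw [sum_sigma', sum_sigma']
  refine sum_bij' (fun p _ => ⟨p.1 / p.2, p.2 - 1⟩) (fun p _ => ⟨(p.2 + 1) * p.1, p.2 + 1⟩)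
    ?_ ?_ ?_ ?_ ?_
  · rintro ⟨n, g⟩ h
    simp only [mem_sigma, mem_range, mem_filter, Nat.mem_divisors] at h ⊢
    obtain ⟨h1, ⟨⟨κ, rfl⟩, h3⟩, h4⟩ := h
    have hg : 0 < g := Nat.pos_of_ne_zero fun e => h3 (by simp [e])
    have hκ : 0 < κ := Nat.pos_of_ne_zero fun e => h3 (by simp [e])
    rw [Nat.mul_div_cancel_left _ hg] at h4 ⊢
    have : g ≤ m / κ := (Nat.le_div_iff_mul_le hκ).2 (by omega)
    exact ⟨⟨h4, hm⟩, by omega⟩
  · rintro ⟨κ, g⟩ h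
    simp only [mem_sigma, mem_range, mem_filter, Nat.mem_divisors] at h ⊢
    obtain ⟨⟨h1, -⟩, h2⟩ := h
    have hκ : 0 < κ := Nat.pos_of_dvd_of_pos h1 (Nat.pos_of_ne_zero hm)
    have := (Nat.le_div_iff_mul_le hκ).1 (Nat.succ_le_of_lt h2)
    rw [Nat.mul_div_cancel_left _ (Nat.succ_pos g)]
    exact ⟨Nat.lt_succ_of_le this, ⟨dvd_mul_right _ _, by positivity⟩, h1⟩
  · rintro ⟨n, g⟩ h
    simp only [mem_sigma, mem_range, mem_filter, Nat.mem_divisors] at h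
    obtain ⟨-, ⟨h2, h3⟩, -⟩ := h
    have hg : 0 < g := Nat.pos_of_dvd_of_pos h2 (Nat.pos_of_ne_zero h3)
    simp only [Nat.sub_add_cancel hg, Nat.mul_div_cancel' h2]
  · rintro ⟨κ, g⟩ _
    simp only [Nat.mul_div_cancel_left _ (Nat.succ_pos g), Nat.add_sub_cancel]
  · rintro ⟨n, g⟩ h
    simp only [mem_sigma, mem_range, mem_filter, Nat.mem_divisors] at h
    obtain ⟨-, ⟨h2, h3⟩, -⟩ := h
    have hg : 0 < g := Nat.pos_of_dvd_of_pos h2 (Nat.pos_of_ne_zero h3)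
    simp only [Nat.sub_add_cancel hg]

end Cnt4

theorem reindex_sum (F : ℕ → ℕ → ℤ) (G : ℕ → ℕ → ℤ) (m m' : ℕ) (hm : 0 < m) (hm' : m' ∣ m)
    (hF : ∀ g κ, 0 < g → 0 < κ → F (g * κ) g = if κ ∣ m' then G g (m / κ) else 0)
    (hG : ∀ g μ, μ < g → G g μ = 0) :
    ∑ n ∈ Finset.range (m + 1), (-1 : ℤ) ^ n *
        ∑ j ∈ Finset.range n, ((-1 : ℤ) ^ (n + 1)) ^ j * F n (Nat.gcd n j)
      = - ∑ κ ∈ m'.divisors, (Nat.totient κ : ℤ) *
          ∑ g ∈ Finset.range (m / κ), (-1) ^ g * G (g + 1) (m / κ) := by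
  have h0 : m' ≠ 0 := (Nat.pos_of_dvd_of_pos hm' hm).ne'
  have h1 := Cnt4.pairs (fun κ g => (Nat.totient κ : ℤ) * ((-1) ^ g * G g (m / κ))) m m' h0
  have h2 : ∀ n, (-1 : ℤ) ^ n * ∑ j ∈ Finset.range n, ((-1 : ℤ) ^ (n + 1)) ^ j * F n (Nat.gcd n j)
      = ∑ g ∈ n.divisors.filter (fun g => n / g ∣ m'),
        (Nat.totient (n / g) : ℤ) * ((-1) ^ g * G g (m / (n / g))) := by
    intro n
    rw [Finset.mul_sum, Finset.sum_congr rfl fun j _ => by rw [← mul_assoc, Cnt4.sign],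
      Cnt4.fibre (fun g => (-1) ^ g * F n g), Finset.sum_filter]
    refine Finset.sum_congr rfl fun g hg => ?_
    obtain ⟨⟨κ, rfl⟩, h3⟩ := Nat.mem_divisors.1 hg
    have hg : 0 < g := Nat.pos_of_ne_zero fun e => h3 (by simp [e])
    have hκ : 0 < κ := Nat.pos_of_ne_zero fun e => h3 (by simp [e])
    rw [Nat.mul_div_cancel_left _ hg, hF g κ hg hκ]
    split_ifs <;> simp
  rw [Finset.sum_congr rfl fun n _ => h2 n, h1, ← Finset.sum_neg_distrib]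
  refine Finset.sum_congr rfl fun κ _ => ?_
  rw [Finset.mul_sum, ← Finset.sum_neg_distrib]
  exact Finset.sum_congr rfl fun g _ => by ring

end Pool.Agent.MP_92f1cb_al.H14
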