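import Pool.Agent.MP_92f1cb_al.H14.Ops

set_option autoImplicit false

namespace Pool.Agent.MP_92f1cb_al.H14

variable {k A B : Type} [Field k] [Ring A] [Algebra k A] {N : ℕ}
variable (β : Module.Basis B k A) (deg : B → ℕ)

theorem TT_nil (c : ZMod N) : TT deg (ee (c, []) : MM k N B) = - ee (c, []) := by
  rw [TT_ee, tau_nil]; simp

theorem TT_snoc_basis (x : B) (W : MM k N B) :
    TT deg (snoc β (β x) W) = sh (deg x : ZMod N) (cons β (β x) (om W)) := by
  induction W using ee_ind with
  | hb c w =>
    rw [← ee_concat, TT_ee, tau_concat, om_ee, map_smul, map_smul, ← ee_cons, sh_ee]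
    simp [pow_succ]
  | h0 => simp
  | hadd x y hx hy => simp only [map_add, hx, hy]
  | hsmul c x hx => simp only [map_smul, hx]

theorem TT_snoc (a : A) (d : ℕ) (ha : ∀ z, β.repr a z ≠ 0 → deg z = d) (W : MM k N B) :
    TT deg (snoc β a W) = sh (d : ZMod N) (cons β a (om W)) := by
  refine basis_ind β (fun z => deg z = d)
    (P := fun a => TT deg (snoc β a W) = sh (d : ZMod N) (cons β a (om W))) ?_ ?_ ?_ ?_ a ha
  · intro z hz; rw [TT_snoc_basis, hz]
  · simp
  · intro x y hx hy; simp only [map_add, LinearMap.add_apply, hx, hy]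
  · intro c x hx; simp only [map_smul, LinearMap.smul_apply, hx]

theorem FF_snoc (i : ℕ) (a : A) (c : ZMod N) (w : List B) (h : i + 1 < w.length) :
    FF β i (snoc β a (ee (c, w))) = snoc β a (FF β i (ee (c, w))) := by
  induction i generalizing w with
  | zero =>
    match w, h with
    | x :: y :: w, _ =>
      rw [FF_zero, ee_cons β, ee_cons β, ← cons_snoc, ← cons_snoc, d0_cons_cons, d0_cons_cons,
        cons_snoc]
  | succ i ih =>
    match w, h with
    | x :: w, h =>
      rw [ee_cons β, ← cons_snoc, FF_succ_cons, FF_succ_cons, ih w (by simpa using h), cons_snoc,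
        map_neg]

theorem om_snoc (a : A) (W : MM k N B) : om (snoc β a W) = - snoc β a (om W) := by
  induction a using basis_ind' β with
  | hb x =>
    induction W using ee_ind with
    | hb c w =>
      rw [← ee_concat, om_ee, om_ee, map_smul, ← ee_concat, List.length_append,
        List.length_singleton, pow_succ]
      simp
    | h0 => simp
    | hadd x y hx hy => simp only [map_add, hx, hy, neg_add]
    | hsmul c x hx => simp only [map_smul, hx, smul_neg]
  | h0 => simp
  | hadd x y hx hy => simp only [map_add, LinearMap.add_apply, hx, hy, neg_add]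
  | hsmul c x hx => simp only [map_smul, LinearMap.smul_apply, hx, smul_neg]

theorem FF_last (a a' : A) (c : ZMod N) (w : List B) :
    FF β w.length (snoc β a' (snoc β a (ee (c, w)))) = snoc β (a * a') (om (ee (c, w))) := by
  induction w with
  | nil =>
    rw [List.length_nil, FF_zero, ← cons_nil_eq_snoc, ← cons_snoc, ← cons_nil_eq_snoc,
      d0_cons_cons, om_ee, cons_nil_eq_snoc]
    simp
  | cons x w ih =>
    rw [List.length_cons, ee_cons β, ← cons_snoc, ← cons_snoc, FF_succ_cons, ih, om_cons, map_neg,
      cons_snoc]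

theorem FF_TT (i : ℕ) (c : ZMod N) (w : List B) (h : i + 2 < w.length) :
    FF β (i + 1) (TT deg (ee (c, w))) = TT deg (FF β i (ee (c, w))) := by
  induction w using List.reverseRecOn with
  | nil => simp at h
  | append_singleton w x _ =>
    rw [ee_concat β, TT_snoc_basis, ← sh_FF, FF_succ_cons, FF_snoc β i _ c w (by simp at h; omega),
      TT_snoc_basis, om_FF]
    simp only [map_neg]

variable {β deg}

theorem d0_TT_TT (hdeg : ∀ x y z, β.repr (β x * β y) z ≠ 0 → deg z = deg x + deg y)
    (c : ZMod N) (w : List B) (x y : B) :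
    d0 β (TT deg (TT deg (ee (c, w ++ [x] ++ [y])))) =
      TT deg (FF β w.length (ee (c, w ++ [x] ++ [y]))) := by
  rw [ee_concat β, ee_concat β, FF_last, TT_snoc β deg _ _ (hdeg x y), TT_snoc_basis, om_snoc,
    map_neg, map_neg, cons_snoc, map_neg, ← sh_TT, TT_snoc_basis, om_cons, om_om]
  simp only [map_neg, neg_neg, ← sh_d0, d0_cons_cons, sh_sh, Nat.cast_add]

theorem bp_TT (hdeg : ∀ x y z, β.repr (β x * β y) z ≠ 0 → deg z = deg x + deg y)
    (W : MM k N B) :
    bp β (TT deg W) + d0 β (TT deg (TT deg W)) = d0 β (TT deg W) + TT deg (bp β W) := by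
  induction W using ee_ind with
  | hb c w =>
    induction w using List.reverseRecOn with
    | nil => simp [TT_nil, bp_nil, d0_nil]
    | append_singleton w y _ =>
      induction w using List.reverseRecOn with
      | nil =>
        have h1 : ∀ c : ZMod N, TT deg (ee (c, [y]) : MM k N B) = ee (c + (deg y : ZMod N), [y]) := by
          intro c
          rw [TT_ee, show [y] = [] ++ [y] from rfl, tau_concat]; simp
        simp [h1, bp_ee, FF_zero, d0_one]
      | append_singleton w x _ =>
        have hl : (w ++ [x] ++ [y]).length = w.length + 1 + 1 := by simp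
        have h2 : bp β (TT deg (ee (c, w ++ [x] ++ [y]))) =
            ∑ i ∈ Finset.range (w.length + 1 + 1), FF β i (TT deg (ee (c, w ++ [x] ++ [y]))) := by
          rw [TT_ee, tau_concat, map_smul, bp_ee, Finset.smul_sum]
          simp only [map_smul]
          simp
        have h3 : FF β (w.length + 1) (TT deg (ee (c, w ++ [x] ++ [y]))) = 0 := by
          rw [TT_ee, tau_concat, map_smul, FF_short β _ _ _ (by simp), smul_zero]
        rw [h2, d0_TT_TT hdeg, bp_ee, hl, Finset.sum_range_succ', Finset.sum_range_succ, h3,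
          Finset.sum_range_succ, Finset.sum_range_succ, FF_short β _ _ _ hl.le, FF_zero,
          Finset.sum_congr rfl (fun i hi => FF_TT β deg i c _
            (by rw [hl]; have := Finset.mem_range.1 hi; omega))]
        simp only [map_add, map_sum, add_zero]
        abel
  | h0 => simp
  | hadd x y hx hy =>
    simp only [map_add]
    rw [add_add_add_comm, hx, hy, add_add_add_comm]
  | hsmul c x hx => simp only [map_smul, ← smul_add, hx]

theorem bb_sub_TT (hdeg : ∀ x y z, β.repr (β x * β y) z ≠ 0 → deg z = deg x + deg y)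
    (W : MM k N B) : bb β deg (W - TT deg W) = bp β W - TT deg (bp β W) := by
  rw [map_sub, bb_apply, bb_apply, bp_TT hdeg]; abel

theorem d0_TT_cons_nil (a : A) (c : ZMod N) : d0 β (TT deg (cons β a (ee (c, [])))) = 0 := by
  induction a using basis_ind' β with
  | hb x =>
    rw [cons_nil_eq_snoc, TT_snoc_basis, ← sh_d0, om_ee, map_smul, map_smul, d0_cons_nil]; simp
  | h0 => simp
  | hadd x y hx hy => simp only [map_add, LinearMap.add_apply, hx, hy, add_zero]
  | hsmul c x hx => simp only [map_smul, LinearMap.smul_apply, hx, smul_zero]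

theorem d0_d0_TT (W : MM k N B) : d0 β (d0 β (TT deg W)) + d0 β (TT deg (d0 β W)) = 0 := by
  induction W using ee_ind with
  | hb c w =>
    match w with
    | [] => simp [TT_nil, d0_nil]
    | [x] => rw [d0_one, ee_cons β, d0_TT_cons_nil]; simp
    | x :: y :: w =>
      induction w using List.reverseRecOn with
      | nil =>
        rw [d0_two, d0_TT_cons_nil, ee_cons β, ee_cons β, cons_nil_eq_snoc, cons_snoc,
          TT_snoc_basis, om_cons, om_ee]
        simp only [map_neg, map_smul, ← sh_d0, d0_cons_cons, d0_cons_nil, map_zero, smul_zero,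
          neg_zero, add_zero]
      | append_singleton w z _ =>
        rw [d0_two, ee_cons β, ee_cons β, ee_concat β]
        simp only [cons_snoc, TT_snoc_basis, om_cons, map_neg, neg_neg, ← sh_d0, d0_cons_cons,
          mul_assoc, add_neg_cancel]
  | h0 => simp
  | hadd x y hx hy =>
    simp only [map_add]
    rw [add_add_add_comm, hx, hy, add_zero]
  | hsmul c x hx => simp only [map_smul, ← smul_add, hx, smul_zero]

theorem bb_bb (hdeg : ∀ x y z, β.repr (β x * β y) z ≠ 0 → deg z = deg x + deg y)
    (W : MM k N B) : bb β deg (bb β deg W) = 0 := by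
  have h1 := congrArg (d0 β) (bp_TT hdeg W)
  have h2 := bp_d0_add β (TT deg W)
  have h3 := d0_d0_TT (β := β) (deg := deg) (TT deg W)
  simp only [map_add] at h1
  simp only [bb_apply, map_add, bp_bp]
  linear_combination (norm := abel) h2 + h3 - h1

/-- Words of length `n`. -/
def LL (k : Type) [Field k] (N : ℕ) (B : Type) (n : ℕ) : Submodule k (MM k N B) :=
  Finsupp.supported k k {p | p.2.length = n}

theorem length_rot (w : List B) : (rot w).length = w.length := by simp [rot]

theorem TT_mem_LL (deg : B → ℕ) {n : ℕ} {W : MM k N B} (h : W ∈ LL k N B n) :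
    TT deg W ∈ LL k N B n := by
  refine mem_of_supported _ _ _ (fun p hp => ?_) h
  rw [TT_ee]
  exact Submodule.smul_mem _ _ (ee_mem (by simpa [tau, length_rot] using hp))

theorem TT_pow_mem_LL (deg : B → ℕ) (j : ℕ) {n : ℕ} {W : MM k N B} (h : W ∈ LL k N B n) :
    (TT deg ^ j) W ∈ LL k N B n := by
  induction j with
  | zero => simpa using h
  | succ j ih => rw [pow_succ', Module.End.mul_apply]; exact TT_mem_LL deg ih

theorem bp_eq_sum {n : ℕ} {W : MM k N B} (h : W ∈ LL k N B (n + 1)) :
    bp β W = ∑ i ∈ Finset.range n, FF β i W := by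
  have := eq_of_supported (bp β) (∑ i ∈ Finset.range n, FF β i) _ (fun p hp => ?_) h
  · simpa [LinearMap.sum_apply] using this
  · obtain ⟨c, w⟩ := p
    have hp' : w.length = n + 1 := hp
    rw [bp_ee, hp', Finset.sum_range_succ, FF_short β _ _ _ hp'.le, add_zero, LinearMap.sum_apply]

theorem FF_TT_pow {n : ℕ} (i : ℕ) (hi : i < n) {W : MM k N B} (h : W ∈ LL k N B (n + 1)) :
    FF β i ((TT deg ^ i) W) = (TT deg ^ i) (d0 β W) := by
  induction i with
  | zero => simp [FF_zero]
  | succ i ih =>
    have := eq_of_supported (FF β (i + 1) * TT deg) (TT deg * FF β i) _ (fun p hp => ?_)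
      (TT_pow_mem_LL deg i h)
    · rw [pow_succ', Module.End.mul_apply, Module.End.mul_apply, ← ih (by omega)]
      exact this
    · obtain ⟨c, w⟩ := p
      have hp' : w.length = n + 1 := hp
      exact FF_TT β deg i c w (by omega)

/-- The norm operator. -/
noncomputable def NN (deg : B → ℕ) (n : ℕ) : Module.End k (MM k N B) :=
  ∑ j ∈ Finset.range n, TT deg ^ j

theorem TT_NN {n : ℕ} {W : MM k N B} (h : (TT deg ^ n) W = W) :
    TT deg (NN deg n W) = NN deg n W := by
  have h1 := congrArg (fun φ : Module.End k (MM k N B) => φ W)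
    (Commute.mul_geom_sum₂ (Commute.one_right (TT deg : Module.End k (MM k N B))) n)
  simp only [one_pow, mul_one, Module.End.mul_apply, LinearMap.sub_apply,
    Module.End.one_apply, h, sub_self] at h1
  exact sub_eq_zero.1 h1

theorem NN_TT {n : ℕ} {W : MM k N B} (h : (TT deg ^ n) W = W) :
    NN deg n (TT deg W) = NN deg n W := by
  rw [← TT_NN h, ← Module.End.mul_apply, ← Module.End.mul_apply]
  congr 1
  exact (Commute.sum_left _ _ _ (fun j _ => (Commute.refl _).pow_left j)).eq

theorem pow_fix {n : ℕ} {W : MM k N B} (h : (TT deg ^ n) W = W) (i : ℕ) :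
    (TT deg ^ n) ((TT deg ^ i) W) = (TT deg ^ i) W := by
  rw [← Module.End.mul_apply, pow_mul_comm, Module.End.mul_apply, h]

theorem NN_TT_pow {n : ℕ} {W : MM k N B} (h : (TT deg ^ n) W = W) (i : ℕ) :
    NN deg n ((TT deg ^ i) W) = NN deg n W := by
  induction i with
  | zero => simp
  | succ i ih => rw [pow_succ', Module.End.mul_apply, NN_TT (pow_fix h i), ih]

theorem TT_pow_NN {n : ℕ} {W : MM k N B} (h : (TT deg ^ n) W = W) (i : ℕ) :
    (TT deg ^ i) (NN deg n W) = NN deg n W := by
  induction i with
  | zero => simp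
  | succ i ih => rw [pow_succ, Module.End.mul_apply, TT_NN h, ih]

theorem NN_mem (V : Submodule k (MM k N B)) (hV : ∀ x ∈ V, TT deg x ∈ V) (n : ℕ)
    {W : MM k N B} (h : W ∈ V) : NN deg n W ∈ V := by
  rw [NN, LinearMap.sum_apply]
  refine Submodule.sum_mem _ fun j hj => ?_
  clear hj
  induction j with
  | zero => simpa using h
  | succ j ih => rw [pow_succ', Module.End.mul_apply]; exact hV _ ih

theorem bp_NN {n : ℕ} (V : Submodule k (MM k N B)) (hL : V ≤ LL k N B (n + 1))
    (hV : ∀ x ∈ V, TT deg x ∈ V) (h1 : ∀ x ∈ V, (TT deg ^ (n + 1)) x = x)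
    (h2 : ∀ x ∈ V, (TT deg ^ n) (d0 β x) = d0 β x) {W : MM k N B} (h : W ∈ V) :
    bp β (NN deg (n + 1) W) = NN deg n (bb β deg W) := by
  have hpow : ∀ j, (TT deg ^ j) W ∈ V := by
    intro j
    induction j with
    | zero => simpa using h
    | succ j ih => rw [pow_succ', Module.End.mul_apply]; exact hV _ ih
  have hN := NN_mem V hV (n + 1) h
  have e1 : bp β (NN deg (n + 1) W) = NN deg n (d0 β (NN deg (n + 1) W)) := by
    rw [bp_eq_sum (hL hN)]
    conv_rhs => rw [NN, LinearMap.sum_apply]
    refine Finset.sum_congr rfl fun i hi => ?_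
    rw [← FF_TT_pow i (Finset.mem_range.1 hi) (hL hN), TT_pow_NN (h1 W h)]
  have e2 : ∀ i ∈ Finset.range n,
      NN deg n (FF β i W) = NN deg n (d0 β ((TT deg ^ (n + 1 - i)) W)) := by
    intro i hi
    have hi' := Finset.mem_range.1 hi
    rw [← NN_TT_pow (h2 _ (hpow _)) i, ← FF_TT_pow i hi' (hL (hpow _)),
      ← Module.End.mul_apply (TT deg ^ i), ← pow_add, show i + (n + 1 - i) = n + 1 by omega, h1 W h]
  have e3 : NN deg (n + 1) W =
      ∑ i ∈ Finset.range n, (TT deg ^ (n + 1 - i)) W + TT deg W := by
    rw [← TT_NN (h1 W h), NN, LinearMap.sum_apply, map_sum, ← Finset.sum_range_reflect,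
      Finset.sum_range_succ]
    congr 1
    · refine Finset.sum_congr rfl fun i hi => ?_
      have hi' := Finset.mem_range.1 hi
      rw [← Module.End.mul_apply, ← pow_succ']
      congr 2; omega
    · simp
  rw [e1, bb_apply, bp_eq_sum (hL h), map_add, map_sum, Finset.sum_congr rfl e2, e3, map_add,
    map_add, map_sum, map_sum]

end Pool.Agent.MP_92f1cb_al.H14
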