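import Mathlib

set_option autoImplicit false

namespace Pool.Agent.MP_92f1cb_al.H14

open Polynomial

variable {B ι : Type}

/-- Total degree of a word. -/
def wt (deg : B → ℕ) (w : List B) : ℕ := (w.map deg).sum

/-- The word is a composable path from `i` to `j`. -/
def Comp (s t : B → ι) : ι → List B → ι → Prop
  | i, [], j => i = j
  | i, x :: w, j => s x = i ∧ Comp s t (t x) w j

/-- Cyclically composable word with letters of positive degree. -/
def Good (s t : B → ι) (deg : B → ℕ) (w : List B) : Prop :=
  (∃ i, Comp s t i w i) ∧ ∀ x ∈ w, 0 < deg x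

/-- Degree of the last letter. -/
def dl (deg : B → ℕ) (w : List B) : ℕ := (w.getLast?.map deg).getD 0

/-- Move the last letter to the front. -/
def rot (w : List B) : List B := w.rotate (w.length - 1)

/-- Rotation of a word with a marked sheet. -/
def tau (deg : B → ℕ) (N : ℕ) (p : ZMod N × List B) : ZMod N × List B :=
  (p.1 + (dl deg p.2 : ZMod N), rot p.2)

/-- Number of times the last letter crosses sheet zero. -/
def del (deg : B → ℕ) (N : ℕ) (p : ZMod N × List B) : ℤ :=
  (((p.1.val + dl deg p.2) / N : ℕ) : ℤ)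

open Classical in
/-- Good words of length `n` and weight `m`. -/
noncomputable def Wd [Fintype B] (s t : B → ι) (deg : B → ℕ) (n m : ℕ) : Finset (List B) :=
  (List.finite_length_eq B n).toFinset.filter (fun w => wt deg w = m ∧ Good s t deg w)

/-- Marked good words of length `n` and weight `m`. -/
noncomputable def Om [Fintype B] (s t : B → ι) (deg : B → ℕ) (N : ℕ) [NeZero N] (n m : ℕ) :
    Finset (ZMod N × List B) :=
  Finset.univ ×ˢ Wd s t deg n m

/-- The positive-degree part of the Cartan matrix read from a basis. -/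
noncomputable def hmat [Fintype B] [DecidableEq ι] (s t : B → ι) (deg : B → ℕ) :
    Matrix ι ι ℤ[X] :=
  Matrix.of fun i j =>
    ∑ x ∈ Finset.univ.filter (fun x : B => s x = i ∧ t x = j ∧ 0 < deg x), X ^ deg x

/-- Coefficients of the logarithmic derivative of `det (1 + h)`. -/
noncomputable def rr [Fintype ι] [DecidableEq ι] (h : Matrix ι ι ℤ[X]) (ν : ℕ) : ℤ :=
  ∑ g ∈ Finset.range ν,
    (-1) ^ g * (Matrix.trace (h ^ g * h.map (fun f => X * derivative f))).coeff ν

theorem mem_Wd [Fintype B] (s t : B → ι) (deg : B → ℕ) (n m : ℕ) (w : List B) :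
    w ∈ Wd s t deg n m ↔ w.length = n ∧ wt deg w = m ∧ Good s t deg w := by
  classical
  simp [Wd]

theorem mem_Om [Fintype B] (s t : B → ι) (deg : B → ℕ) (N : ℕ) [NeZero N] (n m : ℕ)
    (p : ZMod N × List B) :
    p ∈ Om s t deg N n m ↔ p.2.length = n ∧ wt deg p.2 = m ∧ Good s t deg p.2 := by
  simp [Om, mem_Wd]

@[simp] theorem wt_nil (deg : B → ℕ) : wt deg [] = 0 := rfl

@[simp] theorem wt_cons (deg : B → ℕ) (x : B) (w : List B) :
    wt deg (x :: w) = deg x + wt deg w := by simp [wt]

@[simp] theorem wt_append (deg : B → ℕ) (u v : List B) :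
    wt deg (u ++ v) = wt deg u + wt deg v := by simp [wt]

@[simp] theorem dl_nil (deg : B → ℕ) : dl deg [] = 0 := rfl

@[simp] theorem dl_concat (deg : B → ℕ) (w : List B) (x : B) : dl deg (w ++ [x]) = deg x := by
  simp [dl]

@[simp] theorem rot_nil : rot ([] : List B) = [] := rfl

@[simp] theorem rot_concat (w : List B) (x : B) : rot (w ++ [x]) = x :: w := by
  simp [rot, List.rotate_append_length_eq]

theorem tau_concat (deg : B → ℕ) (N : ℕ) (c : ZMod N) (w : List B) (x : B) :
    tau deg N (c, w ++ [x]) = (c + (deg x : ZMod N), x :: w) := by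
  simp [tau]

theorem tau_nil (deg : B → ℕ) (N : ℕ) (c : ZMod N) :
    tau deg N (c, ([] : List B)) = (c, []) := by
  simp [tau]

theorem comp_append (s t : B → ι) (u v : List B) (i j : ι) :
    Comp s t i (u ++ v) j ↔ ∃ l, Comp s t i u l ∧ Comp s t l v j := by
  induction u generalizing i with
  | nil => simp [Comp]
  | cons x u ih => simp [Comp, ih, and_assoc]

theorem cyc_append_comm (s t : B → ι) (u v : List B) :
    (∃ i, Comp s t i (u ++ v) i) ↔ ∃ i, Comp s t i (v ++ u) i := by
  simp only [comp_append]
  constructor <;> rintro ⟨i, l, h1, h2⟩ <;> exact ⟨l, i, h2, h1⟩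

theorem good_append_comm (s t : B → ι) (deg : B → ℕ) (u v : List B) :
    Good s t deg (u ++ v) ↔ Good s t deg (v ++ u) := by
  simp only [Good, cyc_append_comm s t u v, List.mem_append, or_comm]

theorem tau_iterate_append (deg : B → ℕ) (N : ℕ) (c : ZMod N) (u v : List B) :
    (tau deg N)^[v.length] (c, u ++ v) = (c + (wt deg v : ZMod N), v ++ u) := by
  induction v using List.reverseRecOn generalizing c u with
  | nil => simp
  | append_singleton v x ih =>
    rw [List.length_append, List.length_singleton, Function.iterate_succ_apply,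
      ← List.append_assoc, tau_concat, ← List.cons_append, ih]
    simp [add_comm, add_assoc]

theorem tau_mem_Om [Fintype B] (s t : B → ι) (deg : B → ℕ) (N : ℕ) [NeZero N] (n m : ℕ)
    (p : ZMod N × List B) : tau deg N p ∈ Om s t deg N n m ↔ p ∈ Om s t deg N n m := by
  obtain ⟨c, w⟩ := p
  induction w using List.reverseRecOn with
  | nil => simp [tau_nil, mem_Om]
  | append_singleton w x _ =>
    rw [tau_concat, mem_Om, mem_Om]
    have := good_append_comm s t deg w [x]
    simp only [List.singleton_append] at this
    simp [this, add_comm]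

theorem tau_iterate_length (deg : B → ℕ) (N : ℕ) (p : ZMod N × List B)
    (h : N ∣ wt deg p.2) : (tau deg N)^[p.2.length] p = p := by
  obtain ⟨c, w⟩ := p
  have := tau_iterate_append deg N c [] w
  simp only [List.nil_append, List.append_nil] at this
  rw [this, (ZMod.natCast_eq_zero_iff _ _).2 h, add_zero]

end Pool.Agent.MP_92f1cb_al.H14
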