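import Pool.Agent.MP_92f1cb_al.H14.Defs

set_option autoImplicit false

namespace Pool.Agent.MP_92f1cb_al.H14

namespace DIM

variable {k α : Type} [Field k]

/-- The diagonal map with entries `δ`. -/
noncomputable def dg (δ : α → ℤ) : Module.End k (α →₀ k) :=
  Finsupp.lsum k fun a => (δ a : k) • Finsupp.lsingle a

theorem dg_single (δ : α → ℤ) (a : α) :
    (dg δ : Module.End k (α →₀ k)) (Finsupp.single a 1) = (δ a : k) • Finsupp.single a 1 := by
  simp [dg]

theorem single_mem {S : Finset α} {a : α} (ha : a ∈ S) :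
    Finsupp.single a (1 : k) ∈ Finsupp.supported k k (S : Set α) :=
  Finsupp.single_mem_supported k 1 ha

theorem ext_on {S : Finset α} {f g : Module.End k (α →₀ k)}
    (h : ∀ a ∈ S, f (Finsupp.single a 1) = g (Finsupp.single a 1)) {z : α →₀ k}
    (hz : z ∈ Finsupp.supported k k (S : Set α)) : f z = g z := by
  rw [Finsupp.supported_eq_span_single] at hz
  refine LinearMap.eqOn_span ?_ hz
  rintro _ ⟨a, ha, rfl⟩
  exact h a ha

theorem maps_to {S : Finset α} {f : Module.End k (α →₀ k)}
    (h : ∀ a ∈ S, f (Finsupp.single a 1) ∈ Finsupp.supported k k (S : Set α)) {z : α →₀ k}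
    (hz : z ∈ Finsupp.supported k k (S : Set α)) : f z ∈ Finsupp.supported k k (S : Set α) := by
  have h1 : Finsupp.supported k k (S : Set α) ≤ (Finsupp.supported k k (S : Set α)).comap f := by
    conv_lhs => rw [Finsupp.supported_eq_span_single]
    rw [Submodule.span_le]
    rintro _ ⟨a, ha, rfl⟩
    exact h a ha
  exact h1 hz

end DIM

open DIM in
theorem signed_perm_exact {k α : Type} [Field k] (S : Finset α) (τ : α → α) (n : ℕ)
    (hS : ∀ a ∈ S, τ a ∈ S) (hτ : ∀ a ∈ S, τ^[n] a = a) (ε : ℤ) (hε : ε ^ n = 1)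
    (T : Module.End k (α →₀ k))
    (hT : ∀ a ∈ S, T (Finsupp.single a 1) = (ε : k) • Finsupp.single (τ a) 1)
    (δ : α → ℤ) (m' : ℤ) (hδ : ∀ a ∈ S, ∑ j ∈ Finset.range n, δ (τ^[j] a) = m')
    (hm : (m' : k) ≠ 0) :
    (∀ z ∈ Finsupp.supported k k (S : Set α), (T ^ n) z = z) ∧
    (∀ z ∈ Finsupp.supported k k (S : Set α), T z = z →
      ∃ y ∈ Finsupp.supported k k (S : Set α), (∑ j ∈ Finset.range n, T ^ j) y = z) ∧
    (∀ y ∈ Finsupp.supported k k (S : Set α), (∑ j ∈ Finset.range n, T ^ j) y = 0 →
      ∃ x ∈ Finsupp.supported k k (S : Set α), y = x - T x) := by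
  have hεk : (ε : k) ^ n = 1 := by exact_mod_cast congrArg (Int.cast : ℤ → k) hε
  have hSj : ∀ j, ∀ a ∈ S, τ^[j] a ∈ S := by
    intro j
    induction j with
    | zero => exact fun a ha => ha
    | succ j ih => intro a ha; rw [Function.iterate_succ_apply']; exact hS _ (ih a ha)
  have hTj : ∀ j, ∀ a ∈ S,
      (T ^ j) (Finsupp.single a 1) = (ε : k) ^ j • Finsupp.single (τ^[j] a) 1 := by
    intro j
    induction j with
    | zero => intro a _; simp
    | succ j ih =>
      intro a ha
      rw [pow_succ', Module.End.mul_apply, ih a ha, map_smul, hT _ (hSj j a ha), smul_smul,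
        Function.iterate_succ_apply', pow_succ]
  have mT : ∀ j, ∀ z ∈ Finsupp.supported k k (S : Set α),
      (T ^ j) z ∈ Finsupp.supported k k (S : Set α) := fun j z hz =>
    maps_to (fun a ha => by
      rw [hTj j a ha]; exact Submodule.smul_mem _ _ (single_mem (hSj j a ha))) hz
  have mD : ∀ z ∈ Finsupp.supported k k (S : Set α),
      (dg δ : Module.End k (α →₀ k)) z ∈ Finsupp.supported k k (S : Set α) := fun z hz =>
    maps_to (fun a ha => by rw [dg_single]; exact Submodule.smul_mem _ _ (single_mem ha)) hz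
  have key : ∀ z ∈ Finsupp.supported k k (S : Set α),
      ∑ j ∈ Finset.range n, (T ^ (n - j)) (dg δ ((T ^ j) z)) = (m' : k) • z := by
    intro z hz
    have h1 := ext_on (f := ∑ j ∈ Finset.range n, T ^ (n - j) * dg δ * T ^ j)
      (g := (m' : k) • (1 : Module.End k (α →₀ k))) (fun a ha => ?_) hz
    · simpa [LinearMap.sum_apply] using h1
    · rw [LinearMap.sum_apply, LinearMap.smul_apply, Module.End.one_apply, ← hδ a ha, Int.cast_sum,
        Finset.sum_smul]
      refine Finset.sum_congr rfl fun j hj => ?_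
      have hj' := (Finset.mem_range.1 hj).le
      rw [Module.End.mul_apply, Module.End.mul_apply, hTj j a ha, map_smul, dg_single, map_smul,
        map_smul, hTj _ _ (hSj j a ha), ← Function.iterate_add_apply, Nat.sub_add_cancel hj',
        hτ a ha, smul_smul, smul_smul]
      congr 1
      have : (ε : k) ^ j * (ε : k) ^ (n - j) = 1 := by
        rw [← pow_add, Nat.add_sub_cancel' hj', hεk]
      linear_combination (δ (τ^[j] a) : k) * this
  refine ⟨fun z hz => ?_, fun z hz hfix => ?_, fun y hy h0 => ?_⟩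
  · exact ext_on (g := 1) (fun a ha => by rw [hTj n a ha, hεk, hτ a ha, one_smul]; rfl) hz
  · have hj : ∀ j, (T ^ j) z = z := by
      intro j
      induction j with
      | zero => rfl
      | succ j ih => rw [pow_succ, Module.End.mul_apply, hfix, ih]
    have h1 := key z hz
    simp only [hj] at h1
    refine ⟨(m' : k)⁻¹ • T (dg δ z), Submodule.smul_mem _ _ ?_, ?_⟩
    · simpa using mT 1 _ (mD z hz)
    · have h2 : (∑ j ∈ Finset.range n, T ^ j) (T (dg δ z)) = (m' : k) • z := by
        rw [← h1, LinearMap.sum_apply,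
          ← Finset.sum_range_reflect (fun j => (T ^ j) (T (dg δ z))) n]
        refine Finset.sum_congr rfl fun j hj => ?_
        have hj' := Finset.mem_range.1 hj
        rw [← Module.End.mul_apply, ← pow_succ, show n - 1 - j + 1 = n - j by omega]
      rw [map_smul, h2, smul_smul, inv_mul_cancel₀ hm, one_smul]
  · set W := (Finsupp.supported k k (S : Set α)).map (1 - T) with hW
    have hW1 : ∀ i, ∀ u ∈ Finsupp.supported k k (S : Set α), u - (T ^ i) u ∈ W := by
      intro i u hu
      induction i with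
      | zero => simp
      | succ i ih =>
        have h1 : (T ^ i) u - (T ^ (i + 1)) u ∈ W :=
          ⟨(T ^ i) u, mT i u hu, by simp [pow_succ']⟩
        simpa using W.add_mem ih h1
    have h1 : ∑ j ∈ Finset.range n,
        (dg δ ((T ^ j) y) - (T ^ (n - j)) (dg δ ((T ^ j) y))) ∈ W :=
      W.sum_mem fun j _ => hW1 _ _ (mD _ (mT j y hy))
    rw [Finset.sum_sub_distrib, key y hy, ← map_sum, ← LinearMap.sum_apply, h0, map_zero,
      zero_sub] at h1
    have h2 : y ∈ W := by
      have h3 := W.smul_mem (-(m' : k)⁻¹) h1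
      rwa [neg_smul, smul_neg, neg_neg, smul_smul, inv_mul_cancel₀ hm, one_smul] at h3
    obtain ⟨x, hx, e⟩ := h2
    exact ⟨x, hx, by rw [← e]; simp⟩

end Pool.Agent.MP_92f1cb_al.H14
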