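import Pool.Agent.MP_92f1cb_al.H14.Defs

set_option autoImplicit false

namespace Pool.Agent.MP_92f1cb_al.H14

namespace Dim2

open Matrix

/-- The rank over a field of an integer matrix with `E * E = m • E`. -/
theorem rank_trace (k : Type) [Field k] {S : Type} [Fintype S] [DecidableEq S]
    (E : Matrix S S ℤ) (m : ℤ) (hE : E * E = m • E) (hm : (m : k) ≠ 0) :
    m * ((E.map (Int.castRingHom k)).rank : ℤ) = E.trace := by
  let L : Submodule ℤ (S → ℤ) := LinearMap.ker (toLin' E - m • LinearMap.id)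
  have hL : ∀ v, v ∈ L ↔ E *ᵥ v = m • v := fun v => by
    simp [L, LinearMap.mem_ker, sub_eq_zero]
  have hc : ∀ v, toLin' E v ∈ L := fun v => by
    rw [hL, toLin'_apply, mulVec_mulVec, hE, smul_mulVec]
  let b := Module.finBasis ℤ L
  let I := LinearMap.toMatrix b (Pi.basisFun ℤ S) L.subtype
  let J := LinearMap.toMatrix (Pi.basisFun ℤ S) b ((toLin' E).codRestrict L hc)
  have h1 : I * J = E := by
    rw [← LinearMap.toMatrix_comp, LinearMap.subtype_comp_codRestrict,
      LinearMap.toMatrix_eq_toMatrix', LinearMap.toMatrix'_toLin']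
  have h2 : J * I = m • (1 : Matrix _ _ ℤ) := by
    rw [← LinearMap.toMatrix_comp, ← LinearMap.toMatrix_id b, ← map_smul]
    congr 1
    ext v : 1
    exact Subtype.ext ((hL v).1 v.2)
  have h3 : E.trace = m * (Module.finrank ℤ L : ℤ) := by
    rw [← h1, trace_mul_comm, h2, trace_smul, trace_one, Fintype.card_fin, smul_eq_mul]
  rw [h3]
  congr 2
  set f := Int.castRingHom k
  have h4 : E.map f = I.map f * J.map f := by rw [← h1, Matrix.map_mul]
  have h5 : J.map f * I.map f = (m : k) • (1 : Matrix _ _ k) := by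
    rw [← Matrix.map_mul, h2]
    ext i j
    by_cases h : i = j <;> simp [f, h, Matrix.intCast_apply]
  apply le_antisymm
  · rw [h4]
    exact (rank_mul_le_left _ _).trans ((rank_le_card_width _).trans (Fintype.card_fin _).le)
  · have h6 : ((m : k)⁻¹ • J.map f) * E.map f * ((m : k)⁻¹ • I.map f) = 1 := by
      rw [h4, Matrix.smul_mul, Matrix.smul_mul, Matrix.mul_smul, ← Matrix.mul_assoc,
        Matrix.mul_assoc _ (J.map f), h5]
      simp [smul_smul, hm]
    have h7 := (rank_mul_le_left ((m : k)⁻¹ • J.map f * E.map f) ((m : k)⁻¹ • I.map f)).trans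
      (rank_mul_le_right _ _)
    rwa [h6, rank_one, Fintype.card_fin] at h7

theorem inv_smul {A M : Type} [Ring A] [AddCommGroup M] [Module A M] (P D : A) (n : ℕ) (m : ℤ)
    (hQ : ∑ j ∈ Finset.range n, P ^ j * D * P ^ (n - j) = m) (z : M) (hz : P • z = z) :
    ((∑ j ∈ Finset.range n, P ^ j) * D) • z = m • z := by
  have h : ∀ i : ℕ, P ^ i • z = z := fun i => by
    induction i with
    | zero => simp
    | succ i ih => rw [pow_succ, mul_smul, hz, ih]
  rw [← Int.cast_smul_eq_zsmul A, ← hQ, Finset.sum_mul, Finset.sum_smul, Finset.sum_smul]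
  exact Finset.sum_congr rfl fun j _ => by rw [mul_smul _ (P ^ (n - j)), h]

theorem mul_inv {A : Type} [Ring A] (P D : A) (n : ℕ) (hP : P ^ n = 1) :
    P * ((∑ j ∈ Finset.range n, P ^ j) * D) = (∑ j ∈ Finset.range n, P ^ j) * D := by
  have h := mul_geom_sum P n
  rw [hP, sub_self, sub_mul, one_mul, sub_eq_zero] at h
  rw [← mul_assoc, h]

/-- The signed permutation matrix. -/
def pm {S : Type} [DecidableEq S] (σ : S → S) (ε : ℤ) : Matrix S S ℤ :=
  Matrix.of fun b a => if σ a = b then ε else 0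

theorem mul_pm {S : Type} [Fintype S] [DecidableEq S] (M : Matrix S S ℤ) (σ : S → S) (ε : ℤ)
    (b a : S) : (M * pm σ ε) b a = M b (σ a) * ε := by
  simp [Matrix.mul_apply, pm]

theorem pm_pow {S : Type} [Fintype S] [DecidableEq S] (σ : S → S) (ε : ℤ) (j : ℕ) :
    pm σ ε ^ j = pm σ^[j] (ε ^ j) := by
  induction j with
  | zero => ext b a; simp [pm, Matrix.one_apply, eq_comm]
  | succ j ih =>
    ext b a
    rw [pow_succ, ih, mul_pm]
    simp [pm, pow_succ]

theorem main (k : Type) [Field k] {S : Type} [Fintype S] [DecidableEq S] (σ : S → S) (n : ℕ)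
    (hσ : ∀ a, σ^[n] a = a) (ε : ℤ) (hε : ε ^ n = 1) (δ : S → ℤ) (m : ℤ)
    (hδ : ∀ a, ∑ j ∈ Finset.range n, δ (σ^[j] a) = m) (hm : (m : k) ≠ 0) :
    m * (Module.finrank k
        (LinearMap.ker (1 - toLin' ((pm σ ε).map (Int.castRingHom k)))) : ℤ)
      = ∑ j ∈ Finset.range n, ε ^ j * ∑ a, if σ^[j] a = a then δ a else 0 := by
  set P := pm σ ε with hP
  set D := diagonal δ with hD
  have h1 : P ^ n = 1 := by
    rw [hP, pm_pow]
    ext b a
    simp [pm, hσ, hε, Matrix.one_apply, eq_comm]
  have h2 : ∑ j ∈ Finset.range n, P ^ j * D * P ^ (n - j) = m := by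
    ext b a
    rw [Matrix.sum_apply, Matrix.intCast_apply, ← hδ (σ a), ← Finset.sum_range_reflect _ n]
    have : ∀ j ∈ Finset.range n, (P ^ j * D * P ^ (n - j)) b a =
        if b = a then δ (σ^[n - 1 - j] (σ a)) else 0 := by
      intro j hj
      have hj' := Finset.mem_range.1 hj
      have e1 : σ^[j] (σ^[n - j] a) = a := by
        rw [← Function.iterate_add_apply, Nat.add_sub_cancel' hj'.le, hσ]
      have e2 : ε ^ j * ε ^ (n - j) = 1 := by rw [← pow_add, Nat.add_sub_cancel' hj'.le, hε]
      have e3 : σ^[n - 1 - j] (σ a) = σ^[n - j] a := by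
        rw [← Function.iterate_succ_apply]
        congr 1
        omega
      rw [hP, pm_pow, pm_pow, mul_pm, hD, mul_diagonal, pm, of_apply, e1, e3]
      by_cases h : b = a
      · rw [if_pos h, if_pos h.symm, mul_right_comm, e2, one_mul]
      · rw [if_neg h, if_neg (Ne.symm h), zero_mul, zero_mul]
    rw [Finset.sum_range_reflect (fun j => (P ^ j * D * P ^ (n - j)) b a),
      Finset.sum_congr rfl this]
    split_ifs
    · rw [Finset.sum_range_reflect (fun j => δ (σ^[j] (σ a)))]
      rfl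
    · simp
  set E := (∑ j ∈ Finset.range n, P ^ j) * D with hE
  have h3 : P * E = E := mul_inv P D n h1
  have h4 : E * E = m • E := inv_smul P D n m h2 E h3
  let g : Matrix S S ℤ →+* Module.End k (S → k) :=
    (toLinAlgEquiv' (R := k) (n := S)).toRingEquiv.toRingHom.comp (Int.castRingHom k).mapMatrix
  have h5 : LinearMap.ker (1 - g P) = LinearMap.range (g E) := by
    ext z
    rw [LinearMap.mem_ker, LinearMap.sub_apply, sub_eq_zero, Module.End.one_apply]
    constructor
    · intro hz
      have h6 := inv_smul (g P) (g D) n m (by simpa using congrArg g h2) z hz.symm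
      refine ⟨(m : k)⁻¹ • z, ?_⟩
      have h7 : g E z = m • z := by simpa [hE] using h6
      rw [map_smul, h7, ← Int.cast_smul_eq_zsmul k, inv_smul_smul₀ hm]
    · rintro ⟨y, rfl⟩
      rw [← Module.End.mul_apply, ← map_mul, h3]
  have h8 := rank_trace k E m h4 hm
  have h9 : Module.finrank k (LinearMap.ker (1 - toLin' (P.map (Int.castRingHom k)))) =
      (E.map (Int.castRingHom k)).rank :=
    congrArg (fun W : Submodule k (S → k) => Module.finrank k W) h5
  rw [h9, h8, hE, Finset.sum_mul, trace_sum]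
  refine Finset.sum_congr rfl fun j _ => ?_
  rw [hP, pm_pow, Finset.mul_sum, trace]
  exact Finset.sum_congr rfl fun a _ => by simp [hD, pm]

end Dim2

theorem signed_perm_dim {k α : Type} [Field k] [DecidableEq α] (S : Finset α) (τ : α → α) (n : ℕ)
    (hS : ∀ a ∈ S, τ a ∈ S) (hτ : ∀ a ∈ S, τ^[n] a = a) (ε : ℤ) (hε : ε ^ n = 1)
    (T : Module.End k (α →₀ k))
    (hT : ∀ a ∈ S, T (Finsupp.single a 1) = (ε : k) • Finsupp.single (τ a) 1)
    (δ : α → ℤ) (m' : ℤ) (hδ : ∀ a ∈ S, ∑ j ∈ Finset.range n, δ (τ^[j] a) = m')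
    (hm : (m' : k) ≠ 0) :
    m' * (Module.finrank k
        ↥(Finsupp.supported k k (S : Set α) ⊓ LinearMap.ker (1 - T)) : ℤ)
      = ∑ j ∈ Finset.range n, ε ^ j * ∑ a ∈ S.filter (fun a => τ^[j] a = a), δ a := by
  let σ : S → S := fun a => ⟨τ a, hS a a.2⟩
  have hσ : ∀ j (a : S), (σ^[j] a).1 = τ^[j] a := by
    intro j
    induction j with
    | zero => intro a; rfl
    | succ j ih => intro a; exact ih (σ a)
  have h := Dim2.main k σ n (fun a => Subtype.ext ((hσ n a).trans (hτ a a.2))) ε hε
    (fun a => δ a) m' (fun a => by simp only [hσ, hδ a a.2]) hm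
  set Q := Matrix.toLin' ((Dim2.pm σ ε).map (Int.castRingHom k)) with hQ
  let Φ : (S → k) →ₗ[k] (α →₀ k) :=
    Fintype.linearCombination k fun a : S => Finsupp.single a.1 (1 : k)
  have hi : Function.Injective Φ :=
    (Finsupp.basisSingleOne.linearIndependent.comp _
      Subtype.val_injective).fintypeLinearCombination_injective
  have hr : LinearMap.range Φ = Finsupp.supported k k (S : Set α) := by
    rw [Fintype.range_linearCombination, Finsupp.supported_eq_span_single, Set.image_eq_range]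
    rfl
  have hc : T ∘ₗ Φ = Φ ∘ₗ Q := by
    refine (Pi.basisFun k S).ext fun a => ?_
    have e : Q (Pi.single a 1) = (ε : k) • Pi.single (σ a) 1 := by
      ext b
      by_cases hb : σ a = b
      · simp [hQ, Dim2.pm, hb]
      · simp [hQ, Dim2.pm, hb, Ne.symm hb]
    simp only [Pi.basisFun_apply, LinearMap.comp_apply, e, map_smul, Φ,
      Fintype.linearCombination_apply_single, one_smul, hT a a.2]
    rfl
  have hK : Finsupp.supported k k (S : Set α) ⊓ LinearMap.ker (1 - T) =
      (LinearMap.ker (1 - Q)).map Φ := by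
    ext z
    simp only [← hr, Submodule.mem_inf, Submodule.mem_map, LinearMap.mem_range, LinearMap.mem_ker,
      LinearMap.sub_apply, Module.End.one_apply, sub_eq_zero]
    constructor
    · rintro ⟨⟨v, rfl⟩, hv⟩
      exact ⟨v, hi (hv.trans (LinearMap.congr_fun hc v)), rfl⟩
    · rintro ⟨v, hv, rfl⟩
      exact ⟨⟨v, rfl⟩, (congrArg Φ hv).trans (LinearMap.congr_fun hc v).symm⟩
  rw [hK, ← (Submodule.equivMapOfInjective Φ hi _).finrank_eq, h]
  refine Finset.sum_congr rfl fun j _ => ?_
  rw [Finset.sum_filter, ← Finset.sum_coe_sort S]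
  simp only [Subtype.ext_iff, hσ]

end Pool.Agent.MP_92f1cb_al.H14
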