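import Pool.Agent.MP_92f1cb_al.H14.Defs

/-! The Jacobi formula and the logarithmic derivative of `det (1 + h)`. -/

set_option autoImplicit false

namespace Pool.Agent.MP_92f1cb_al.H14

open Polynomial

namespace JAC

variable {ι : Type} [Fintype ι] [DecidableEq ι]

theorem det_updateCol (M : Matrix ι ι ℤ[X]) (i : ι) (b : ι → ℤ[X]) :
    (M.updateCol i b).det = ∑ σ : Equiv.Perm ι, Equiv.Perm.sign σ •
      ((∏ j ∈ Finset.univ.erase i, M (σ j) j) * b (σ i)) := by
  rw [Matrix.det_apply]
  refine Finset.sum_congr rfl fun σ _ => ?_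
  congr 1
  rw [← Finset.prod_erase_mul _ _ (Finset.mem_univ i), Matrix.updateCol_self]
  congr 1
  exact Finset.prod_congr rfl fun j hj => Matrix.updateCol_ne (Finset.ne_of_mem_erase hj)

theorem derivative_det (M : Matrix ι ι ℤ[X]) :
    derivative M.det = Matrix.trace (M.adjugate * M.map derivative) := by
  have h1 : Matrix.trace (M.adjugate * M.map derivative)
      = ∑ i, (M.updateCol i fun j => derivative (M j i)).det := by
    refine Finset.sum_congr rfl fun i _ => ?_
    rw [← Matrix.cramer_apply, Matrix.cramer_eq_adjugate_mulVec]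
    simp [Matrix.mul_apply, Matrix.mulVec, dotProduct]
  rw [h1, Matrix.det_apply, map_sum]
  simp only [det_updateCol]
  rw [Finset.sum_comm]
  refine Finset.sum_congr rfl fun σ _ => ?_
  rw [← Finset.smul_sum, Units.smul_def, Units.smul_def, map_zsmul, derivative_prod_finset]

omit [Fintype ι] [DecidableEq ι] in
theorem eq_smul (h : Matrix ι ι ℤ[X]) (h0 : ∀ i j, (h i j).coeff 0 = 0) :
    h = (X : ℤ[X]) • h.map divX := by
  ext1 i j
  have := X_mul_divX_add (h i j)
  rw [h0 i j] at this
  simpa using this.symm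

omit [Fintype ι] [DecidableEq ι] in
theorem map_eq_smul (h : Matrix ι ι ℤ[X]) :
    h.map (fun f => X * derivative f) = (X : ℤ[X]) • h.map derivative := by
  ext1 i j
  simp

theorem coeff_trace_zero (h : Matrix ι ι ℤ[X]) (h0 : ∀ i j, (h i j).coeff 0 = 0)
    (A : Matrix ι ι ℤ[X]) (g ν : ℕ) (hg : ν ≤ g) :
    (Matrix.trace (A * h ^ g * h.map (fun f => X * derivative f))).coeff ν = 0 := by
  have h1 : A * h ^ g * h.map (fun f => X * derivative f)
      = (X : ℤ[X]) ^ (g + 1) • (A * (h.map divX) ^ g * h.map derivative) := by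
    rw [map_eq_smul]
    nth_rewrite 1 [eq_smul h h0]
    rw [_root_.smul_pow, Matrix.mul_smul, Matrix.mul_smul, Matrix.smul_mul, smul_smul, pow_succ']
  rw [h1, Matrix.trace_smul, smul_eq_mul, coeff_X_pow_mul', if_neg (by omega)]

theorem adj_eq (h : Matrix ι ι ℤ[X]) (L : ℕ) :
    (1 + h).adjugate = (1 + h).det • ∑ g ∈ Finset.range L, (-h) ^ g
      + (1 + h).adjugate * (-h) ^ L := by
  have h1 : (1 + h) * ∑ g ∈ Finset.range L, (-h) ^ g = 1 - (-h) ^ L := by
    have := mul_neg_geom_sum (-h) L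
    rwa [sub_neg_eq_add] at this
  have h2 := congrArg (fun N => (1 + h).adjugate * N) h1
  simp only [← Matrix.mul_assoc, Matrix.adjugate_mul, Matrix.smul_mul, Matrix.one_mul,
    Matrix.mul_sub, Matrix.mul_one] at h2
  rw [h2, sub_add_cancel]

theorem neg_pow_eq (h : Matrix ι ι ℤ[X]) (g : ℕ) : (-h) ^ g = ((-1 : ℤ) ^ g) • h ^ g := by
  rw [← _root_.smul_pow, neg_one_smul]

end JAC

theorem det_coeff_zero {ι : Type} [Fintype ι] [DecidableEq ι] (h : Matrix ι ι ℤ[X])
    (h0 : ∀ i j, (h i j).coeff 0 = 0) : (1 + h).det.coeff 0 = 1 := by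
  have h1 : (constantCoeff : ℤ[X] →+* ℤ).mapMatrix h = 0 := by
    ext i j
    simpa using h0 i j
  have h2 := RingHom.map_det (constantCoeff : ℤ[X] →+* ℤ) (1 + h)
  rw [map_add, map_one, h1, add_zero, Matrix.det_one] at h2
  simpa using h2

theorem jacobi_relation {ι : Type} [Fintype ι] [DecidableEq ι] (h : Matrix ι ι ℤ[X])
    (h0 : ∀ i j, (h i j).coeff 0 = 0) (μ : ℕ) :
    ∑ p ∈ Finset.HasAntidiagonal.antidiagonal μ, (1 + h).det.coeff p.1 * rr h p.2
      = μ * (1 + h).det.coeff μ := by
  have hd : (1 + h).map derivative = h.map derivative := by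
    ext1 i j
    by_cases hij : i = j <;> simp [hij]
  have h1 : X * derivative (1 + h).det
      = Matrix.trace ((1 + h).adjugate * h.map (fun f => X * derivative f)) := by
    rw [JAC.derivative_det, hd, JAC.map_eq_smul, Matrix.mul_smul, Matrix.trace_smul, smul_eq_mul]
  have h2 : (X * derivative (1 + h).det).coeff μ = μ * (1 + h).det.coeff μ := by
    cases μ with
    | zero => simp
    | succ n => rw [coeff_X_mul, coeff_derivative]; push_cast; ring
  rw [← h2, h1, JAC.adj_eq h μ, Matrix.add_mul, Matrix.trace_add, coeff_add, JAC.neg_pow_eq,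
    Matrix.mul_smul, Matrix.smul_mul, Matrix.smul_mul, Matrix.trace_smul, Matrix.trace_smul,
    coeff_smul, JAC.coeff_trace_zero h h0 _ μ μ le_rfl, smul_zero, add_zero, smul_eq_mul,
    coeff_mul]
  refine Finset.sum_congr rfl fun p hp => ?_
  congr 1
  have hp2 : p.2 ≤ μ := Finset.HasAntidiagonal.antidiagonal.snd_le hp
  rw [Finset.sum_mul, Matrix.trace_sum, finsetSum_coeff, rr]
  rw [Finset.sum_subset (Finset.range_mono hp2)]
  · refine Finset.sum_congr rfl fun g _ => ?_
    rw [JAC.neg_pow_eq, Matrix.smul_mul, Matrix.trace_smul, coeff_smul, smul_eq_mul]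
  · intro g _ hg
    have := JAC.coeff_trace_zero h h0 1 g p.2 (by simpa using hg)
    rw [Matrix.one_mul] at this
    rw [this, mul_zero]

end Pool.Agent.MP_92f1cb_al.H14
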