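import Pool.Agent.MP_92f1cb_al.H14.Defs

set_option autoImplicit false

namespace Pool.Agent.MP_92f1cb_al.H14

open DirectSum

namespace K1

section

variable {k : Type} [Field k] {A : Type} [Ring A] [Algebra k A]
  (𝒜 : ℕ → Submodule k A) [GradedAlgebra 𝒜]
  {P : Type} [AddCommGroup P] [Module k P] [Module A P]
  (ℳ : ℕ → Submodule k P) [DirectSum.Decomposition ℳ] [SetLike.GradedSMul 𝒜 ℳ]

omit [GradedAlgebra 𝒜] [DirectSum.Decomposition ℳ] in
theorem smul_mem {i δ : ℕ} {a : A} {m : P} (ha : a ∈ 𝒜 i) (hm : m ∈ ℳ δ) :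
    a • m ∈ ℳ (δ + i) := by
  have := SetLike.GradedSMul.smul_mem (A := 𝒜) (B := ℳ) ha hm
  rwa [vadd_eq_add, add_comm] at this

theorem comp_smul {δ : ℕ} {m : P} (hm : m ∈ ℳ δ) (j : ℕ) (a : A) :
    (decompose ℳ (a • m) (δ + j) : P) = (decompose 𝒜 a j : A) • m := by
  induction a using DirectSum.Decomposition.inductionOn 𝒜 with
  | zero => simp
  | @homogeneous i a =>
    by_cases h : i = j
    · subst h
      rw [decompose_of_mem_same ℳ (smul_mem 𝒜 ℳ a.2 hm), decompose_of_mem_same 𝒜 a.2]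
    · rw [decompose_of_mem_ne ℳ (smul_mem 𝒜 ℳ a.2 hm) (by omega), decompose_of_mem_ne 𝒜 a.2 h,
        zero_smul]
  | add a b ha hb => simp [add_smul, ha, hb]

include 𝒜 in
theorem comp_smul_low {δ : ℕ} {m : P} (hm : m ∈ ℳ δ) {j : ℕ} (hj : j < δ) (a : A) :
    (decompose ℳ (a • m) j : P) = 0 := by
  induction a using DirectSum.Decomposition.inductionOn 𝒜 with
  | zero => simp
  | @homogeneous i a => exact decompose_of_mem_ne ℳ (smul_mem 𝒜 ℳ a.2 hm) (by omega)
  | add a b ha hb => simp [add_smul, ha, hb]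

theorem comp_sum {δ : ℕ} {Λ : Type} [Fintype Λ] {v : Λ → P} (hv : ∀ x, v x ∈ ℳ δ) (j : ℕ)
    (f : Λ → A) : (decompose ℳ (∑ x, f x • v x) (δ + j) : P) =
      ∑ x, (decompose 𝒜 (f x) j : A) • v x := by
  rw [decompose_sum, DFinsupp.finsetSum_apply, Submodule.coe_sum]
  exact Finset.sum_congr rfl fun x _ => comp_smul 𝒜 ℳ (hv x) j _

/-- The components below `n` vanish. -/
def High (n : ℕ) (a : A) : Prop := ∀ j, j < n → decompose 𝒜 a j = 0

theorem High.mul {n : ℕ} {a b : A} (ha : High 𝒜 n a) (hb : High 𝒜 1 b) :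
    High 𝒜 (n + 1) (a * b) := by
  classical
  intro j hj
  apply Subtype.ext
  rw [decompose_mul, DirectSum.coe_mul_apply]
  refine Finset.sum_eq_zero fun ij hij => ?_
  have h1 := (Finset.mem_filter.1 hij).2
  by_cases h : ij.1 < n
  · rw [ha _ h]; simp
  · rw [hb ij.2 (by omega)]; simp

theorem High.sum {n : ℕ} {Λ : Type} [Fintype Λ] {f : Λ → A} (h : ∀ x, High 𝒜 n (f x)) :
    High 𝒜 n (∑ x, f x) := by
  intro j hj
  rw [decompose_sum, DFinsupp.finsetSum_apply]
  exact Finset.sum_eq_zero fun x _ => h x j hj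

theorem High.eq_zero {a : A} (h : ∀ n, High 𝒜 n a) : a = 0 := by
  apply (decompose 𝒜).injective
  ext j
  rw [h (j + 1) j (by omega)]; simp

theorem ind_span {S : Set P} (hgen : Submodule.span A S = ⊤) {R : P → Prop} (h0 : R 0)
    (hadd : ∀ x y, R x → R y → R (x + y)) (hs : ∀ (a : A), ∀ m ∈ S, R (a • m)) (x : P) : R x := by
  have hx : x ∈ Submodule.span A S := hgen ▸ Submodule.mem_top
  have : ∀ a : A, R (a • x) := by
    induction hx using Submodule.span_induction with
    | mem m hm => exact fun a => hs a m hm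
    | zero => simpa using h0
    | add x y _ _ hx hy => exact fun a => by rw [smul_add]; exact hadd _ _ (hx a) (hy a)
    | smul b x _ hx => exact fun a => by rw [smul_smul]; exact hx _
  simpa using this 1

omit [Module k P] in
/-- The cover is injective. -/
theorem cover_inj [Module.Projective A P] {Λ : Type} [Fintype Λ] [DecidableEq Λ] (u : Λ → A)
    (v : Λ → P) (hu : ∀ x, u x * u x = u x) (huv : ∀ x, u x • v x = v x)
    (hsur : ∀ y : P, ∃ f : Λ → A, ∑ x, f x • v x = y)
    (h1 : ∀ f : Λ → A, (∀ x, f x * u x = f x) → ∑ x, f x • v x = 0 → ∀ x, High 𝒜 1 (f x))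
    (f : Λ → A) (hf : ∀ x, f x * u x = f x) (h0 : ∑ x, f x • v x = 0) : f = 0 := by
  let φ : (Λ → A) →ₗ[A] P := Fintype.linearCombination A v
  have hφ : ∀ g, φ g = ∑ x, g x • v x := fun g => Fintype.linearCombination_apply A v g
  obtain ⟨σ, hσ⟩ := Module.projective_lifting_property φ LinearMap.id
    (fun y => (hsur y).imp fun g hg => (hφ g).trans hg)
  have hσ' : ∀ y, ∑ x, σ y x • v x = y := fun y => (hφ _).symm.trans (LinearMap.congr_fun hσ y)
  let g : Λ → Λ → A := fun x y => Pi.single (M := fun _ => A) x (u x) y - σ (v x) y * u y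
  have hg : ∀ x y, High 𝒜 1 (g x y) := fun x => by
    refine h1 (g x) (fun y => ?_) ?_
    · simp only [g, sub_mul, mul_assoc, hu]
      by_cases h : y = x
      · subst h; simp [hu]
      · simp [h]
    · simp only [g, sub_smul, mul_smul, huv, Finset.sum_sub_distrib, hσ']
      rw [Finset.sum_eq_single x (fun y _ h => by simp [h]) (by simp)]
      simp [huv]
  have hrep : ∀ y, f y = ∑ x, f x * g x y := fun y => by
    have h2 : ∑ x, f x * σ (v x) y = 0 := by
      have := congrFun (congrArg σ h0) y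
      simpa [map_sum, Finset.sum_apply] using this
    simp only [g, mul_sub, Finset.sum_sub_distrib, ← mul_assoc, ← Finset.sum_mul, h2]
    rw [Finset.sum_eq_single y (fun x _ h => by simp [h.symm]) (by simp)]
    simp [hf]
  have hn : ∀ n y, High 𝒜 n (f y) := fun n => by
    induction n with
    | zero => exact fun y j hj => absurd hj (by omega)
    | succ n ih =>
      intro y
      rw [hrep y]
      exact High.sum 𝒜 fun x => High.mul 𝒜 (ih x) (hg x y)
  funext y
  exact High.eq_zero 𝒜 fun n => hn n y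

end

end K1

open K1 in
theorem low_eq_bot (k : Type) [Field k] (A : Type) [Ring A] [Algebra k A]
    (𝒜 : ℕ → Submodule k A) [GradedAlgebra 𝒜]
    (P : Type) [AddCommGroup P] [Module k P] [Module A P] [IsScalarTower k A P]
    (ℳ : ℕ → Submodule k P) [DirectSum.Decomposition ℳ]
    [SetLike.GradedSMul 𝒜 ℳ] (δ : ℕ) (hgen : Submodule.span A (ℳ δ : Set P) = ⊤) :
    (∀ j, j < δ → ℳ j = ⊥) ∧ ∀ j, δ < j → ∀ x ∈ ℳ j,
      x ∈ (Submodule.span A {a : A | ∃ j, 0 < j ∧ a ∈ 𝒜 j}) • (⊤ : Submodule A P) := by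
  refine ⟨fun j hj => eq_bot_iff.2 fun x hx => ?_, fun j hj x hx => ?_⟩
  · have := ind_span hgen (R := fun y => (decompose ℳ y j : P) = 0) (by simp)
      (fun y z hy hz => by simp [hy, hz]) (fun a m hm => comp_smul_low 𝒜 ℳ hm hj a) x
    rwa [decompose_of_mem_same ℳ hx] at this
  · obtain ⟨i, rfl⟩ := Nat.exists_eq_add_of_le hj.le
    have := ind_span hgen (R := fun y => (decompose ℳ y (δ + i) : P) ∈
        (Submodule.span A {a : A | ∃ j, 0 < j ∧ a ∈ 𝒜 j}) • (⊤ : Submodule A P)) (by simp)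
      (fun y z hy hz => by
        rw [decompose_add, DirectSum.add_apply, Submodule.coe_add]
        exact Submodule.add_mem _ hy hz)
      (fun a m hm => by
        rw [comp_smul 𝒜 ℳ hm]
        exact Submodule.smul_mem_smul
          (Submodule.subset_span ⟨i, by omega, (decompose 𝒜 a i).2⟩) Submodule.mem_top) x
    rwa [decompose_of_mem_same ℳ hx] at this

open K1 in
theorem finrank_projective (k : Type) [Field k] (A : Type) [Ring A] [Algebra k A]
    [FiniteDimensional k A] (𝒜 : ℕ → Submodule k A) [GradedAlgebra 𝒜]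
    (ι : Type) [Fintype ι] (e : ι → A) (he : CompleteOrthogonalIdempotents e)
    (h0 : 𝒜 0 = Submodule.span k (Set.range e))
    (P : Type) [AddCommGroup P] [Module k P] [Module A P] [IsScalarTower k A P]
    [Module.Projective A P] (ℳ : ℕ → Submodule k P) [DirectSum.Decomposition ℳ]
    [SetLike.GradedSMul 𝒜 ℳ] (δ : ℕ) (hgen : Submodule.span A (ℳ δ : Set P) = ⊤)
    (hfin : FiniteDimensional k (ℳ δ)) :
    FiniteDimensional k P ∧
    ∀ i j, Module.finrank k ((ℳ (δ + j)).map (Algebra.lsmul k k P (e i)))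
      = ∑ l, Module.finrank k
          ((𝒜 j).map (LinearMap.mulLeft k (e i) ∘ₗ LinearMap.mulRight k (e l))) *
        Module.finrank k ((ℳ δ).map (Algebra.lsmul k k P (e l))) := by
  classical
  let V : ι → Submodule k P := fun l => (ℳ δ).map (Algebra.lsmul k k P (e l))
  let b := fun l => Module.finBasis k (V l)
  let Λ := Σ l, Fin (Module.finrank k (V l))
  let v : Λ → P := fun x => b x.1 x.2
  have hee : ∀ l, e l * e l = e l := fun l => (he.idem l).eq
  have he0 : ∀ l, e l ∈ 𝒜 0 := fun l => h0 ▸ Submodule.subset_span ⟨l, rfl⟩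
  have hV : ∀ l, ∀ y ∈ V l, y ∈ ℳ δ ∧ e l • y = y := by
    rintro l _ ⟨m, hm, rfl⟩
    exact ⟨smul_mem 𝒜 ℳ (he0 l) hm, by
      change e l • e l • m = e l • m
      rw [smul_smul, hee]⟩
  have hvM : ∀ x, v x ∈ ℳ δ := fun x => (hV _ _ (b x.1 x.2).2).1
  have hev : ∀ x : Λ, e x.1 • v x = v x := fun x => (hV _ _ (b x.1 x.2).2).2
  have hsur : ∀ y : P, ∃ f : Λ → A, ∑ x, f x • v x = y := by
    refine ind_span hgen ⟨0, by simp⟩ ?_ fun a m hm => ?_
    · rintro _ _ ⟨f, rfl⟩ ⟨g, rfl⟩
      exact ⟨f + g, by simp [add_smul, Finset.sum_add_distrib]⟩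
    · have h1 : ∀ l, ∃ c : Fin (Module.finrank k (V l)) → k,
          ∑ s, c s • v ⟨l, s⟩ = e l • m := fun l => by
        have := congrArg Subtype.val ((b l).sum_repr ⟨e l • m, m, hm, rfl⟩)
        rw [Submodule.coe_sum] at this
        exact ⟨_, this⟩
      choose c hc using h1
      refine ⟨fun x => c x.1 x.2 • a, ?_⟩
      rw [Fintype.sum_sigma]
      have h2 : ∀ l, ∑ s, (c l s • a) • v ⟨l, s⟩ = a • e l • m := fun l => by
        rw [← hc l, Finset.smul_sum]
        exact Finset.sum_congr rfl fun s _ => by rw [smul_assoc, smul_comm]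
      simp only [h2]
      rw [← Finset.smul_sum, ← Finset.sum_smul, he.complete, one_smul]
  have hinj := cover_inj 𝒜 (fun x : Λ => e x.1) v (fun x => hee _) hev hsur (by
    intro f hf hz
    have h1 : ∑ x, (decompose 𝒜 (f x) 0 : A) • v x = 0 := by
      rw [← comp_sum 𝒜 ℳ hvM, hz]
      simp
    have h2 : ∀ x : Λ, ∃ c : k, (decompose 𝒜 (f x) 0 : A) = c • e x.1 := fun x => by
      have h3 : (decompose 𝒜 (f x) 0 : A) = (decompose 𝒜 (f x) 0 : A) * e x.1 := by
        conv_lhs => rw [← hf x]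
        exact coe_decompose_mul_add_of_right_mem 𝒜 (i := 0) (he0 x.1)
      obtain ⟨c, hc⟩ := (Submodule.mem_span_range_iff_exists_fun k).1
        (h0 ▸ (decompose 𝒜 (f x) 0).2 : (decompose 𝒜 (f x) 0 : A) ∈ Submodule.span k (Set.range e))
      refine ⟨c x.1, ?_⟩
      rw [h3, ← hc, Finset.sum_mul, Finset.sum_eq_single x.1
        (fun l _ h => by rw [smul_mul_assoc, he.ortho h, smul_zero]) (by simp), smul_mul_assoc, hee]
    choose c hc using h2
    have h4 : ∀ l, ∑ s, c ⟨l, s⟩ • b l s = 0 := fun l => by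
      have h5 := congrArg (fun y => e l • y) h1
      simp only [hc, smul_assoc, Finset.smul_sum, smul_zero] at h5
      rw [Fintype.sum_sigma, Finset.sum_eq_single l (fun l' _ h =>
        Finset.sum_eq_zero fun s _ => by
          rw [smul_comm, smul_smul, he.ortho h.symm, zero_smul, smul_zero]) (by simp)] at h5
      apply Subtype.ext
      rw [Submodule.coe_sum, Submodule.coe_zero, ← h5]
      refine Finset.sum_congr rfl fun s _ => ?_
      rw [smul_comm, smul_smul (e l), hee, hev ⟨l, s⟩]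
      rfl
    intro x j hj
    obtain rfl : j = 0 := by omega
    apply Subtype.ext
    rw [hc, Fintype.linearIndependent_iff.1 (b x.1).linearIndependent _ (h4 x.1) x.2]
    simp)
  refine ⟨Module.Finite.of_surjective ((Fintype.linearCombination A v).restrictScalars k)
    fun y => (hsur y).imp fun g hg => (Fintype.linearCombination_apply A v g).trans hg,
    fun i j => ?_⟩
  let W : ι → Submodule k A := fun l =>
    (𝒜 j).map (LinearMap.mulLeft k (e i) ∘ₗ LinearMap.mulRight k (e l))
  let Ψ : ((x : Λ) → W x.1) →ₗ[k] P :=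
    { toFun := fun w => ∑ x, (w x : A) • v x
      map_add' := fun w w' => by simp [add_smul, Finset.sum_add_distrib]
      map_smul' := fun c w => by simp [Finset.smul_sum] }
  have hΨ : Function.Injective Ψ := by
    refine (injective_iff_map_eq_zero Ψ).2 fun w hw => ?_
    have := hinj (fun x => w x) (fun x => by
      obtain ⟨a, -, ha⟩ := (w x).2
      rw [← ha]
      simp [mul_assoc, hee]) hw
    funext x
    exact Subtype.ext (congrFun this x)
  have hr : LinearMap.range Ψ = (ℳ (δ + j)).map (Algebra.lsmul k k P (e i)) := by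
    apply le_antisymm
    · rintro _ ⟨w, rfl⟩
      refine Submodule.sum_mem _ fun x _ => ?_
      obtain ⟨a, ha, h⟩ := (w x).2
      refine ⟨a • v x, smul_mem 𝒜 ℳ ha (hvM x), ?_⟩
      rw [← h]
      simp [mul_smul, hev]
    · rintro _ ⟨y, hy, rfl⟩
      obtain ⟨f, hf⟩ := hsur y
      refine ⟨fun x => ⟨_, decompose 𝒜 (f x) j, (decompose 𝒜 (f x) j).2, rfl⟩, ?_⟩
      have h1 : ∑ x, (decompose 𝒜 (f x) j : A) • v x = y := by
        rw [← comp_sum 𝒜 ℳ hvM, hf, decompose_of_mem_same ℳ hy]
      change ∑ x, (e i * ((decompose 𝒜 (f x) j : A) * e x.1)) • v x = e i • y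
      rw [← h1, Finset.smul_sum]
      exact Finset.sum_congr rfl fun x _ => by rw [mul_smul, mul_smul, hev]
  rw [← hr, LinearMap.finrank_range_of_inj hΨ, Module.finrank_pi_fintype, Fintype.sum_sigma]
  refine Finset.sum_congr rfl fun l _ => ?_
  change ∑ _s : Fin (Module.finrank k (V l)), Module.finrank k (W l) = _
  rw [Finset.sum_const, Finset.card_univ, Fintype.card_fin, smul_eq_mul]
  exact mul_comm _ _

end Pool.Agent.MP_92f1cb_al.H14
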