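import Pool.Agent.MP_92f1cb_al.H14.K1

set_option autoImplicit false

namespace Pool.Agent.MP_92f1cb_al.H14

open Polynomial

namespace K2

open Module Finset

theorem fr_map {k P Q : Type} [Field k] [AddCommGroup P] [Module k P] [AddCommGroup Q]
    [Module k Q] [FiniteDimensional k P] (f : P →ₗ[k] Q) (V : Submodule k P) :
    finrank k V = finrank k (V.map f) + finrank k ↥(V ⊓ LinearMap.ker f) := by
  rw [← (f.domRestrict V).finrank_range_add_finrank_ker, LinearMap.range_domRestrict,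
    LinearMap.ker_domRestrict, ← Submodule.map_comap_subtype, Submodule.finrank_map_subtype_eq]

theorem euler {k : Type} [Field k] (P : ℕ → Type) [∀ n, AddCommGroup (P n)]
    [∀ n, Module k (P n)] [∀ n, FiniteDimensional k (P n)] (V : ∀ n, Submodule k (P n))
    (f : ∀ n, P (n + 1) →ₗ[k] P n) (h0 : (V 1).map (f 0) = V 0)
    (hs : ∀ n, (V (n + 2)).map (f (n + 1)) = V (n + 1) ⊓ LinearMap.ker (f n)) (N : ℕ) :
    ∑ n ∈ range (N + 1), (-1 : ℤ) ^ n * finrank k (V n) =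
      (-1) ^ N * finrank k ((V (N + 1)).map (f N)) := by
  induction N with
  | zero => rw [show (V (0 + 1)).map (f 0) = V 0 from h0]; simp
  | succ N ih =>
    rw [sum_range_succ, ih, fr_map (f N) (V (N + 1)), hs]
    push_cast
    ring

theorem coeff_zero {ι : Type} [Fintype ι] [DecidableEq ι] (C : Matrix ι ι ℤ[X])
    (hdet : C.det = 1) : ∃ D : ℕ, ∀ (U : ι → ℤ[X]) (a j : ℕ), D + a < j →
      (∀ i b, a < b → b ≤ j → (C.mulVec U i).coeff b = 0) → ∀ l, (U l).coeff j = 0 := by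
  obtain ⟨B, hB⟩ : ∃ B : Matrix ι ι ℤ[X], B * C = 1 :=
    ⟨C.adjugate, by rw [Matrix.adjugate_mul, hdet, one_smul]⟩
  refine ⟨univ.sup fun p : ι × ι => (B p.1 p.2).natDegree, fun U a j hj h l => ?_⟩
  have h1 : U l = ∑ i, B l i * C.mulVec U i :=
    congrFun (by rw [Matrix.mulVec_mulVec, hB, Matrix.one_mulVec] : U = B.mulVec (C.mulVec U)) l
  rw [h1, finsetSum_coeff]
  refine sum_eq_zero fun i _ => ?_
  rw [coeff_mul]
  refine sum_eq_zero fun p hp => ?_
  have h2 := mem_antidiagonal.1 hp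
  have h3 : (B l i).natDegree ≤ _ :=
    le_sup (f := fun p : ι × ι => (B p.1 p.2).natDegree) (mem_univ (l, i))
  by_cases h4 : (B l i).natDegree < p.1
  · rw [coeff_eq_zero_of_natDegree_lt h4, zero_mul]
  · rw [h i p.2 (by omega) (by omega), mul_zero]

variable {k : Type} [Field k] {A : Type} [Ring A] [Algebra k A]
  {P Q : Type} [AddCommGroup P] [Module k P] [Module A P] [IsScalarTower k A P]
  [AddCommGroup Q] [Module k Q] [Module A Q] [IsScalarTower k A Q]

omit [Algebra k A] [IsScalarTower k A P] [IsScalarTower k A Q] in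
open DirectSum in
theorem dec_map (ℳ : ℕ → Submodule k P) [Decomposition ℳ] (𝒩 : ℕ → Submodule k Q)
    [Decomposition 𝒩] (d : P →ₗ[A] Q) (hd : ∀ j, ∀ x ∈ ℳ j, d x ∈ 𝒩 j) (j : ℕ) (y : P) :
    (decompose 𝒩 (d y) j : Q) = d (decompose ℳ y j) := by
  induction y using Decomposition.inductionOn ℳ with
  | zero => simp
  | @homogeneous i m =>
    by_cases h : i = j
    · subst h
      rw [decompose_of_mem_same 𝒩 (hd _ _ m.2), decompose_of_mem_same ℳ m.2]
    · rw [decompose_of_mem_ne 𝒩 (hd _ _ m.2) h, decompose_of_mem_ne ℳ m.2 h, map_zero]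
  | add a b ha hb => simp [ha, hb]

omit [Algebra k A] [IsScalarTower k A P] [IsScalarTower k A Q] in
open DirectSum in
theorem lift_deg (ℳ : ℕ → Submodule k P) [Decomposition ℳ] (𝒩 : ℕ → Submodule k Q)
    [Decomposition 𝒩] (d : P →ₗ[A] Q) (hd : ∀ j, ∀ x ∈ ℳ j, d x ∈ 𝒩 j) {j : ℕ} {x : Q}
    (hx : x ∈ 𝒩 j) (h : x ∈ Set.range d) : ∃ y ∈ ℳ j, d y = x := by
  obtain ⟨y, rfl⟩ := h
  exact ⟨_, (decompose ℳ y j).2, by rw [← dec_map ℳ 𝒩 d hd, decompose_of_mem_same 𝒩 hx]⟩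

theorem fin_of {R : Type} [AddCommGroup R] [Module k R] [Module A R] [IsScalarTower k A R]
    [FiniteDimensional k R] (V : Submodule k Q) (g : Q →ₗ[A] R)
    (h : ∀ x ∈ V, g x = 0 → x = 0) : FiniteDimensional k V :=
  FiniteDimensional.of_injective ((g.restrictScalars k).domRestrict V)
    ((injective_iff_map_eq_zero _).2 fun x hx => Subtype.ext (h x x.2 hx))

omit [Module k P] [IsScalarTower k A P] in
theorem kill (𝒜 : ℕ → Submodule k A) [GradedAlgebra 𝒜]
    (ε : P →ₗ[A] A ⧸ (Submodule.span A {a : A | ∃ j, 0 < j ∧ a ∈ 𝒜 j})) (x : P)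
    (hx : x ∈ (Submodule.span A {a : A | ∃ j, 0 < j ∧ a ∈ 𝒜 j}) • (⊤ : Submodule A P)) :
    ε x = 0 := by
  refine Submodule.smul_induction_on hx (fun a ha y _ => ?_) fun a b ha hb => by
    rw [map_add, ha, hb, add_zero]
  obtain ⟨b, hb⟩ := Submodule.Quotient.mk_surjective _ (ε y)
  rw [map_smul, ← hb, ← Submodule.Quotient.mk_smul, Submodule.Quotient.mk_eq_zero, smul_eq_mul]
  induction ha using Submodule.span_induction with
  | mem a ha =>
    obtain ⟨j, hj, ha⟩ := ha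
    clear hb
    induction b using DirectSum.Decomposition.inductionOn 𝒜 with
    | zero => simp
    | @homogeneous i m =>
      exact Submodule.subset_span ⟨j + i, by omega, SetLike.mul_mem_graded ha m.2⟩
    | add b c hb hc => rw [mul_add]; exact Submodule.add_mem _ hb hc
  | zero => simp
  | add a a' _ _ h h' => rw [add_mul]; exact Submodule.add_mem _ h h'
  | smul c a _ h => rw [smul_eq_mul, mul_assoc]; exact Submodule.smul_mem _ c h

theorem map_corner (V : Submodule k P) (W : Submodule k Q) (d : P →ₗ[A] Q) (u : A)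
    (hu : u * u = u) (K : Submodule k Q) (hW : ∀ x ∈ W, u • x ∈ W) (hd : ∀ x ∈ V, d x ∈ W)
    (hK : ∀ x, d x ∈ K) (hs : ∀ x ∈ W, x ∈ K → ∃ y ∈ V, d y = x) :
    (V.map (Algebra.lsmul k k P u)).map (d.restrictScalars k) =
      W.map (Algebra.lsmul k k Q u) ⊓ K := by
  ext z
  constructor
  · rintro ⟨_, ⟨y, hy, rfl⟩, rfl⟩
    exact ⟨⟨d y, hd y hy, (d.map_smul u y).symm⟩, hK _⟩
  · rintro ⟨⟨x, hx, rfl⟩, hz⟩
    obtain ⟨y, hy, h⟩ := hs _ (hW x hx) hz
    refine ⟨u • y, ⟨y, hy, rfl⟩, ?_⟩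
    change d (u • y) = u • x
    rw [d.map_smul, h, smul_smul, hu]

end K2

open K2 Finset in
theorem eventually_zero (k : Type) [Field k] (A : Type) [Ring A] [Algebra k A]
    [FiniteDimensional k A] (𝒜 : ℕ → Submodule k A) [GradedAlgebra 𝒜]
    (ι : Type) [Fintype ι] [DecidableEq ι] (e : ι → A) (he : CompleteOrthogonalIdempotents e)
    (h0 : 𝒜 0 = Submodule.span k (Set.range e))
    (C : Matrix ι ι ℤ[X])
    (hC : ∀ i j d, (C i j).coeff d = (Module.finrank k
      ((𝒜 d).map (LinearMap.mulLeft k (e i) ∘ₗ LinearMap.mulRight k (e j))) : ℤ))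
    (hdet : C.det = 1) (δ : ℕ → ℕ) (hδ : StrictMono δ)
    (P : ℕ → Type) [∀ n, AddCommGroup (P n)] [∀ n, Module k (P n)] [∀ n, Module A (P n)]
    [∀ n, IsScalarTower k A (P n)] [∀ n, Module.Projective A (P n)]
    (ℳ : ∀ n, ℕ → Submodule k (P n)) [∀ n, DirectSum.Decomposition (ℳ n)]
    [∀ n, SetLike.GradedSMul 𝒜 (ℳ n)]
    (hgen : ∀ n, Submodule.span A (ℳ n (δ n) : Set (P n)) = ⊤)
    (d : ∀ n, P (n + 1) →ₗ[A] P n) (hd : ∀ n j, ∀ x ∈ ℳ (n + 1) j, d n x ∈ ℳ n j)
    (hex : ∀ n, Function.Exact (d (n + 1)) (d n))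
    (ε : P 0 →ₗ[A] A ⧸ (Submodule.span A {a : A | ∃ j, 0 < j ∧ a ∈ 𝒜 j}))
    (hε : Function.Exact (d 0) ε) :
    ∃ n₀, ∀ n, n₀ < n → Subsingleton (P n) := by
  have low := fun n => low_eq_bot k A 𝒜 (P n) (ℳ n) (δ n) (hgen n)
  have inj : ∀ n, ∀ x ∈ ℳ n (δ n), x ∈ Set.range (d n) → x = 0 := fun n x hx h => by
    obtain ⟨y, hy, rfl⟩ := lift_deg _ _ (d n) (hd n) hx h
    rw [(low (n + 1)).1 _ (hδ n.lt_succ_self), Submodule.mem_bot] at hy
    rw [hy, map_zero]
  have proj := fun n => finrank_projective k A 𝒜 ι e he h0 (P n) (ℳ n) (δ n) (hgen n)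
  have fin : ∀ n, FiniteDimensional k (ℳ n (δ n)) := fun n => by
    induction n with
    | zero => exact fin_of _ ε fun x hx h => inj 0 x hx ((hε x).1 h)
    | succ n ih =>
      have := (proj n ih).1
      exact fin_of _ (d n) fun x hx h => inj _ x hx ((hex n x).1 h)
  have finP := fun n => (proj n (fin n)).1
  have hW : ∀ n i j, ∀ x ∈ ℳ n j, e i • x ∈ ℳ n j := fun n i j x hx => by
    have h1 : e i ∈ 𝒜 0 := h0 ▸ Submodule.subset_span ⟨i, rfl⟩
    simpa using SetLike.GradedSMul.smul_mem h1 hx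
  have eul : ∀ i j N, δ 0 < j → j ≤ N → ∑ n ∈ range (N + 1), (-1 : ℤ) ^ n *
      Module.finrank k ((ℳ n j).map (Algebra.lsmul k k (P n) (e i))) = 0 := by
    intro i j N h1 h2
    rw [euler P (fun n => (ℳ n j).map (Algebra.lsmul k k (P n) (e i)))
      (fun n => (d n).restrictScalars k) ?_ ?_ N,
      (low (N + 1)).1 j (lt_of_lt_of_le (by omega) (hδ.le_apply (x := N + 1)))]
    · simp
    · rw [map_corner _ _ (d 0) _ (he.idem i) ⊤ (hW 0 i j) (hd 0 j) (fun _ => trivial)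
        fun x hx _ => lift_deg _ _ _ (hd 0) hx ((hε x).1 (kill 𝒜 ε x ((low 0).2 j h1 x hx))),
        inf_top_eq]
    · exact fun n => map_corner _ _ (d (n + 1)) _ (he.idem i) _ (hW _ i j) (hd _ j)
        (fun x => (hex n).apply_apply_eq_zero x)
        fun x hx h => lift_deg _ _ _ (hd _) hx ((hex n x).1 h)
  obtain ⟨D, hD⟩ := coeff_zero C hdet
  refine ⟨D + δ 0, fun n hn => ?_⟩
  have hn' : n ≤ δ n := hδ.le_apply
  have h1 := hD (fun l => ∑ m ∈ range (δ n + 1), Polynomial.C ((-1 : ℤ) ^ m *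
    Module.finrank k ((ℳ m (δ m)).map (Algebra.lsmul k k (P m) (e l)))) * X ^ δ m) (δ 0) (δ n)
    (by omega) fun i b hb hb' => by
      rw [← eul i b (δ n) hb hb']
      simp only [Matrix.mulVec, dotProduct, mul_sum, finsetSum_coeff, ← mul_assoc,
        coeff_mul_X_pow', coeff_mul_C]
      rw [sum_comm]
      refine sum_congr rfl fun m _ => ?_
      by_cases h : δ m ≤ b
      · obtain ⟨c, rfl⟩ := Nat.exists_eq_add_of_le h
        simp only [if_pos h, (proj m (fin m)).2, hC, Nat.add_sub_cancel_left, Nat.cast_sum,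
          Nat.cast_mul, mul_sum]
        exact sum_congr rfl fun l _ => by ring
      · simp [h, (low m).1 b (not_le.1 h)]
  have h2 : ∀ l, (ℳ n (δ n)).map (Algebra.lsmul k k (P n) (e l)) = ⊥ := fun l => by
    have h3 := h1 l
    simp only [finsetSum_coeff, coeff_C_mul_X_pow, hδ.injective.eq_iff, sum_ite_eq, mem_range,
      if_pos (Nat.lt_succ_of_le hn')] at h3
    simpa using h3
  have h3 : ∀ x ∈ ℳ n (δ n), x = 0 := fun x hx => by
    rw [← one_smul A x, ← he.complete, sum_smul]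
    exact sum_eq_zero fun l _ => (Submodule.mem_bot k).1 (h2 l ▸ ⟨x, hx, rfl⟩)
  refine subsingleton_of_forall_eq 0 fun x => ?_
  have h4 : x ∈ Submodule.span A (ℳ n (δ n) : Set (P n)) := hgen n ▸ Submodule.mem_top
  rwa [Submodule.span_eq_bot.2 h3, Submodule.mem_bot] at h4

end Pool.Agent.MP_92f1cb_al.H14
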