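import Pool.Agent.MP_92f1cb_al.H14.Defs

set_option autoImplicit false

namespace Pool.Agent.MP_92f1cb_al.H14

open CategoryTheory

namespace K3

theorem lt_zero {A : Type} [Ring A] (N : Type) [AddCommGroup N] [Module A N] [Subsingleton N]
    (n : ℕ) : HasProjectiveDimensionLT (ModuleCat.of A N) n := by
  have := (ModuleCat.isZero_of_subsingleton (ModuleCat.of A N)).hasProjectiveDimensionLT_zero
  exact hasProjectiveDimensionLT_of_ge _ 0 n (Nat.zero_le n)

theorem res {A : Type} [Ring A] (n : ℕ) :
    ∀ (P : ℕ → Type) [∀ n, AddCommGroup (P n)] [∀ n, Module A (P n)]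
    [∀ n, Module.Projective A (P n)] (d : ∀ n, P (n + 1) →ₗ[A] P n),
    (∀ n, Function.Exact (d (n + 1)) (d n)) →
    ∀ (N : Type) [AddCommGroup N] [Module A N] (ε : P 0 →ₗ[A] N), Function.Exact (d 0) ε →
    Function.Surjective ε → (∀ m, n ≤ m → Subsingleton (P m)) →
    HasProjectiveDimensionLT (ModuleCat.of A N) n := by
  induction n with
  | zero =>
    intro P _ _ _ d _ N _ _ ε _ hs hz
    have := hz 0 le_rfl
    have := hs.subsingleton
    exact lt_zero N 0
  | succ n ih =>
    intro P _ _ _ d hex N _ _ ε hε hs hz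
    have hmem : ∀ x, d 0 x ∈ LinearMap.ker ε := fun x => (hε _).2 ⟨x, rfl⟩
    have h1 : HasProjectiveDimensionLT (ModuleCat.of A (LinearMap.ker ε)) n := by
      refine ih (fun m => P (m + 1)) (fun m => d (m + 1)) (fun m => hex (m + 1)) _
        ((d 0).codRestrict _ hmem) (fun x => ?_) (fun y => ?_) (fun m hm => hz _ (by omega))
      · rw [← hex 0 x, ← Subtype.coe_inj]
        rfl
      · obtain ⟨x, hx⟩ := (hε y.1).1 y.2
        exact ⟨x, Subtype.ext hx⟩
    have h2 : HasProjectiveDimensionLT (ModuleCat.of A (P 0)) (n + 1) :=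
      hasProjectiveDimensionLT_of_ge _ 1 (n + 1) (by omega)
    exact (LinearMap.shortExact_shortComplexKer hs).hasProjectiveDimensionLT_X₃ n h1 h2

theorem exact_finsupp {A X U V W : Type} [Ring A] [AddCommGroup U] [AddCommGroup V]
    [AddCommGroup W] [Module A U] [Module A V] [Module A W] (f : U →ₗ[A] V) (g : V →ₗ[A] W)
    (h : Function.Exact f g) :
    Function.Exact (Finsupp.mapRange.linearMap (α := X) f) (Finsupp.mapRange.linearMap g) := by
  classical
  intro y
  constructor
  · intro hy
    have h1 : ∀ x, ∃ u, f u = y x := fun x => (h (y x)).1 (by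
      have := congrArg (fun z => z x) hy
      simpa using this)
    choose u hu using h1
    refine ⟨∑ x ∈ y.support, Finsupp.single x (u x), ?_⟩
    rw [map_sum]
    simp only [Finsupp.mapRange.linearMap_apply, Finsupp.mapRange_single, hu]
    exact y.sum_single
  · rintro ⟨u, rfl⟩
    ext x
    simpa using h.apply_apply_eq_zero (u x)

theorem proj_finsupp {A : Type} (X U : Type) [Ring A] [AddCommGroup U] [Module A U]
    [Module.Projective A U] : Module.Projective A (X →₀ U) := by
  classical
  exact Module.Projective.of_equiv (finsuppLequivDFinsupp A (ι := X) (M := U)).symm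

section Gr

variable {k : Type} [Field k] {A : Type} [Ring A] [Algebra k A] (𝒜 : ℕ → Submodule k A)
  [GradedAlgebra 𝒜]

/-- The elements of degree at least `r` act by zero. -/
def Kill (r : ℕ) (M : Type) [AddCommGroup M] [Module A M] : Prop :=
  ∀ j, r ≤ j → ∀ a ∈ 𝒜 j, ∀ m : M, a • m = 0

theorem kill_mul {r : ℕ} {M : Type} [AddCommGroup M] [Module A M] (h : Kill 𝒜 (r + 1) M)
    {j l : ℕ} (hj : r ≤ j) (hl : 0 < l) {b a : A} (hb : b ∈ 𝒜 j) (ha : a ∈ 𝒜 l) (m : M) (x : A) :
    b • x • a • m = 0 := by
  induction x using DirectSum.Decomposition.inductionOn 𝒜 with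
  | zero => simp
  | @homogeneous i x =>
    rw [smul_smul, smul_smul]
    exact h (j + i + l) (by omega) _
      (SetLike.mul_mem_graded (SetLike.mul_mem_graded hb x.2) ha) m
  | add x y hx hy => rw [add_smul, smul_add, hx, hy, add_zero]

theorem kill_quot :
    Kill 𝒜 1 (A ⧸ (Submodule.span A {a : A | ∃ j, 0 < j ∧ a ∈ 𝒜 j})) := by
  intro j hj a ha m
  obtain ⟨x, rfl⟩ := Submodule.Quotient.mk_surjective _ m
  rw [← Submodule.Quotient.mk_smul, Submodule.Quotient.mk_eq_zero, smul_eq_mul]
  induction x using DirectSum.Decomposition.inductionOn 𝒜 with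
  | zero => simp
  | @homogeneous i x =>
    exact Submodule.subset_span ⟨j + i, by omega, SetLike.mul_mem_graded ha x.2⟩
  | add x y hx hy =>
    rw [mul_add]
    exact Submodule.add_mem _ hx hy

/-- A surjection between modules killed by the positive part splits. -/
theorem split {ι : Type} [Fintype ι] (e : ι → A) (he : CompleteOrthogonalIdempotents e)
    (h0 : 𝒜 0 = Submodule.span k (Set.range e)) {F M : Type} [AddCommGroup F] [Module A F]
    [AddCommGroup M] [Module A M] (hF : Kill 𝒜 1 F) (hM : Kill 𝒜 1 M) (π : F →ₗ[A] M)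
    (hπ : Function.Surjective π) : ∃ s : M →ₗ[A] F, ∀ m, π (s m) = m := by
  classical
  let _ : Module k F := Module.compHom F (algebraMap k A)
  let _ : Module k M := Module.compHom M (algebraMap k A)
  have : IsScalarTower k A F := IsScalarTower.of_algebraMap_smul fun _ _ => rfl
  have : IsScalarTower k A M := IsScalarTower.of_algebraMap_smul fun _ _ => rfl
  obtain ⟨s₀, hs₀⟩ := (π.restrictScalars k).exists_rightInverse_of_surjective
    (LinearMap.range_eq_top.2 hπ)
  have hs : ∀ m, π (s₀ m) = m := fun m => LinearMap.congr_fun hs₀ m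
  let s : M →+ F :=
    { toFun := fun m => ∑ i, e i • s₀ (e i • m)
      map_zero' := by simp
      map_add' := fun a b => by simp [Finset.sum_add_distrib] }
  have hs' : ∀ m, s m = ∑ i, e i • s₀ (e i • m) := fun _ => rfl
  have h1 : ∀ a ∈ Submodule.span k (Set.range e), ∀ m, s (a • m) = a • s m := by
    intro a ha m
    induction ha using Submodule.span_induction with
    | mem a ha =>
      obtain ⟨j, rfl⟩ := ha
      rw [hs', hs', Finset.smul_sum, Finset.sum_eq_single j, Finset.sum_eq_single j]
      · rw [smul_smul, smul_smul, (he.idem j).eq]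
      · intro i _ hi
        rw [smul_smul, he.ortho hi.symm, zero_smul]
      · simp
      · intro i _ hi
        rw [smul_smul, he.ortho hi, zero_smul, map_zero, smul_zero]
      · simp
    | zero => simp
    | add a b _ _ ha hb => rw [add_smul, map_add, ha, hb, add_smul]
    | smul c a _ ha =>
      rw [smul_assoc, smul_assoc, ← ha, hs', hs', Finset.smul_sum]
      refine Finset.sum_congr rfl fun i _ => ?_
      rw [smul_comm (e i) c, map_smul, smul_comm (e i) c]
  have h2 : ∀ (a : A) m, s (a • m) = a • s m := by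
    intro a m
    induction a using DirectSum.Decomposition.inductionOn 𝒜 with
    | zero => simp
    | @homogeneous i x =>
      rcases Nat.eq_zero_or_pos i with rfl | hi
      · exact h1 _ (h0 ▸ x.2) m
      · rw [hM i hi _ x.2, hF i hi _ x.2, map_zero]
    | add x y hx hy => rw [add_smul, map_add, hx, hy, add_smul]
  refine ⟨{ toFun := s, map_add' := s.map_add, map_smul' := h2 }, fun m => ?_⟩
  change π (s m) = m
  rw [hs', map_sum]
  simp only [map_smul, hs, smul_smul, fun i => (he.idem i).eq]
  rw [← Finset.sum_smul, he.complete, one_smul]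

theorem filt (n : ℕ) (h : ∀ (M : Type) [AddCommGroup M] [Module A M], Kill 𝒜 1 M →
      HasProjectiveDimensionLT (ModuleCat.of A M) n) (r : ℕ) :
    ∀ (M : Type) [AddCommGroup M] [Module A M], Kill 𝒜 (r + 1) M →
      HasProjectiveDimensionLT (ModuleCat.of A M) n := by
  induction r with
  | zero => exact h
  | succ r ih =>
    intro M _ _ hM
    let N : Submodule A M := Submodule.span A {y | ∃ l, 0 < l ∧ ∃ a ∈ 𝒜 l, ∃ m : M, y = a • m}
    have h3 : Kill 𝒜 1 (M ⧸ N) := by
      intro j hj a ha m
      obtain ⟨x, rfl⟩ := Submodule.Quotient.mk_surjective _ m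
      rw [← Submodule.Quotient.mk_smul, Submodule.Quotient.mk_eq_zero]
      exact Submodule.subset_span ⟨j, hj, a, ha, x, rfl⟩
    have h1 : Kill 𝒜 (r + 1) (LinearMap.ker N.mkQ) := by
      have key : ∀ j, r + 1 ≤ j → ∀ b ∈ 𝒜 j, ∀ y ∈ N, ∀ x : A, b • x • y = 0 := by
        intro j hj b hb y hy
        induction hy using Submodule.span_induction with
        | mem y hy =>
          obtain ⟨l, hl, a, ha, m, rfl⟩ := hy
          exact kill_mul 𝒜 hM hj hl hb ha m
        | zero => simp
        | add y z _ _ hy hz => intro x; rw [smul_add, smul_add, hy, hz, add_zero]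
        | smul c y _ hy => intro x; rw [smul_smul x, hy]
      intro j hj b hb y
      refine Subtype.ext ?_
      change b • y.1 = 0
      simpa using key j hj b hb y.1 (by simpa using y.2) 1
    exact (LinearMap.shortExact_shortComplexKer N.mkQ_surjective).hasProjectiveDimensionLT_X₂ n
      (ih _ h1) (h _ h3)

theorem top_deg [FiniteDimensional k A] : ∃ r, ∀ j, r + 1 ≤ j → 𝒜 j = ⊥ := by
  have hi := (DirectSum.Decomposition.isInternal 𝒜).submodule_iSupIndep
  have hf : {j | 𝒜 j ≠ ⊥}.Finite := WellFoundedGT.finite_ne_bot_of_iSupIndep hi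
  obtain ⟨r, hr⟩ := hf.bddAbove
  refine ⟨r, fun j hj => ?_⟩
  by_contra hc
  have := hr hc
  omega

end Gr

end K3

theorem pd_le_of_resolution (k : Type) [Field k] (A : Type) [Ring A] [Algebra k A]
    [FiniteDimensional k A] (𝒜 : ℕ → Submodule k A) [GradedAlgebra 𝒜]
    (ι : Type) [Fintype ι] (e : ι → A) (he : CompleteOrthogonalIdempotents e)
    (h0 : 𝒜 0 = Submodule.span k (Set.range e))
    (P : ℕ → Type) [∀ n, AddCommGroup (P n)] [∀ n, Module A (P n)]
    [∀ n, Module.Projective A (P n)]
    (d : ∀ n, P (n + 1) →ₗ[A] P n) (hex : ∀ n, Function.Exact (d (n + 1)) (d n))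
    (ε : P 0 →ₗ[A] A ⧸ (Submodule.span A {a : A | ∃ j, 0 < j ∧ a ∈ 𝒜 j}))
    (hε : Function.Exact (d 0) ε) (hsurj : Function.Surjective ε)
    (n₀ : ℕ) (hz : ∀ n, n₀ < n → Subsingleton (P n)) (M : ModuleCat.{0} A) :
    CategoryTheory.HasProjectiveDimensionLE M n₀ := by
  obtain ⟨r, hr⟩ := K3.top_deg 𝒜
  refine K3.filt 𝒜 (n₀ + 1) (fun N _ _ hN => ?_) r M (fun j hj a ha m => ?_)
  · let J : Submodule A A := Submodule.span A {a : A | ∃ j, 0 < j ∧ a ∈ 𝒜 j}
    have : ∀ n, Module.Projective A (N →₀ P n) := fun n => K3.proj_finsupp N (P n)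
    have hF : HasProjectiveDimensionLT (ModuleCat.of A (N →₀ A ⧸ J)) (n₀ + 1) :=
      K3.res (n₀ + 1) (fun n => N →₀ P n) (fun n => Finsupp.mapRange.linearMap (d n))
        (fun n => K3.exact_finsupp _ _ (hex n)) _ (Finsupp.mapRange.linearMap ε)
        (K3.exact_finsupp _ _ hε) (Finsupp.mapRange_surjective _ (map_zero ε) hsurj)
        (fun m hm => by have := hz m hm; infer_instance)
    have hJ : ∀ y : N, J ≤ LinearMap.ker (LinearMap.toSpanSingleton A N y) := fun y =>
      Submodule.span_le.2 fun a ⟨j, hj, ha⟩ => hN j hj a ha y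
    let π : (N →₀ A ⧸ J) →ₗ[A] N := Finsupp.lsum ℕ fun y => J.liftQ _ (hJ y)
    have hπ : Function.Surjective π := fun y =>
      ⟨Finsupp.single y (Submodule.Quotient.mk 1), by simp [π]⟩
    have hK : K3.Kill 𝒜 1 (N →₀ A ⧸ J) := by
      intro j hj a ha m
      ext y
      exact K3.kill_quot 𝒜 j hj a ha (m y)
    obtain ⟨s, hs⟩ := K3.split 𝒜 e he h0 hK hN π hπ
    let R : Retract (ModuleCat.of A N) (ModuleCat.of A (N →₀ A ⧸ J)) :=
      { i := ModuleCat.ofHom s
        r := ModuleCat.ofHom π
        retract := by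
          ext m
          exact hs m }
    exact R.hasProjectiveDimensionLT _
  · rw [hr j hj, Submodule.mem_bot] at ha
    rw [ha, zero_smul]

end Pool.Agent.MP_92f1cb_al.H14
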