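import Pool.Agent.MP_92f1cb_al.H14.Supp

set_option autoImplicit false

namespace Pool.Agent.MP_92f1cb_al.H14

variable {k A B ι : Type} [Field k] [Ring A] [Algebra k A] {N : ℕ}

/-- Sum over all sheets. -/
noncomputable def nu (k : Type) [Field k] (N : ℕ) (B : Type) : Module.End k (MM k N B) :=
  ∑ i ∈ Finset.range N, sh (i : ZMod N)

/-- The part on sheet zero. -/
noncomputable def rho (k : Type) [Field k] (N : ℕ) (B : Type) : Module.End k (MM k N B) :=
  mk fun p => if p.1 = 0 then ee p else 0

theorem sh_one_pow (j : ℕ) : (sh 1 : Module.End k (MM k N B)) ^ j = sh (j : ZMod N) := by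
  induction j with
  | zero => exact LinearMap.ext fun W => by simp [sh_zero]
  | succ j ih =>
    refine LinearMap.ext fun W => ?_
    rw [pow_succ', Module.End.mul_apply, ih, sh_sh, Nat.cast_succ]

theorem pow_pred_eq_nu [NeZero N]
    (hchar : (Polynomial.X - 1 : Polynomial k) ^ N = Polynomial.X ^ N - 1) :
    (sh 1 - 1 : Module.End k (MM k N B)) ^ (N - 1) = nu k N B := by
  have hN : N = N - 1 + 1 := by have := NeZero.pos N; omega
  have h1 : (Polynomial.X - 1 : Polynomial k) ^ (N - 1) =
      ∑ i ∈ Finset.range N, Polynomial.X ^ i := by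
    have h0 : (Polynomial.X - 1 : Polynomial k) ≠ 0 := by
      simpa using Polynomial.X_sub_C_ne_zero (1 : k)
    apply mul_left_cancel₀ h0
    rw [mul_geom_sum, ← pow_succ', ← hN, hchar]
  have h2 := congrArg (Polynomial.aeval (sh 1 : Module.End k (MM k N B))) h1
  simpa [map_sum, sh_one_pow, nu] using h2

theorem pow_eq_zero_sh
    (hchar : (Polynomial.X - 1 : Polynomial k) ^ N = Polynomial.X ^ N - 1) :
    (sh 1 - 1 : Module.End k (MM k N B)) ^ N = 0 := by
  have h2 := congrArg (Polynomial.aeval (sh 1 : Module.End k (MM k N B))) hchar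
  simp only [map_pow, map_sub, Polynomial.aeval_X, map_one, sh_one_pow, ZMod.natCast_self] at h2
  rw [h2]
  refine LinearMap.ext fun W => ?_
  simp [sh_zero]

theorem sh_one_nu (W : MM k N B) : sh 1 (nu k N B W) = nu k N B W := by
  have h := congrArg (fun φ : Module.End k (MM k N B) => φ W)
    (mul_geom_sum (sh 1 : Module.End k (MM k N B)) N)
  simp only [sh_one_pow, ZMod.natCast_self, Module.End.mul_apply, LinearMap.sub_apply,
    Module.End.one_apply, sh_zero, sub_self] at h
  exact sub_eq_zero.1 h

theorem sh_fix [NeZero N] {W : MM k N B} (h : sh 1 W = W) (d : ZMod N) : sh d W = W := by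
  rw [← ZMod.natCast_zmod_val d, ← sh_one_pow]
  induction d.val with
  | zero => simp
  | succ j ih => rw [pow_succ', Module.End.mul_apply, ih, h]

theorem nu_apply (W : MM k N B) : nu k N B W = ∑ i ∈ Finset.range N, sh (i : ZMod N) W := by
  rw [nu, LinearMap.sum_apply]

theorem nu_sh [NeZero N] (d : ZMod N) (W : MM k N B) : nu k N B (sh d W) = nu k N B W := by
  rw [← sh_fix (sh_one_nu W) d, nu_apply, nu_apply, map_sum]
  simp only [sh_sh, add_comm]

theorem sum_sh_rho [NeZero N] (W : MM k N B) :
    ∑ i ∈ Finset.range N, sh (i : ZMod N) (rho k N B (sh (-(i : ZMod N)) W)) = W := by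
  induction W using ee_ind with
  | hb c w =>
    rw [Finset.sum_eq_single c.val]
    · simp [sh_ee, rho]
    · intro i hi hne
      have : c + -(i : ZMod N) ≠ 0 := by
        intro h
        apply hne
        have h' : c = i := by linear_combination h
        rw [h', ZMod.val_cast_of_lt (Finset.mem_range.1 hi)]
      simp [sh_ee, rho, this]
    · intro h
      exact absurd (Finset.mem_range.2 (ZMod.val_lt c)) h
  | h0 => simp
  | hadd x y hx hy => simp only [map_add, Finset.sum_add_distrib, hx, hy]
  | hsmul c x hx => simp only [map_smul, ← Finset.smul_sum, hx]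

theorem nu_rho [NeZero N] {W : MM k N B} (h : sh 1 W = W) : nu k N B (rho k N B W) = W := by
  conv_rhs => rw [← sum_sh_rho W]
  simp only [nu_apply, sh_fix h]

theorem rho_nu_ee [NeZero N] (w : List B) :
    rho k N B (nu k N B (ee (0, w))) = ee (0, w) := by
  rw [nu_apply, map_sum, Finset.sum_eq_single 0]
  · simp [sh_ee, rho]
  · intro i hi hne
    have : (i : ZMod N) ≠ 0 := by
      rw [Ne, ZMod.natCast_eq_zero_iff]
      exact Nat.not_dvd_of_pos_of_lt (Nat.pos_of_ne_zero hne) (Finset.mem_range.1 hi)
    simp [sh_ee, rho, this]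
  · intro h
    exact absurd (Finset.mem_range.2 (NeZero.pos N)) h

variable (β : Module.Basis B k A)

theorem nu_bb (deg : B → ℕ) (W : MM k N B) :
    nu k N B (bb β deg W) = bb β deg (nu k N B W) := by
  simp only [nu_apply, map_sum, sh_bb]

theorem nu_d0 (W : MM k N B) : nu k N B (d0 β W) = d0 β (nu k N B W) := by
  simp only [nu_apply, map_sum, sh_d0]

/-- A word in elements of the algebra, on sheet zero. -/
noncomputable def wd (N : ℕ) : List A → MM k N B
  | [] => ee (0, [])
  | a :: l => cons β a (wd N l)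

theorem wd_mem_LL (l : List A) : wd β N l ∈ LL k N B l.length := by
  induction l with
  | nil => exact ee_mem rfl
  | cons a l ih => exact cons_mem_LL β a ih

theorem wd_concat (l : List A) (a : A) : wd β N (l ++ [a]) = snoc β a (wd β N l) := by
  induction l with
  | nil => simp [wd, cons_nil_eq_snoc]
  | cons x l ih => rw [List.cons_append, wd, ih, wd, cons_snoc]

theorem om_wd (l : List A) : om (wd β N l) = (-1 : k) ^ l.length • wd β N l := by
  induction l with
  | nil => simp [wd, om_ee]
  | cons x l ih => rw [wd, om_cons, ih, map_smul, List.length_cons, pow_succ]; simp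

theorem wd_map_basis (w : List B) : wd β N (w.map β) = ee (0, w) := by
  induction w with
  | nil => rfl
  | cons x w ih => rw [List.map_cons, wd, ih, ← ee_cons]

theorem FF_wd (n : ℕ) (a : Fin (n + 1 + 1) → A) (i : Fin (n + 1)) :
    FF β i (wd β N (List.ofFn a)) = (-1 : k) ^ (i : ℕ) •
      wd β N (List.ofFn (Fin.contractNth i.castSucc (fun x y : A => x * y) a)) := by
  induction n with
  | zero =>
    obtain rfl : i = 0 := Fin.fin_one_eq_zero i
    simp [wd, FF_zero, d0_cons_cons, Fin.contractNth]
  | succ n ih =>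
    induction i using Fin.cases with
    | zero =>
      rw [List.ofFn_succ, List.ofFn_succ, List.ofFn_succ (f := Fin.contractNth _ _ _)]
      simp only [wd, Fin.val_zero, FF_zero, d0_cons_cons, pow_zero, one_smul]
      congr 2
    | succ i =>
      rw [List.ofFn_succ, List.ofFn_succ (f := Fin.contractNth _ _ _)]
      simp only [wd, Fin.val_succ, FF_succ_cons, ih, map_smul, pow_succ, mul_neg, mul_one,
        neg_smul]
      congr 5
      funext j
      simp only [Fin.contractNth, Fin.val_castSucc, Fin.val_succ, Nat.add_lt_add_iff_right,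
        Nat.add_right_cancel_iff, Fin.succ_castSucc]

theorem nu_TT_snoc [NeZero N] (deg : B → ℕ) (a : A) (W : MM k N B) :
    nu k N B (TT deg (snoc β a W)) = nu k N B (cons β a (om W)) := by
  induction a using basis_ind' β with
  | hb x => rw [TT_snoc_basis, nu_sh]
  | h0 => simp
  | hadd x y hx hy => simp only [map_add, LinearMap.add_apply, hx, hy]
  | hsmul c x hx => simp only [map_smul, LinearMap.smul_apply, hx]

theorem nu_last [NeZero N] (deg : B → ℕ) (n : ℕ) (a : Fin (n + 1 + 1) → A) :
    nu k N B (d0 β (TT deg (wd β N (List.ofFn a)))) = (-1 : k) ^ (n + 1) •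
      nu k N B (wd β N (List.ofFn (Fin.cons (a (Fin.last (n + 1)) * a 0)
        (fun j : Fin n => a j.succ.castSucc) : Fin (n + 1) → A))) := by
  rw [List.ofFn_succ' a, List.concat_eq_append, wd_concat, nu_d0, nu_TT_snoc, ← nu_d0, om_wd,
    List.length_ofFn, List.ofFn_succ, List.ofFn_succ]
  simp [wd, d0_cons_cons]

/-- Comparison with the tensor powers. -/
noncomputable def Phi (N n : ℕ) : PiTensorProduct k (fun _ : Fin n => A) →ₗ[k] MM k N B :=
  PiTensorProduct.lift (((LinearMap.applyₗ (ee (0, []) : MM k N B)).compMultilinearMap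
    (MultilinearMap.mkPiAlgebraFin k n (Module.End k (MM k N B)))).compLinearMap
      (fun _ => cons β))

theorem wd_eq_prod (l : List A) :
    wd β N l = (l.map fun a => (cons β a : Module.End k (MM k N B))).prod (ee (0, [])) := by
  induction l with
  | nil => rfl
  | cons a l ih => rw [wd, ih, List.map_cons, List.prod_cons, Module.End.mul_apply]

theorem Phi_tprod (n : ℕ) (a : Fin n → A) :
    Phi β N n (PiTensorProduct.tprod k a) = wd β N (List.ofFn a) := by
  rw [wd_eq_prod, List.map_ofFn]
  simp [Phi, Function.comp_def]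

theorem Phi_basis (n : ℕ) (f : Fin n → B) :
    Phi β N n (PiTensorProduct.tprod k fun i => β (f i)) = ee (0, List.ofFn f) := by
  rw [Phi_tprod, ← wd_map_basis β, List.map_ofFn]; rfl

theorem Phi_mem_LL (n : ℕ) (z : PiTensorProduct k (fun _ : Fin n => A)) :
    Phi β N n z ∈ LL k N B n := by
  induction z using PiTensorProduct.induction_on with
  | smul_tprod r a =>
    rw [map_smul, Phi_tprod]
    simpa using Submodule.smul_mem _ r (wd_mem_LL β (N := N) (List.ofFn a))
  | add x y hx hy => rw [map_add]; exact Submodule.add_mem _ hx hy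

theorem nu_Phi_injective [NeZero N] (n : ℕ) (z : PiTensorProduct k (fun _ : Fin n => A))
    (h : nu k N B (Phi β N n z) = 0) : z = 0 := by
  classical
  let Ψ : MM k N B →ₗ[k] PiTensorProduct k (fun _ : Fin n => A) :=
    Finsupp.linearCombination k fun p =>
      if h : p.2.length = n then PiTensorProduct.tprod k fun i : Fin n => β (p.2[i]'(by omega))
      else 0
  have key : Ψ ∘ₗ rho k N B ∘ₗ nu k N B ∘ₗ Phi β N n = LinearMap.id := by
    refine (Basis.piTensorProduct fun _ : Fin n => β).ext fun f => ?_
    rw [Basis.piTensorProduct_apply]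
    simp only [LinearMap.comp_apply, Phi_basis, rho_nu_ee, LinearMap.id_apply]
    simp [Ψ, ee]
  have := LinearMap.congr_fun key z
  simpa [h] using this.symm

theorem exists_Phi [NeZero N] {n : ℕ} {W : MM k N B} (hW : W ∈ LL k N B n) (h : sh 1 W = W) :
    ∃ z, nu k N B (Phi β N n z) = W := by
  have : rho k N B W ∈ LinearMap.range (Phi β N n) := by
    refine mem_of_supported _ _ _ (fun p hp => ?_) hW
    obtain ⟨c, w⟩ := p
    obtain rfl : w.length = n := hp
    by_cases hc : c = 0
    · subst hc
      exact ⟨_, by rw [Phi_basis β w.length (fun i => w.get i)]; simp [rho]⟩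
    · simp [rho, hc]
  obtain ⟨z, hz⟩ := this
  exact ⟨z, by rw [hz, nu_rho h]⟩

theorem nu_Phi_b [NeZero N] (deg : B → ℕ) (n : ℕ)
    (b : (PiTensorProduct k (fun _ : Fin (n + 1 + 1) => A)) →ₗ[k]
      (PiTensorProduct k (fun _ : Fin (n + 1) => A)))
    (hb : ∀ a : Fin (n + 1 + 1) → A,
      b (PiTensorProduct.tprod k a) =
        (∑ i : Fin (n + 1), (-1 : k) ^ (i : ℕ) • PiTensorProduct.tprod k
          (Fin.contractNth i.castSucc (fun x y : A => x * y) a)) +
        (-1 : k) ^ (n + 1) • PiTensorProduct.tprod k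
          ((Fin.cons (a (Fin.last (n + 1)) * a 0)
            (fun j : Fin n => a j.succ.castSucc) : Fin (n + 1) → A)))
    (z : PiTensorProduct k (fun _ : Fin (n + 1 + 1) => A)) :
    nu k N B (Phi β N (n + 1) (b z)) = bb β deg (nu k N B (Phi β N (n + 1 + 1) z)) := by
  induction z using PiTensorProduct.induction_on with
  | smul_tprod r a =>
    simp only [map_smul]
    congr 1
    rw [← nu_bb, bb_apply, bp_eq_sum (Phi_mem_LL β _ _), hb, Phi_tprod, map_add, map_add, map_add,
      nu_last, Finset.sum_range]
    simp only [FF_wd, map_sum, map_smul, Phi_tprod]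
  | add x y hx hy => simp only [map_add, hx, hy]

variable {β}

theorem lift_exact [NeZero N] {s t : B → ι} {deg : B → ℕ}
    (hmul : ∀ x y z, β.repr (β x * β y) z ≠ 0 →
      t x = s y ∧ s z = s x ∧ t z = t y ∧ deg z = deg x + deg y)
    (hchar : (Polynomial.X - 1 : Polynomial k) ^ N = Polynomial.X ^ N - 1) (n : ℕ)
    (base : ∀ W ∈ LL k N B n, sh 1 W = W → bb β deg W = 0 →
      ∃ v ∈ LL k N B (n + 1), bb β deg (nu k N B v) = W)
    {z : MM k N B} (hz : z ∈ LL k N B n) (h0 : bb β deg z = 0) :
    ∃ u ∈ LL k N B (n + 1), bb β deg u = z := by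
  have hdeg : ∀ x y z, β.repr (β x * β y) z ≠ 0 → deg z = deg x + deg y :=
    fun x y z h => (hmul x y z h).2.2.2
  set y : Module.End k (MM k N B) := sh 1 - 1 with hy
  have hyb : ∀ W, y (bb β deg W) = bb β deg (y W) := by
    intro W; simp [hy, sh_bb]
  have hyL : ∀ (j m : ℕ), ∀ W ∈ LL k N B m, (y ^ j) W ∈ LL k N B m := by
    intro j m W hW
    induction j with
    | zero => simpa using hW
    | succ j ih =>
      rw [pow_succ', Module.End.mul_apply]
      exact Submodule.sub_mem _ (sh_mem_LL 1 ih) ih
  have key : ∀ i j, j + i = N → ∀ w ∈ LL k N B n, bb β deg ((y ^ j) w) = 0 →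
      ∃ u ∈ LL k N B (n + 1), bb β deg ((y ^ j) u) = (y ^ j) w := by
    intro i
    induction i with
    | zero =>
      intro j hj w _ _
      obtain rfl : j = N := hj
      exact ⟨0, Submodule.zero_mem _, by rw [hy, pow_eq_zero_sh hchar]; simp⟩
    | succ i ih =>
      intro j hj w hw hb
      obtain ⟨u, hu, hbu⟩ := ih (j + 1) (by omega) w hw
        (by rw [pow_succ', Module.End.mul_apply, ← hyb, hb, map_zero])
      rw [pow_succ', Module.End.mul_apply, Module.End.mul_apply, ← hyb, ← sub_eq_zero,
        ← map_sub, ← neg_sub, map_neg, neg_eq_zero] at hbu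
      obtain ⟨v, hv, hbv⟩ := base ((y ^ j) w - bb β deg ((y ^ j) u))
        (Submodule.sub_mem _ (hyL j _ w hw) (bb_mem_LL hmul (hyL j _ u hu)))
        (by simpa [hy, sub_eq_zero] using hbu) (by rw [map_sub, hb, bb_bb hdeg, sub_zero])
      refine ⟨u + (y ^ i) v, Submodule.add_mem _ hu (hyL i _ v hv), ?_⟩
      rw [map_add, map_add, ← Module.End.mul_apply (y ^ j) (y ^ i), ← pow_add,
        show j + i = N - 1 by omega, hy, pow_pred_eq_nu hchar, hbv]
      abel
  simpa using key N 0 (by simp) z hz (by simpa using h0)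

end Pool.Agent.MP_92f1cb_al.H14
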