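import Pool.Agent.MP_92f1cb_al.H14.Defs

set_option autoImplicit false

namespace Pool.Agent.MP_92f1cb_al.H14

open Polynomial

namespace NT

/-- The polynomial with given inverse roots. -/
noncomputable def D (s : Multiset ℂ) : ℂ[X] := (s.map fun a => 1 - C a * X).prod

/-- The series of the power sums. -/
noncomputable def P (s : Multiset ℂ) : PowerSeries ℂ :=
  PowerSeries.mk fun n => if n = 0 then 0 else -(s.map fun a => a ^ n).sum

theorem P_cons (a : ℂ) (s : Multiset ℂ) : P (a ::ₘ s) = P s + P {a} := by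
  ext n
  simp only [P, map_add, PowerSeries.coeff_mk]
  split_ifs <;> simp

theorem P_single (a : ℂ) :
    (1 - PowerSeries.C a * PowerSeries.X) * P {a} = -(PowerSeries.C a * PowerSeries.X) := by
  ext n
  rw [sub_mul, one_mul, mul_assoc, map_sub, map_neg, PowerSeries.coeff_C_mul,
    PowerSeries.coeff_C_mul]
  rcases n with _ | _ | n
  · simp [P]
  · simp [P, PowerSeries.coeff_succ_X_mul]
  · simp [P, PowerSeries.coeff_succ_X_mul, PowerSeries.coeff_X, pow_succ']

theorem D_mul_P (s : Multiset ℂ) :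
    (D s : PowerSeries ℂ) * P s =
      PowerSeries.X * ((derivative (D s) : ℂ[X]) : PowerSeries ℂ) := by
  induction s using Multiset.induction_on with
  | empty =>
    have : P 0 = 0 := by ext n; simp [P]
    simp [D, this]
  | cons a s ih =>
    have h : D (a ::ₘ s) = (1 - C a * X) * D s := by simp [D]
    rw [h, P_cons, derivative_mul]
    simp only [coe_mul, coe_add, coe_sub, coe_one, coe_C, coe_X, derivative_sub, derivative_one,
      derivative_C_mul, derivative_X, mul_one, zero_sub, coe_neg]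
    linear_combination (1 - PowerSeries.C a * PowerSeries.X) * ih +
      (D s : PowerSeries ℂ) * P_single a

theorem prod_eq (s : Multiset ℂ) (hs : ∀ z ∈ s, z ≠ 0) :
    ∃ c : ℂ, (s.map fun z => X - C z).prod = C c * D (s.map fun z => z⁻¹) := by
  induction s using Multiset.induction_on with
  | empty => exact ⟨1, by simp [D]⟩
  | cons a s ih =>
    obtain ⟨c, hc⟩ := ih fun z hz => hs z (Multiset.mem_cons_of_mem hz)
    have h : C a * C a⁻¹ = (1 : ℂ[X]) := by
      rw [← C_mul, mul_inv_cancel₀ (hs a (Multiset.mem_cons_self _ _)), C_1]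
    refine ⟨-a * c, ?_⟩
    simp only [D, Multiset.map_cons, Multiset.prod_cons, hc, C_mul, C_neg]
    linear_combination (-(C c * X * ((s.map fun z => z⁻¹).map fun a => 1 - C a * X).prod)) * h

theorem exists_D (p : ℂ[X]) (h0 : p.coeff 0 = 1) : ∃ s, p = D s := by
  obtain ⟨c, hc⟩ := prod_eq p.roots fun z hz e => by
    have := (mem_roots'.1 hz).2
    rw [e, IsRoot, ← coeff_zero_eq_eval_zero, h0] at this
    exact one_ne_zero this
  have h1 := C_leadingCoeff_mul_prod_multiset_X_sub_C (IsAlgClosed.card_roots_eq_natDegree (p := p))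
  rw [hc, ← mul_assoc, ← C_mul] at h1
  have h2 : ∀ s, (D s).coeff 0 = 1 := fun s => by
    rw [coeff_zero_eq_eval_zero, D, eval_multiset_prod]
    simp
  have h3 := congrArg (fun q => coeff q 0) h1
  simp only [coeff_C_mul, h2, mul_one, h0] at h3
  exact ⟨_, by rw [← h1, h3, C_1, one_mul]⟩

/-- Difference operators isolate each base. -/
theorem norm_le (S : Finset ℂ) {ρ : ℝ} (hρ : 0 < ρ) : ∀ (w : ℂ → ℂ) (K : ℝ),
    (∀ n, 1 ≤ n → ‖∑ a ∈ S, w a * a ^ n‖ ≤ K * ρ ^ n) → ∀ a ∈ S, w a ≠ 0 → ‖a‖ ≤ ρ := by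
  classical
  induction S using Finset.induction_on with
  | empty => simp
  | insert b S hb ih =>
    intro w K h
    have h1 : ∀ a ∈ S, w a ≠ 0 → ‖a‖ ≤ ρ := fun a ha hw => by
      refine ih (fun a => w a * (a - b)) (K * ρ + ‖b‖ * K) (fun n hn => ?_) a ha
        (mul_ne_zero hw (sub_ne_zero.2 fun e => hb (e ▸ ha)))
      have e : ∑ a ∈ S, w a * (a - b) * a ^ n = ∑ a ∈ insert b S, w a * a ^ (n + 1) -
          b * ∑ a ∈ insert b S, w a * a ^ n := by
        rw [Finset.mul_sum, ← Finset.sum_sub_distrib, Finset.sum_insert hb,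
          show w b * b ^ (n + 1) - b * (w b * b ^ n) = 0 by ring, zero_add]
        exact Finset.sum_congr rfl fun a _ => by ring
      rw [e]
      refine (norm_sub_le _ _).trans ?_
      rw [norm_mul]
      refine (add_le_add (h (n + 1) (by omega))
        (mul_le_mul_of_nonneg_left (h n hn) (norm_nonneg b))).trans_eq ?_
      ring
    intro a ha hw
    rcases Finset.mem_insert.1 ha with rfl | ha
    swap
    · exact h1 a ha hw
    by_contra hlt
    have h2 : 1 < ‖a‖ / ρ := (one_lt_div hρ).2 (not_le.1 hlt)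
    obtain ⟨n, hn1, hn⟩ := ((Filter.eventually_ge_atTop 1).and
      ((tendsto_pow_atTop_atTop_of_one_lt h2).eventually_gt_atTop
        ((K + ∑ a ∈ S, ‖w a‖) / ‖w a‖))).exists
    rw [div_pow, div_lt_div_iff₀ (norm_pos_iff.2 hw) (pow_pos hρ n)] at hn
    have h3 := h n hn1
    rw [Finset.sum_insert hb] at h3
    have h4 : ‖∑ a ∈ S, w a * a ^ n‖ ≤ (∑ a ∈ S, ‖w a‖) * ρ ^ n := by
      rw [Finset.sum_mul]
      refine norm_sum_le_of_le _ fun c hc => ?_
      rw [norm_mul, norm_pow]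
      by_cases h0 : w c = 0
      · simp [h0]
      · exact mul_le_mul_of_nonneg_left (pow_le_pow_left₀ (norm_nonneg _) (h1 c hc h0) n)
          (norm_nonneg _)
    have h5 := norm_sub_le (w a * a ^ n + ∑ a ∈ S, w a * a ^ n) (∑ a ∈ S, w a * a ^ n)
    rw [add_sub_cancel_right, norm_mul, norm_pow] at h5
    linarith

/-- Subexponential growth. -/
theorem growth (r : ℕ → ℤ) (Q : ℕ → Prop) [DecidablePred Q] (hQ1 : Q 1) (M : ℕ)
    (hrel : ∀ m, M < m → ∑ κ ∈ m.divisors.filter Q, (Nat.totient κ : ℤ) * r (m / κ) = 0)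
    {σ : ℝ} (hσ : 1 < σ) : ∃ K : ℝ, ∀ m, |(r m : ℝ)| ≤ K * (σ ^ 2) ^ m := by
  obtain ⟨N, hN⟩ := Filter.eventually_atTop.1
    (((tendsto_pow_const_div_const_pow_of_one_lt 1 hσ).eventually_le_const one_pos).and
      (Filter.eventually_gt_atTop M))
  refine ⟨∑ j ∈ Finset.range N, |(r j : ℝ)|, fun m => ?_⟩
  have hK : 0 ≤ ∑ j ∈ Finset.range N, |(r j : ℝ)| := Finset.sum_nonneg fun _ _ => abs_nonneg _
  induction m using Nat.strong_induction_on with
  | _ m ih =>
  rcases lt_or_ge m N with hm | hm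
  · exact (Finset.single_le_sum (f := fun j => |(r j : ℝ)|) (fun _ _ => abs_nonneg _)
      (Finset.mem_range.2 hm)).trans
      (le_mul_of_one_le_right hK (one_le_pow₀ (one_le_pow₀ hσ.le)))
  obtain ⟨h1, h2⟩ := hN m hm
  generalize ∑ j ∈ Finset.range N, |(r j : ℝ)| = K at ih hK ⊢
  rw [pow_one, div_le_one (by positivity)] at h1
  have h3 := hrel m h2
  have h4 : 1 ∈ m.divisors.filter Q := by simp [hQ1]; omega
  rw [← Finset.add_sum_erase _ _ h4, Nat.totient_one, Nat.div_one, Nat.cast_one, one_mul,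
    add_eq_zero_iff_eq_neg] at h3
  rw [h3]
  push_cast
  rw [abs_neg]
  calc _ ≤ ∑ κ ∈ (m.divisors.filter Q).erase 1, (Nat.totient κ : ℝ) * (K * σ ^ m) := by
        refine (Finset.abs_sum_le_sum_abs _ _).trans (Finset.sum_le_sum fun κ hκ => ?_)
        have h5 := Nat.pos_of_mem_divisors (Finset.mem_filter.1 (Finset.mem_of_mem_erase hκ)).1
        have h6 := Finset.ne_of_mem_erase hκ
        have h7 : 2 * (m / κ) ≤ m :=
          (Nat.mul_le_mul_right _ (by omega)).trans (Nat.mul_div_le m κ)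
        rw [abs_mul, Nat.abs_cast]
        refine mul_le_mul_of_nonneg_left ((ih _ (by omega)).trans ?_) (Nat.cast_nonneg _)
        rw [← pow_mul]
        exact mul_le_mul_of_nonneg_left (pow_le_pow_right₀ hσ.le h7) hK
    _ ≤ ∑ κ ∈ m.divisors, (Nat.totient κ : ℝ) * (K * σ ^ m) :=
        Finset.sum_le_sum_of_subset_of_nonneg
          ((Finset.erase_subset _ _).trans (Finset.filter_subset _ _)) fun _ _ _ => by positivity
    _ = m * (K * σ ^ m) := by
        rw [← Finset.sum_mul, ← Nat.cast_sum, Nat.sum_totient]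
    _ ≤ σ ^ m * (K * σ ^ m) := by gcongr
    _ = _ := by rw [← pow_mul]; ring

/-- A bounded solution of the relation vanishes. -/
theorem zero_of_bdd (r : ℕ → ℤ) (r0 : r 0 = 0) (R : ℕ) (hR : ∀ n, |r n| ≤ R) (Q : ℕ → Prop)
    [DecidablePred Q] (hQ : ∀ n, ∃ l, n ≤ l ∧ l.Prime ∧ Q l) (M : ℕ)
    (hrel : ∀ m, M < m → ∑ κ ∈ m.divisors.filter Q, (Nat.totient κ : ℤ) * r (m / κ) = 0)
    (d : ℕ) : r d = 0 := by
  induction d using Nat.strong_induction_on with
  | _ d ih =>
  rcases Nat.eq_zero_or_pos d with rfl | hd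
  · exact r0
  obtain ⟨l, h1, h2, h3⟩ := hQ (M + d * R + 2)
  have h4 := hrel (d * l) (by nlinarith)
  have h5 : l ∈ (d * l).divisors.filter Q := by
    simp only [Finset.mem_filter, Nat.mem_divisors]
    exact ⟨⟨Dvd.intro_left _ rfl, (Nat.mul_pos hd h2.pos).ne'⟩, h3⟩
  rw [← Finset.add_sum_erase _ _ h5, Nat.mul_div_cancel _ h2.pos, Nat.totient_prime h2,
    add_eq_zero_iff_eq_neg, ← Finset.sum_filter_of_ne (p := fun κ => κ ∣ d)] at h4
  · have h6 : |((l - 1 : ℕ) : ℤ) * r d| ≤ ∑ κ ∈ d.divisors, (Nat.totient κ : ℤ) * R := by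
      rw [h4, abs_neg]
      refine (Finset.abs_sum_le_sum_abs _ _).trans ((Finset.sum_le_sum fun κ _ => ?_).trans
        (Finset.sum_le_sum_of_subset_of_nonneg (fun κ hκ => ?_) fun _ _ _ => by positivity))
      · rw [abs_mul, Nat.abs_cast]
        exact mul_le_mul_of_nonneg_left (hR _) (Nat.cast_nonneg _)
      · exact Nat.mem_divisors.2 ⟨(Finset.mem_filter.1 hκ).2, hd.ne'⟩
    rw [← Finset.sum_mul, ← Nat.cast_sum, Nat.sum_totient, abs_mul, Nat.abs_cast] at h6
    by_contra hne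
    have h7 : 1 ≤ |r d| := Int.one_le_abs hne
    have h8 : ((d * R : ℕ) : ℤ) < ((l - 1 : ℕ) : ℤ) := by exact_mod_cast (by omega)
    push_cast [Nat.cast_mul] at h8
    nlinarith
  · intro κ hκ hne
    have h6 := (Nat.mem_divisors.1 (Finset.mem_filter.1 (Finset.mem_of_mem_erase hκ)).1).1
    by_cases h7 : l ∣ κ
    · obtain ⟨c, rfl⟩ := h7
      have h8 : c ≠ 1 := fun e => Finset.ne_of_mem_erase hκ (by rw [e, mul_one])
      have h9 : c ≠ 0 := by
        rintro rfl
        simp at hne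
      rw [mul_comm d l, Nat.mul_div_mul_left _ _ h2.pos,
        ih _ (Nat.div_lt_self hd (by omega)), mul_zero] at hne
      exact absurd rfl hne
    · exact ((Nat.Prime.coprime_iff_not_dvd h2).2 h7).symm.dvd_of_dvd_mul_right h6

end NT

theorem eq_one_of_relation (Δ : ℤ[X]) (h0 : Δ.coeff 0 = 1) (r : ℕ → ℤ)
    (hr : ∀ μ : ℕ, ∑ p ∈ Finset.HasAntidiagonal.antidiagonal μ, Δ.coeff p.1 * r p.2 = μ * Δ.coeff μ)
    (Q : ℕ → Prop) [DecidablePred Q] (hQ1 : Q 1) (hQ : ∀ n, ∃ l, n ≤ l ∧ l.Prime ∧ Q l)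
    (M : ℕ)
    (hrel : ∀ m, M < m →
      ∑ κ ∈ m.divisors.filter Q, (Nat.totient κ : ℤ) * r (m / κ) = 0) :
    Δ = 1 := by
  classical
  obtain ⟨s, hs⟩ := NT.exists_D (Δ.map (Int.castRingHom ℂ)) (by simp [h0])
  have h1 : (NT.D s : PowerSeries ℂ) * PowerSeries.mk (fun n => (r n : ℂ)) =
      PowerSeries.X * ((derivative (NT.D s) : ℂ[X]) : PowerSeries ℂ) := by
    ext μ
    have h := congrArg (Int.cast : ℤ → ℂ) (hr μ)
    push_cast at h
    rw [PowerSeries.coeff_mul, ← hs]
    simp only [coeff_coe, coeff_map, eq_intCast, PowerSeries.coeff_mk, h]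
    rcases μ with _ | μ
    · simp
    · rw [PowerSeries.coeff_succ_X_mul, coeff_coe, coeff_derivative, coeff_map, eq_intCast]
      push_cast
      ring
  have h2 : (NT.D s : PowerSeries ℂ) ≠ 0 := fun e => by
    have := congrArg (PowerSeries.coeff 0) e
    rw [← hs] at this
    simp [h0] at this
  have h3 : ∀ n, (r n : ℂ) = if n = 0 then 0 else -(s.map fun a => a ^ n).sum := fun n => by
    simpa [NT.P] using congrArg (PowerSeries.coeff n)
      (mul_left_cancel₀ h2 (h1.trans (NT.D_mul_P s).symm))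
  have h4 : ∀ a ∈ s, ‖a‖ ≤ 1 := fun a ha => by
    refine le_of_forall_gt_imp_ge_of_dense fun ρ hρ => ?_
    obtain ⟨K, hK⟩ := NT.growth r Q hQ1 M hrel (σ := √ρ) (Real.lt_sqrt_of_sq_lt (by simpa))
    rw [Real.sq_sqrt (by linarith)] at hK
    refine NT.norm_le s.toFinset (by linarith) (fun a => s.count a) K (fun n hn => ?_) a
      (Multiset.mem_toFinset.2 ha) (by simpa using ha)
    have h5 := h3 n
    rw [if_neg (by omega), Finset.sum_multiset_map_count] at h5
    simp only [nsmul_eq_mul] at h5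
    rw [← norm_neg, ← h5, Complex.norm_intCast]
    exact hK n
  have h5 : ∀ n, |r n| ≤ (s.card : ℕ) := fun n => by
    have h6 : ‖(r n : ℂ)‖ ≤ s.card := by
      rw [h3]
      split_ifs
      · simp
      · rw [norm_neg]
        refine (norm_multiset_sum_le _).trans ?_
        rw [Multiset.map_map]
        refine (Multiset.sum_le_card_nsmul _ 1 fun x hx => ?_).trans (by simp)
        obtain ⟨a, ha, rfl⟩ := Multiset.mem_map.1 hx
        simpa using pow_le_one₀ (norm_nonneg a) (h4 a ha)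
    rw [Complex.norm_intCast] at h6
    exact_mod_cast h6
  have h6 := NT.zero_of_bdd r (by exact_mod_cast (h3 0).trans (if_pos rfl)) _ h5 Q hQ M hrel
  ext μ
  rcases μ with _ | μ
  · simpa using h0
  · have h7 := hr (μ + 1)
    simp only [h6, mul_zero, Finset.sum_const_zero] at h7
    rw [coeff_one, if_neg (by omega)]
    exact (mul_eq_zero.1 h7.symm).resolve_left (by positivity)

end Pool.Agent.MP_92f1cb_al.H14
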