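import Pool.Agent.MP_92f1cb_al.H14.Supp

set_option autoImplicit false

namespace Pool.Agent.MP_92f1cb_al.H14

variable {k A B ι : Type} [Field k] [Ring A] [Algebra k A] {N : ℕ}
variable {β : Module.Basis B k A} {s t : B → ι} {deg : B → ℕ}

/-- Span of the good words of length `n` and weight `m`. -/
def UU (k : Type) [Field k] (N : ℕ) (s t : B → ι) (deg : B → ℕ) (m n : ℕ) :
    Submodule k (MM k N B) :=
  Finsupp.supported k k {p | p.2.length = n ∧ wt deg p.2 = m ∧ Good s t deg p.2}

open Classical in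
/-- Projection onto the good words of weight `m`. -/
noncomputable def pr (s t : B → ι) (deg : B → ℕ) (m : ℕ) : Module.End k (MM k N B) :=
  mk fun p => if wt deg p.2 = m ∧ Good s t deg p.2 then ee p else 0

theorem pr_ee_pos {m : ℕ} {p : ZMod N × List B} (h : wt deg p.2 = m ∧ Good s t deg p.2) :
    pr s t deg m (ee p : MM k N B) = ee p := by
  rw [pr, mk_ee, if_pos h]

theorem pr_ee_neg {m : ℕ} {p : ZMod N × List B} (h : ¬ (wt deg p.2 = m ∧ Good s t deg p.2)) :
    pr s t deg m (ee p : MM k N B) = 0 := by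
  rw [pr, mk_ee, if_neg h]

theorem UU_le_LL (m n : ℕ) : UU k N s t deg m n ≤ LL k N B n :=
  Finsupp.supported_mono fun _ hp => hp.1

theorem pr_mem {m n : ℕ} {W : MM k N B} (h : W ∈ LL k N B n) :
    pr s t deg m W ∈ UU k N s t deg m n := by
  refine mem_of_supported _ _ _ (fun p hp => ?_) h
  by_cases hg : wt deg p.2 = m ∧ Good s t deg p.2
  · rw [pr_ee_pos hg]; exact ee_mem ⟨hp, hg⟩
  · rw [pr_ee_neg hg]; exact Submodule.zero_mem _

theorem pr_id {m n : ℕ} {W : MM k N B} (h : W ∈ UU k N s t deg m n) : pr s t deg m W = W :=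
  eq_of_supported _ LinearMap.id _ (fun _ hp => pr_ee_pos hp.2) h

theorem wt_rot (w : List B) : wt deg (rot w) = wt deg w := by
  induction w using List.reverseRecOn with
  | nil => rfl
  | append_singleton w x _ => simp [add_comm]

theorem cyc_rot (w : List B) : (∃ i, Comp s t i (rot w) i) ↔ ∃ i, Comp s t i w i := by
  induction w using List.reverseRecOn with
  | nil => rfl
  | append_singleton w x _ => rw [rot_concat, cyc_append_comm]; rfl

theorem good_rot (w : List B) : Good s t deg (rot w) ↔ Good s t deg w := by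
  induction w using List.reverseRecOn with
  | nil => rfl
  | append_singleton w x _ => rw [rot_concat, good_append_comm]; rfl

theorem pr_TT {m : ℕ} (W : MM k N B) : pr s t deg m (TT deg W) = TT deg (pr s t deg m W) := by
  induction W using ee_ind with
  | hb c w =>
    by_cases hg : wt deg w = m ∧ Good s t deg w
    · rw [pr_ee_pos hg, TT_ee, map_smul, pr_ee_pos (by simpa [tau, wt_rot, good_rot] using hg)]
    · rw [pr_ee_neg hg, TT_ee, map_smul, pr_ee_neg (by simpa [tau, wt_rot, good_rot] using hg)]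
      simp
  | h0 => simp
  | hadd x y hx hy => simp only [map_add, hx, hy]
  | hsmul c x hx => simp only [map_smul, hx]

theorem TT_mem_UU {m n : ℕ} {W : MM k N B} (h : W ∈ UU k N s t deg m n) :
    TT deg W ∈ UU k N s t deg m n :=
  TT_mem_of (fun w => w.length = n ∧ wt deg w = m ∧ Good s t deg w)
    (fun w hw => by rwa [length_rot, wt_rot, good_rot]) h

theorem rel_good {m n : ℕ} (w w' : List B)
    (h : w.length = n + 1 ∧ wt deg w = m ∧ Good s t deg w) (hr : Rel s t deg w w') :
    w'.length = n ∧ wt deg w' = m ∧ Good s t deg w' := by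
  obtain ⟨h1, h2, ⟨i, h3⟩, h4⟩ := h
  obtain ⟨r1, r2, r3, r4⟩ := hr
  exact ⟨by omega, by omega, ⟨i, (r3 i i).2 h3⟩, r4 h4⟩

theorem pr_cons_zero {m : ℕ} (a : A) (ha : ∀ z, β.repr a z ≠ 0 → deg z = 0) (W : MM k N B) :
    pr s t deg m (cons β a W) = 0 := by
  refine basis_ind β (fun z => deg z = 0) (P := fun a => pr s t deg m (cons β a W) = 0)
    ?_ ?_ ?_ ?_ a ha
  · intro z hz
    induction W using ee_ind with
    | hb c w =>
      rw [← ee_cons, pr_ee_neg]
      intro h
      have := h.2.2 z (by simp)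
      omega
    | h0 => simp
    | hadd x y hx hy => simp only [map_add, hx, hy, add_zero]
    | hsmul c x hx => simp only [map_smul, hx, smul_zero]
  · simp
  · intro x y hx hy; simp only [map_add, LinearMap.add_apply, hx, hy, add_zero]
  · intro c x hx; simp only [map_smul, LinearMap.smul_apply, hx, smul_zero]

theorem d0_TT_cons_snoc (a : A) (z : B) (W : MM k N B) :
    d0 β (TT deg (cons β a (snoc β (β z) W))) =
      - sh (deg z : ZMod N) (cons β (β z * a) (om W)) := by
  rw [cons_snoc, TT_snoc_basis, om_cons, ← sh_d0, map_neg, map_neg, d0_cons_cons, map_neg]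

theorem bb_cons_one {n : ℕ} {W : MM k N B} (h : W ∈ LL k N B (n + 1)) :
    bb β deg (cons β 1 W) = W - TT deg W - cons β 1 (bp β W) := by
  refine eq_of_supported (bb β deg * cons β 1) (1 - TT deg - cons β 1 * bp β) _
    (fun p hp => ?_) h
  obtain ⟨c, w⟩ := p
  have hp' : w.length = n + 1 := hp
  have h1 : d0 β (cons β 1 (ee (c, w))) = ee (c, w) := by
    match w, hp' with
    | y :: v, _ => rw [ee_cons β, d0_cons_cons, one_mul]
  have h2 : d0 β (TT deg (cons β 1 (ee (c, w)))) = - TT deg (ee (c, w)) := by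
    induction w using List.reverseRecOn with
    | nil => simp at hp'
    | append_singleton v z _ => rw [ee_concat β, d0_TT_cons_snoc, mul_one, TT_snoc_basis]
  simp only [Module.End.mul_apply, LinearMap.sub_apply, Module.End.one_apply]
  rw [bb_apply, bp_cons, h1, h2]
  abel

theorem TT_pow_ee (j : ℕ) (p : ZMod N × List B) :
    ∃ c : k, (TT deg ^ j) (ee p : MM k N B) = c • ee ((tau deg N)^[j] p) := by
  induction j with
  | zero => exact ⟨1, by simp⟩
  | succ j ih =>
    obtain ⟨c, hc⟩ := ih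
    exact ⟨_, by rw [pow_succ', Module.End.mul_apply, hc, map_smul, TT_ee, smul_smul,
      Function.iterate_succ_apply']⟩

section
variable (hmul : ∀ x y z, β.repr (β x * β y) z ≠ 0 →
      t x = s y ∧ s z = s x ∧ t z = t y ∧ deg z = deg x + deg y)
include hmul

theorem FF_mem_UU {m n : ℕ} (i : ℕ) {W : MM k N B} (h : W ∈ UU k N s t deg m (n + 1)) :
    FF β i W ∈ UU k N s t deg m n :=
  FF_mem_of hmul _ (fun w => w.length = n ∧ wt deg w = m ∧ Good s t deg w) rel_good i h

theorem bp_mem_UU {m n : ℕ} {W : MM k N B} (h : W ∈ UU k N s t deg m (n + 1)) :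
    bp β W ∈ UU k N s t deg m n :=
  bp_mem_of hmul _ (fun w => w.length = n ∧ wt deg w = m ∧ Good s t deg w) rel_good h

theorem bb_mem_UU {m n : ℕ} {W : MM k N B} (h : W ∈ UU k N s t deg m (n + 1)) :
    bb β deg W ∈ UU k N s t deg m n :=
  Submodule.add_mem _ (bp_mem_UU hmul h) (FF_mem_UU hmul 0 (TT_mem_UU h))

theorem mul_eq_zero_of_ne {x y : B} (h : t x ≠ s y) : β x * β y = 0 := by
  rw [← β.repr.map_eq_zero_iff]
  ext z
  by_contra hz
  exact h (hmul x y z hz).1

theorem NN_pr_bb_TT {m n : ℕ} (hT : ∀ x ∈ UU k N s t deg m n, (TT deg ^ n) x = x)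
    (j : ℕ) {W : MM k N B} (h : W ∈ LL k N B (n + 1)) :
    NN deg n (pr s t deg m (bb β deg ((TT deg ^ j) W))) =
      NN deg n (pr s t deg m (bb β deg W)) := by
  induction j with
  | zero => simp
  | succ j ih =>
    have hL : bp β ((TT deg ^ j) W) ∈ LL k N B n :=
      bp_mem_of hmul (fun w => w.length = n + 1) (fun w => w.length = n)
        (fun w w' hw h => by have := h.1; omega) (TT_pow_mem_LL deg j h)
    have h1 := congrArg (fun V => NN deg n (pr s t deg m V))
      (bb_sub_TT (fun x y z h => (hmul x y z h).2.2.2) ((TT deg ^ j) W))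
    simp only [map_sub, pr_TT, NN_TT (hT _ (pr_mem hL)), sub_self, sub_eq_zero] at h1
    rw [pow_succ', Module.End.mul_apply, ← h1, ih]

theorem NN_pr_bb_front {m n : ℕ} (hT : ∀ x ∈ UU k N s t deg m (n + 1), (TT deg ^ (n + 1)) x = x)
    (x : B) (hx : deg x = 0) (hst : s x = t x) (c₀ : k)
    (hc : ∀ y, (t x = s y → β x * β y = c₀ • β y) ∧ (t y = s x → β y * β x = c₀ • β y))
    (c : ZMod N) (w : List B) (hw : w.length = n + 1) :
    NN deg (n + 1) (pr s t deg m (bb β deg (ee (c, x :: w)))) = 0 := by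
  classical
  have hx' : ∀ z, β.repr (β x) z ≠ 0 → deg z = 0 := by
    intro z hz
    rw [β.repr_self, Finsupp.single_apply_ne_zero] at hz
    rw [hz.1, hx]
  obtain ⟨y, v, hyv⟩ : ∃ y v, w = y :: v := by
    match w, hw with
    | y :: v, _ => exact ⟨y, v, rfl⟩
  obtain ⟨z, u, hzu⟩ : ∃ z u, w = u ++ [z] := by
    induction w using List.reverseRecOn with
    | nil => simp at hw
    | append_singleton u z _ => exact ⟨z, u, rfl⟩
  have h1 : d0 β (cons β (β x) (ee (c, w))) = (if t x = s y then c₀ else 0) • ee (c, w) := by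
    rw [hyv, ee_cons β, d0_cons_cons]
    split_ifs with h
    · rw [(hc y).1 h, map_smul, LinearMap.smul_apply]
    · rw [mul_eq_zero_of_ne hmul h]; simp
  have h2 : d0 β (TT deg (cons β (β x) (ee (c, w)))) =
      - ((if t z = s x then c₀ else 0) • TT deg (ee (c, w))) := by
    rw [hzu, ee_concat β, d0_TT_cons_snoc, TT_snoc_basis]
    split_ifs with h
    · rw [(hc z).2 h, map_smul, LinearMap.smul_apply, map_smul]
    · rw [mul_eq_zero_of_ne hmul h]; simp
  rw [ee_cons β, bb_apply, bp_cons, h1, h2]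
  simp only [map_add, map_sub, map_neg, map_smul, pr_cons_zero _ hx', pr_TT, sub_zero]
  by_cases hg : wt deg w = m ∧ Good s t deg w
  · obtain ⟨i, hi⟩ := hg.2.1
    have e1 : s y = i := by rw [hyv] at hi; exact hi.1
    have e2 : t z = i := by
      rw [hzu, comp_append] at hi
      obtain ⟨l, _, h⟩ := hi
      exact h.2
    rw [NN_TT (hT _ (pr_mem (ee_mem hw))), e1, e2, hst]
    simp only [eq_comm (a := i), add_neg_cancel]
  · simp [pr_ee_neg (p := (c, w)) hg]

theorem NN_pr_bb {m n : ℕ} (hT : ∀ x ∈ UU k N s t deg m (n + 1), (TT deg ^ (n + 1)) x = x)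
    (hid : ∀ x, deg x = 0 → s x = t x ∧ ∃ c : k, ∀ y,
      (t x = s y → β x * β y = c • β y) ∧ (t y = s x → β y * β x = c • β y))
    {W : MM k N B} (h : W ∈ LL k N B (n + 2)) :
    ∃ u ∈ UU k N s t deg m (n + 2),
      NN deg (n + 1) (pr s t deg m (bb β deg W)) = NN deg (n + 1) (bb β deg u) := by
  have : (NN deg (n + 1) * pr s t deg m * bb β deg : Module.End k (MM k N B)) W ∈
      (UU k N s t deg m (n + 2)).map (NN deg (n + 1) * bb β deg : Module.End k (MM k N B)) := by
    refine mem_of_supported _ _ _ (fun p hp => ?_) h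
    obtain ⟨c, w⟩ := p
    have hp' : w.length = n + 2 := hp
    simp only [Module.End.mul_apply]
    by_cases h1 : wt deg w ≠ m ∨ ¬ ∃ i, Comp s t i w i
    · have h2 := bb_mem_of (N := N) hmul (fun w => wt deg w ≠ m ∨ ¬ ∃ i, Comp s t i w i)
        (fun w => ¬ (wt deg w = m ∧ Good s t deg w)) (fun w hw => by rwa [wt_rot, cyc_rot])
        (fun w w' hw hr hg => by
          obtain ⟨i, hi⟩ := hg.2.1
          rcases hw with hw | hw
          · exact hw (hr.2.1 ▸ hg.1)
          · exact hw ⟨i, (hr.2.2.1 i i).1 hi⟩) (ee_mem (p := (c, w)) h1)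
      rw [eq_of_supported (pr s t deg m) 0 _ (fun p hp => pr_ee_neg hp) h2]
      simp
    · by_cases h2 : ∀ x ∈ w, 0 < deg x
      · have hU : (ee (c, w) : MM k N B) ∈ UU k N s t deg m (n + 2) := by
          push Not at h1
          exact ee_mem ⟨hp', h1.1, h1.2, h2⟩
        exact ⟨_, hU, by rw [Module.End.mul_apply, pr_id (bb_mem_UU hmul hU)]⟩
      · push Not at h2
        obtain ⟨x, hx, hx0⟩ := h2
        obtain ⟨u, v, rfl⟩ := List.append_of_mem hx
        obtain ⟨hst, c₀, hc⟩ := hid x (by omega)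
        obtain ⟨e, he⟩ := TT_pow_ee (k := k) (deg := deg) (x :: v).length (c, u ++ x :: v)
        rw [← NN_pr_bb_TT hmul hT (x :: v).length (ee_mem hp), he, tau_iterate_append,
          List.cons_append, map_smul, map_smul, map_smul,
          NN_pr_bb_front hmul hT x (by omega) hst c₀ hc _ _ (by simp at hp' ⊢; omega)]
        simp
  obtain ⟨u, hu, he⟩ := this
  exact ⟨u, hu, he.symm⟩

theorem cone_exact {m n : ℕ} (hm : 0 < m)
    (hT : ∀ x ∈ UU k N s t deg m (n + 1), (TT deg ^ (n + 1)) x = x)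
    (hid : ∀ x, deg x = 0 → s x = t x ∧ ∃ c : k, ∀ y,
      (t x = s y → β x * β y = c • β y) ∧ (t y = s x → β y * β x = c • β y))
    (hone : ∀ z, β.repr 1 z ≠ 0 → deg z = 0)
    (hex : ∀ z ∈ LL k N B (n + 1), bb β deg z = 0 → ∃ u ∈ LL k N B (n + 2), bb β deg u = z)
    {y x : MM k N B} (hy : y ∈ UU k N s t deg m (n + 1)) (hx : x ∈ UU k N s t deg m n)
    (h1 : bb β deg y = x - TT deg x) (h2 : bp β x = 0) :
    ∃ u ∈ UU k N s t deg m (n + 2), NN deg (n + 1) y = NN deg (n + 1) (bb β deg u) := by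
  have h3 : bb β deg (cons β 1 x) = x - TT deg x := by
    cases n with
    | zero =>
      have : x = 0 := eq_of_supported LinearMap.id 0 _ (fun p hp => by
        obtain ⟨h1, h2, _⟩ := hp
        rw [List.length_eq_zero_iff.1 h1] at h2
        simp at h2
        omega) hx
      simp [this]
    | succ n => rw [bb_cons_one (UU_le_LL _ _ hx), h2]; simp
  obtain ⟨u, hu, hbu⟩ := hex (y - cons β 1 x)
    (Submodule.sub_mem _ (UU_le_LL _ _ hy) (cons_mem_LL β 1 (UU_le_LL _ _ hx)))
    (by rw [map_sub, h1, h3, sub_self])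
  obtain ⟨u', hu', he⟩ := NN_pr_bb hmul hT hid hu
  refine ⟨u', hu', ?_⟩
  rw [← he, hbu, map_sub, pr_id hy, pr_cons_zero _ hone, sub_zero]

end

end Pool.Agent.MP_92f1cb_al.H14
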