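import Pool.Agent.MP_92f1cb_al.H14.Lift
import Pool.Agent.MP_92f1cb_al.H14.Proj
import Pool.Agent.MP_92f1cb_al.H14.NT
import Pool.Agent.MP_92f1cb_al.H14.Jacobi
import Pool.Agent.MP_92f1cb_al.H14.Dim
import Pool.Agent.MP_92f1cb_al.H14.Dim2
import Pool.Agent.MP_92f1cb_al.H14.Chase
import Pool.Agent.MP_92f1cb_al.H14.Cnt1
import Pool.Agent.MP_92f1cb_al.H14.Cnt2
import Pool.Agent.MP_92f1cb_al.H14.Cnt3
import Pool.Agent.MP_92f1cb_al.H14.Cnt4
import Pool.Agent.MP_92f1cb_al.H14.Basis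

set_option autoImplicit false

namespace Pool.Agent.MP_92f1cb_al.H14

open Polynomial

variable {k A B ι : Type} [Field k] [Ring A] [Algebra k A]

theorem length_le_wt (deg : B → ℕ) (w : List B) (h : ∀ x ∈ w, 0 < deg x) :
    w.length ≤ wt deg w := by
  induction w with
  | nil => simp
  | cons x w ih =>
    have h1 := h x (by simp)
    have h2 := ih fun y hy => h y (by simp [hy])
    simp only [List.length_cons, wt_cons]
    omega

theorem wt_le (deg : B → ℕ) (D : ℕ) (hD : ∀ x, deg x ≤ D) (w : List B) :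
    wt deg w ≤ D * w.length := by
  induction w with
  | nil => simp
  | cons x w ih =>
    have := hD x
    simp only [List.length_cons, wt_cons, Nat.mul_succ]
    omega

theorem UU_eq_bot {N : ℕ} {s t : B → ι} {deg : B → ℕ} {m n : ℕ}
    (h : ∀ w : List B, w.length = n → wt deg w = m → Good s t deg w → False) :
    UU k N s t deg m n = ⊥ := by
  rw [eq_bot_iff]
  intro W hW
  exact eq_of_supported LinearMap.id 0 _ (fun p hp => (h p.2 hp.1 hp.2.1 hp.2.2).elim) hW

theorem relation_at [Fintype B] [Fintype ι] [DecidableEq ι] (β : Module.Basis B k A)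
    (s t : B → ι) (deg : B → ℕ)
    (hmul : ∀ x y z, β.repr (β x * β y) z ≠ 0 →
      t x = s y ∧ s z = s x ∧ t z = t y ∧ deg z = deg x + deg y)
    (hid : ∀ x, deg x = 0 → s x = t x ∧ ∃ c : k, ∀ y,
      (t x = s y → β x * β y = c • β y) ∧ (t y = s x → β y * β x = c • β y))
    (hone : ∀ z, β.repr 1 z ≠ 0 → deg z = 0)
    (N : ℕ) [NeZero N] (hchar : (X - 1 : k[X]) ^ N = X ^ N - 1)
    (m : ℕ) (hN : N ∣ m) (hm : ((m / N : ℕ) : k) ≠ 0)
    (D n₀ : ℕ) (hD : ∀ x, deg x ≤ D) (hbig : D * (n₀ + 1) < m)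
    (base : ∀ n, n₀ ≤ n → ∀ W ∈ LL k N B (n + 2), sh 1 W = W → bb β deg W = 0 →
      ∃ v ∈ LL k N B (n + 2 + 1), bb β deg (nu k N B v) = W) :
    ∑ κ ∈ (m / N).divisors, (Nat.totient κ : ℤ) * rr (hmat s t deg) (m / κ) = 0 := by
  classical
  have hm0 : 0 < m := by omega
  have hdeg : ∀ x y z, β.repr (β x * β y) z ≠ 0 → deg z = deg x + deg y :=
    fun x y z h => (hmul x y z h).2.2.2
  have hU : ∀ n, UU k N s t deg m n =
      Finsupp.supported k k (Om s t deg N n m : Set (ZMod N × List B)) := by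
    intro n
    rw [UU]
    congr 1
    ext p
    simp [mem_Om]
  have hS : ∀ n, ∀ a ∈ Om s t deg N n m, tau deg N a ∈ Om s t deg N n m :=
    fun n a ha => (tau_mem_Om s t deg N n m a).2 ha
  have hτ : ∀ n, ∀ a ∈ Om s t deg N n m, (tau deg N)^[n] a = a := by
    intro n a ha
    obtain ⟨h1, h2, _⟩ := (mem_Om s t deg N n m a).1 ha
    rw [← h1]
    exact tau_iterate_length deg N a (h2 ▸ hN)
  have hε : ∀ n : ℕ, ((-1 : ℤ) ^ (n + 1)) ^ n = 1 := by
    intro n
    rw [← pow_mul]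
    exact Even.neg_one_pow (by rw [mul_comm]; exact Nat.even_mul_succ_self n)
  have hT : ∀ n, ∀ a ∈ Om s t deg N n m, (TT deg : Module.End k (MM k N B)) (Finsupp.single a 1)
      = (((-1 : ℤ) ^ (n + 1) : ℤ) : k) • Finsupp.single (tau deg N a) 1 := by
    intro n a ha
    obtain ⟨h1, _, _⟩ := (mem_Om s t deg N n m a).1 ha
    have := TT_ee (k := k) deg a
    rw [h1] at this
    push_cast
    exact this
  have hδ : ∀ n, ∀ a ∈ Om s t deg N n m,
      ∑ j ∈ Finset.range n, del deg N ((tau deg N)^[j] a) = ((m / N : ℕ) : ℤ) := by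
    intro n a ha
    obtain ⟨h1, h2, _⟩ := (mem_Om s t deg N n m a).1 ha
    rw [← h1, ← h2]
    exact sum_del_orbit deg N a (h2 ▸ hN)
  have hm' : ((((m / N : ℕ) : ℤ)) : k) ≠ 0 := by rw [Int.cast_natCast]; exact hm
  have hex := fun n => signed_perm_exact (k := k) _ _ n (hS n) (hτ n) _ (hε n) _ (hT n) _ _
    (hδ n) hm'
  have hdim := fun n => signed_perm_dim (k := k) _ _ n (hS n) (hτ n) _ (hε n) _ (hT n) _ _
    (hδ n) hm'
  simp only [← hU] at hex
  have heul := euler_zero (UU k N s t deg m)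
    (fun n => by
      rw [hU]
      exact Module.Finite.equiv (Finsupp.supportedEquivFinsupp _).symm)
    (bb β deg) (bp β) (TT deg) (NN deg) m
    (UU_eq_bot fun w h1 h2 _ => by
      rw [List.length_eq_zero_iff.1 h1] at h2
      simp at h2
      omega)
    (fun n hn => UU_eq_bot fun w h1 h2 h3 => by
      have := length_le_wt deg w h3.2
      omega)
    (fun n x hx => bb_mem_UU hmul hx) (fun n x hx => bp_mem_UU hmul hx)
    (fun n x hx => TT_mem_UU hx) (fun n x hx => NN_mem _ (fun _ => TT_mem_UU) n hx)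
    (bb_bb hdeg) (bp_bp β) (bb_sub_TT hdeg)
    (fun n x hx => bp_NN _ (UU_le_LL m _) (fun _ => TT_mem_UU) (hex (n + 1)).1
      (fun x hx => (hex n).1 _ (FF_mem_UU hmul 0 hx)) hx)
    (fun n x hx => TT_NN ((hex n).1 x hx))
    (fun n => (hex n).2.1) (fun n => (hex n).2.2)
    (fun n y hy x hx h1 h2 => by
      by_cases hn : n ≤ n₀
      · have hbot : UU k N s t deg m (n + 1) = ⊥ := UU_eq_bot fun w h1 h2 _ => by
          have h3 := wt_le deg D hD w
          have h4 : D * (n + 1) ≤ D * (n₀ + 1) := Nat.mul_le_mul_left _ (by omega)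
          rw [h1] at h3
          omega
        rw [hbot, Submodule.mem_bot] at hy
        exact ⟨0, Submodule.zero_mem _, by simp [hy]⟩
      · obtain ⟨n, rfl⟩ : ∃ n', n = n' + 1 := ⟨n - 1, by omega⟩
        exact cone_exact hmul hm0 (hex _).1 hid hone
          (fun z hz h0 => lift_exact hmul hchar _ (base n (by omega)) hz h0) hy hx h1 h2)
  have h1 := congrArg (fun x : ℤ => ((m / N : ℕ) : ℤ) * x) heul
  simp only [Finset.mul_sum, mul_zero, mul_left_comm ((m / N : ℕ) : ℤ)] at h1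
  have h2 := reindex_sum
    (fun n g => ∑ p ∈ (Om s t deg N n m).filter (fun p => (tau deg N)^[g] p = p), del deg N p)
    (fun g μ => ∑ u ∈ Wd s t deg g μ, (dl deg u : ℤ)) m (m / N) hm0 (Nat.div_dvd_of_dvd hN)
    (fun g κ hg hκ => sum_del_fixed s t deg N g κ m hg hκ hN)
    (fun g μ h => Finset.sum_eq_zero fun u hu => by
      obtain ⟨h1, h2, h3⟩ := (mem_Wd s t deg g μ u).1 hu
      have := length_le_wt deg u h3.2
      omega)
  simp only [sum_dl_eq_coeff] at h2
  rw [← neg_eq_zero]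
  refine h2.symm.trans (Eq.trans ?_ h1)
  refine Finset.sum_congr rfl fun n _ => ?_
  rw [hU n, hdim n]
  congr 1
  refine Finset.sum_congr rfl fun j _ => ?_
  congr 2
  refine Finset.filter_congr fun p hp => ⟨fun h => ?_, fun h => ?_⟩
  · exact Function.IsPeriodicPt.trans_dvd (f := tau deg N) h (Nat.gcd_dvd_right n j)
  · exact Function.IsPeriodicPt.gcd (f := tau deg N) (hτ n p hp) h

theorem exists_sheets (k : Type) [Field k] (m : ℕ) (hm : 0 < m) [DecidablePred fun κ : ℕ =>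
    (κ : k) ≠ 0] : ∃ N : ℕ, 0 < N ∧ (X - 1 : k[X]) ^ N = X ^ N - 1 ∧ N ∣ m ∧
      ((m / N : ℕ) : k) ≠ 0 ∧
      (m / N).divisors = m.divisors.filter (fun κ : ℕ => (κ : k) ≠ 0) := by
  obtain ⟨p, hp⟩ := CharP.exists k
  rcases CharP.char_is_prime_or_zero k p with hpp | rfl
  · have := Fact.mk hpp
    obtain ⟨a, m', h1, rfl⟩ := Nat.exists_eq_pow_mul_and_not_dvd hm.ne' p hpp.ne_one
    have hpos : 0 < p ^ a := pow_pos hpp.pos a
    have hdiv : p ^ a * m' / p ^ a = m' := Nat.mul_div_cancel_left _ hpos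
    refine ⟨p ^ a, hpos, by rw [sub_pow_char_pow, one_pow], dvd_mul_right _ _, ?_, ?_⟩
    · rwa [hdiv, Ne, CharP.cast_eq_zero_iff k p]
    · rw [hdiv]
      ext κ
      simp only [Nat.mem_divisors, Finset.mem_filter, Ne, CharP.cast_eq_zero_iff k p]
      constructor
      · rintro ⟨h2, h3⟩
        exact ⟨⟨h2.mul_left _, hm.ne'⟩, fun h => h1 (h.trans h2)⟩
      · rintro ⟨⟨h2, _⟩, h3⟩
        refine ⟨Nat.Coprime.dvd_of_dvd_mul_left ?_ h2, ?_⟩
        · exact Nat.Coprime.pow_right a ((Nat.Prime.coprime_iff_not_dvd hpp).2 h3).symm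
        · rintro rfl
          exact h1 (dvd_zero p)
  · have := CharP.charP_to_charZero k
    refine ⟨1, one_pos, by simp, one_dvd _, by simpa using hm.ne', ?_⟩
    rw [Nat.div_one, Finset.filter_true_of_mem]
    intro κ hκ
    exact Nat.cast_ne_zero.2 (Nat.pos_of_mem_divisors hκ).ne'

theorem exists_prime_ne_zero (k : Type) [Field k] (n : ℕ) :
    ∃ l, n ≤ l ∧ l.Prime ∧ (l : k) ≠ 0 := by
  obtain ⟨p, hp⟩ := CharP.exists k
  obtain ⟨l, h1, h2⟩ := Nat.exists_infinite_primes (max n (p + 1))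
  refine ⟨l, le_of_max_le_left h1, h2, fun h => ?_⟩
  rw [CharP.cast_eq_zero_iff k p] at h
  have h3 := le_of_max_le_right h1
  rcases (Nat.dvd_prime h2).1 h with h4 | h4
  · exact CharP.char_ne_one k p h4
  · omega

theorem cartan_det_eq_one (k : Type) [Field k] (A : Type) [Ring A] [Algebra k A]
    [FiniteDimensional k A] (𝒜 : ℕ → Submodule k A) [GradedAlgebra 𝒜]
    (ι : Type) [Fintype ι] [DecidableEq ι] (e : ι → A) (he : CompleteOrthogonalIdempotents e)
    (hne : ∀ i, e i ≠ 0) (h0 : 𝒜 0 = Submodule.span k (Set.range e))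
    (C : Matrix ι ι ℤ[X])
    (hC : ∀ i j d, (C i j).coeff d = (Module.finrank k
      ((𝒜 d).map (LinearMap.mulLeft k (e i) ∘ₗ LinearMap.mulRight k (e j))) : ℤ))
    (b : (n : ℕ) → (PiTensorProduct k (fun _ : Fin (n + 1 + 1) => A)) →ₗ[k]
      (PiTensorProduct k (fun _ : Fin (n + 1) => A)))
    (hb : ∀ (n : ℕ) (a : Fin (n + 1 + 1) → A),
      b n (PiTensorProduct.tprod k a) =
        (∑ i : Fin (n + 1), (-1 : k) ^ (i : ℕ) • PiTensorProduct.tprod k
          (Fin.contractNth i.castSucc (fun x y : A => x * y) a)) +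
        (-1 : k) ^ (n + 1) • PiTensorProduct.tprod k
          ((Fin.cons (a (Fin.last (n + 1)) * a 0)
            (fun j : Fin n => a j.succ.castSucc) : Fin (n + 1) → A)))
    (hH : ∃ N : ℕ, ∀ n : ℕ, N ≤ n → LinearMap.ker (b n) ≤ LinearMap.range (b (n + 1))) :
    C.det = 1 := by
  classical
  obtain ⟨B, _, β, s, t, deg, hmul, hid, hone, rfl⟩ := exists_basis k A 𝒜 ι e he hne h0 C hC
  obtain ⟨n₀, hH⟩ := hH
  have hh : ∀ i j, (hmat s t deg i j).coeff 0 = 0 := by
    intro i j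
    simp only [hmat, Matrix.of_apply, finsetSum_coeff, coeff_X_pow]
    refine Finset.sum_eq_zero fun x hx => if_neg ?_
    have := (Finset.mem_filter.1 hx).2.2.2
    omega
  refine eq_one_of_relation _ (det_coeff_zero _ hh) (rr (hmat s t deg)) (jacobi_relation _ hh)
    (fun κ : ℕ => (κ : k) ≠ 0) (by simp) (exists_prime_ne_zero k)
    ((Finset.univ.sup deg) * (n₀ + 1)) fun m hm => ?_
  obtain ⟨N, hN0, h1, h2, h3, h4⟩ := exists_sheets k m (by omega)
  have : NeZero N := ⟨hN0.ne'⟩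
  rw [← h4]
  refine relation_at β s t deg hmul hid hone N h1 m h2 h3 _ n₀
    (fun x => Finset.le_sup (Finset.mem_univ x)) hm fun n hn W hW hs hbW => ?_
  obtain ⟨z, rfl⟩ := exists_Phi β hW hs
  rw [← nu_Phi_b β deg n (b n) (hb n)] at hbW
  obtain ⟨v, rfl⟩ := hH n hn (nu_Phi_injective β _ _ hbW)
  exact ⟨_, Phi_mem_LL β _ v, (nu_Phi_b β deg (n + 1) (b (n + 1)) (hb (n + 1)) v).symm⟩

end Pool.Agent.MP_92f1cb_al.H14
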