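import Pool.Agent.MP_92f1cb_al.H14.Defs

set_option autoImplicit false

namespace Pool.Agent.MP_92f1cb_al.H14

/-- The span of marked words. -/
abbrev MM (k : Type) [Field k] (N : ℕ) (B : Type) : Type := (ZMod N × List B) →₀ k

variable {k A B : Type} [Field k] [Ring A] [Algebra k A] {N : ℕ}

/-- Basis vector. -/
noncomputable def ee (p : ZMod N × List B) : MM k N B := Finsupp.single p 1

/-- Linear extension of a function on marked words. -/
noncomputable def mk (f : ZMod N × List B → MM k N B) : Module.End k (MM k N B) :=
  Finsupp.linearCombination k f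

@[simp] theorem mk_ee (f : ZMod N × List B → MM k N B) (p : ZMod N × List B) :
    mk f (ee p) = f p := by
  simp [mk, ee]

theorem mem_of_supported {X : Type} [AddCommGroup X] [Module k X] (φ : MM k N B →ₗ[k] X)
    (S : Set (ZMod N × List B)) (V : Submodule k X) (h : ∀ p ∈ S, φ (ee p) ∈ V)
    {W : MM k N B} (hW : W ∈ Finsupp.supported k k S) : φ W ∈ V := by
  rw [Finsupp.supported_eq_span_single] at hW
  have : Submodule.span k ((fun i => Finsupp.single i (1 : k)) '' S) ≤ V.comap φ := by
    rw [Submodule.span_le]
    rintro _ ⟨p, hp, rfl⟩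
    exact h p hp
  exact this hW

theorem eq_of_supported {X : Type} [AddCommGroup X] [Module k X] (φ ψ : MM k N B →ₗ[k] X)
    (S : Set (ZMod N × List B)) (h : ∀ p ∈ S, φ (ee p) = ψ (ee p))
    {W : MM k N B} (hW : W ∈ Finsupp.supported k k S) : φ W = ψ W := by
  have := mem_of_supported (φ - ψ) S ⊥ (fun p hp => by simp [h p hp]) hW
  simpa [sub_eq_zero] using this

theorem ee_mem {S : Set (ZMod N × List B)} {p : ZMod N × List B} (hp : p ∈ S) :
    (ee p : MM k N B) ∈ Finsupp.supported k k S := Finsupp.single_mem_supported k 1 hp

theorem ee_ind {P : MM k N B → Prop} (hb : ∀ c w, P (ee (c, w))) (h0 : P 0)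
    (hadd : ∀ x y, P x → P y → P (x + y)) (hsmul : ∀ (c : k) x, P x → P (c • x))
    (W : MM k N B) : P W := by
  induction W using Finsupp.induction_linear with
  | zero => exact h0
  | add x y hx hy => exact hadd x y hx hy
  | single p c =>
    have := hsmul c _ (hb p.1 p.2)
    simpa [ee] using this

theorem basis_ind (β : Module.Basis B k A) (Q : B → Prop) {P : A → Prop}
    (hb : ∀ z, Q z → P (β z)) (h0 : P 0)
    (hadd : ∀ x y, P x → P y → P (x + y)) (hsmul : ∀ (c : k) x, P x → P (c • x))
    (a : A) (ha : ∀ z, β.repr a z ≠ 0 → Q z) : P a := by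
  have hmem : a ∈ Submodule.span k (β '' {z | Q z}) := by
    rw [Module.Basis.mem_span_image]
    intro z hz
    exact ha z (by simpa using hz)
  clear ha
  induction hmem using Submodule.span_induction with
  | mem x hx => obtain ⟨z, hz, rfl⟩ := hx; exact hb z hz
  | zero => exact h0
  | add x y _ _ hx hy => exact hadd x y hx hy
  | smul c x _ hx => exact hsmul c x hx

theorem basis_ind' (β : Module.Basis B k A) {P : A → Prop}
    (hb : ∀ z, P (β z)) (h0 : P 0)
    (hadd : ∀ x y, P x → P y → P (x + y)) (hsmul : ∀ (c : k) x, P x → P (c • x))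
    (a : A) : P a :=
  basis_ind β (fun _ => True) (fun z _ => hb z) h0 hadd hsmul a (fun _ _ => trivial)

/-- Prepend a basis letter. -/
noncomputable def consB (x : B) : Module.End k (MM k N B) := mk fun p => ee (p.1, x :: p.2)

/-- Append a basis letter. -/
noncomputable def snocB (x : B) : Module.End k (MM k N B) := mk fun p => ee (p.1, p.2 ++ [x])

/-- Shift of the sheet. -/
noncomputable def sh (d : ZMod N) : Module.End k (MM k N B) := mk fun p => ee (p.1 + d, p.2)

/-- Parity operator. -/
noncomputable def om : Module.End k (MM k N B) := mk fun p => (-1 : k) ^ p.2.length • ee p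

/-- Signed rotation. -/
noncomputable def TT (deg : B → ℕ) : Module.End k (MM k N B) :=
  mk fun p => (-1 : k) ^ (p.2.length + 1) • ee (tau deg N p)

/-- Prepend an element of the algebra. -/
noncomputable def cons (β : Module.Basis B k A) : A →ₗ[k] Module.End k (MM k N B) :=
  β.constr k consB

/-- Append an element of the algebra. -/
noncomputable def snoc (β : Module.Basis B k A) : A →ₗ[k] Module.End k (MM k N B) :=
  β.constr k snocB

/-- First face on basis words. -/
noncomputable def d0f (β : Module.Basis B k A) (c : ZMod N) : List B → MM k N B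
  | x :: y :: w => cons β (β x * β y) (ee (c, w))
  | _ => 0

/-- First face. -/
noncomputable def d0 (β : Module.Basis B k A) : Module.End k (MM k N B) :=
  mk fun p => d0f β p.1 p.2

/-- Apply an operator behind the first letter, with a sign. -/
noncomputable def behind (φ : Module.End k (MM k N B)) (c : ZMod N) : List B → MM k N B
  | x :: w => - consB x (φ (ee (c, w)))
  | [] => 0

/-- Signed faces. -/
noncomputable def FF (β : Module.Basis B k A) : ℕ → Module.End k (MM k N B)
  | 0 => d0 β
  | i + 1 => mk fun p => behind (FF β i) p.1 p.2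

/-- The bar differential. -/
noncomputable def bp (β : Module.Basis B k A) : Module.End k (MM k N B) :=
  mk fun p => ∑ i ∈ Finset.range p.2.length, FF β i (ee p)

/-- The twisted Hochschild differential. -/
noncomputable def bb (β : Module.Basis B k A) (deg : B → ℕ) : Module.End k (MM k N B) :=
  bp β + d0 β * TT deg

theorem consB_ee (x : B) (c : ZMod N) (w : List B) :
    consB x (ee (c, w) : MM k N B) = ee (c, x :: w) := by simp [consB]

theorem snocB_ee (x : B) (c : ZMod N) (w : List B) :
    snocB x (ee (c, w) : MM k N B) = ee (c, w ++ [x]) := by simp [snocB]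

theorem sh_ee (d c : ZMod N) (w : List B) :
    sh d (ee (c, w) : MM k N B) = ee (c + d, w) := by simp [sh]

theorem om_ee (c : ZMod N) (w : List B) :
    om (ee (c, w) : MM k N B) = (-1 : k) ^ w.length • ee (c, w) := by simp [om]

theorem TT_ee (deg : B → ℕ) (p : ZMod N × List B) :
    TT deg (ee p : MM k N B) = (-1 : k) ^ (p.2.length + 1) • ee (tau deg N p) := by simp [TT]

variable (β : Module.Basis B k A)

@[simp] theorem cons_basis (x : B) : (cons β (β x) : Module.End k (MM k N B)) = consB x := by
  simp [cons]

@[simp] theorem snoc_basis (x : B) : (snoc β (β x) : Module.End k (MM k N B)) = snocB x := by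
  simp [snoc]

theorem d0_nil (c : ZMod N) : d0 β (ee (c, [])) = 0 := by simp [d0, d0f]

theorem d0_one (c : ZMod N) (x : B) : d0 β (ee (c, [x])) = 0 := by simp [d0, d0f]

theorem d0_two (c : ZMod N) (x y : B) (w : List B) :
    d0 β (ee (c, x :: y :: w)) = cons β (β x * β y) (ee (c, w)) := by simp [d0, d0f]

theorem d0_cons_nil (a : A) (c : ZMod N) : d0 β (cons β a (ee (c, []))) = 0 := by
  induction a using basis_ind' β with
  | hb z => rw [cons_basis, consB_ee, d0_one]
  | h0 => simp
  | hadd x y hx hy => simp [hx, hy]
  | hsmul c x hx => simp [hx]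

theorem d0_cons_cons (a a' : A) (W : MM k N B) :
    d0 β (cons β a (cons β a' W)) = cons β (a * a') W := by
  induction a using basis_ind' β with
  | hb x =>
    induction a' using basis_ind' β with
    | hb y =>
      induction W using ee_ind with
      | hb c w => rw [cons_basis, cons_basis, consB_ee, consB_ee, d0_two]
      | h0 => simp
      | hadd x y hx hy => simp only [map_add, hx, hy]
      | hsmul c x hx => simp only [map_smul, hx]
    | h0 => simp
    | hadd x y hx hy => simp only [map_add, LinearMap.add_apply, mul_add, hx, hy]
    | hsmul c x hx => simp only [map_smul, LinearMap.smul_apply, mul_smul_comm, hx]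
  | h0 => simp
  | hadd x y hx hy => simp only [map_add, LinearMap.add_apply, add_mul, hx, hy]
  | hsmul c x hx => simp only [map_smul, LinearMap.smul_apply, smul_mul_assoc, hx]

theorem FF_zero : (FF β 0 : Module.End k (MM k N B)) = d0 β := rfl

theorem FF_succ_nil (i : ℕ) (c : ZMod N) : FF β (i + 1) (ee (c, [])) = 0 := by
  simp [FF, behind]

theorem FF_succ_cons (i : ℕ) (a : A) (W : MM k N B) :
    FF β (i + 1) (cons β a W) = - cons β a (FF β i W) := by
  induction a using basis_ind' β with
  | hb x =>
    induction W using ee_ind with
    | hb c w => rw [cons_basis, consB_ee]; simp [FF, behind]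
    | h0 => simp
    | hadd x y hx hy => simp only [map_add, hx, hy, neg_add]
    | hsmul c x hx => simp only [map_smul, hx, smul_neg]
  | h0 => simp
  | hadd x y hx hy => simp only [map_add, LinearMap.add_apply, hx, hy, neg_add]
  | hsmul c x hx => simp only [map_smul, LinearMap.smul_apply, hx, smul_neg]

theorem ee_cons (c : ZMod N) (x : B) (w : List B) :
    (ee (c, x :: w) : MM k N B) = cons β (β x) (ee (c, w)) := by rw [cons_basis, consB_ee]

theorem ee_concat (c : ZMod N) (x : B) (w : List B) :
    (ee (c, w ++ [x]) : MM k N B) = snoc β (β x) (ee (c, w)) := by rw [snoc_basis, snocB_ee]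

theorem FF_short (i : ℕ) (c : ZMod N) (w : List B) (h : w.length ≤ i + 1) :
    FF β i (ee (c, w)) = 0 := by
  induction i generalizing w with
  | zero =>
    match w, h with
    | [], _ => exact d0_nil β c
    | [x], _ => exact d0_one β c x
  | succ i ih =>
    match w, h with
    | [], _ => exact FF_succ_nil β i c
    | x :: w, h => rw [ee_cons β, FF_succ_cons, ih w (by simpa using h)]; simp

theorem bp_ee (p : ZMod N × List B) :
    bp β (ee p) = ∑ i ∈ Finset.range p.2.length, FF β i (ee p) := by simp [bp]

theorem bp_nil (c : ZMod N) : bp β (ee (c, [])) = 0 := by simp [bp_ee]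

theorem bp_cons (a : A) (W : MM k N B) :
    bp β (cons β a W) = d0 β (cons β a W) - cons β a (bp β W) := by
  induction a using basis_ind' β with
  | hb x =>
    induction W using ee_ind with
    | hb c w =>
      rw [← ee_cons, bp_ee, bp_ee, List.length_cons, Finset.sum_range_succ', FF_zero, map_sum,
        ee_cons β]
      simp only [FF_succ_cons, Finset.sum_neg_distrib]
      abel
    | h0 => simp
    | hadd x y hx hy => simp only [map_add, hx, hy]; abel
    | hsmul c x hx => simp only [map_smul, hx, smul_sub]
  | h0 => simp
  | hadd x y hx hy => simp only [map_add, LinearMap.add_apply, hx, hy]; abel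
  | hsmul c x hx => simp only [map_smul, LinearMap.smul_apply, hx, smul_sub]

theorem d0_assoc (a a' : A) (W : MM k N B) :
    d0 β (cons β (a * a') W) = d0 β (cons β a (d0 β (cons β a' W))) := by
  induction W using ee_ind with
  | hb c w =>
    cases w with
    | nil => simp [d0_cons_nil]
    | cons z w => rw [ee_cons β]; simp only [d0_cons_cons, mul_assoc]
  | h0 => simp
  | hadd x y hx hy => simp only [map_add, hx, hy]
  | hsmul c x hx => simp only [map_smul, hx]

theorem bp_d0_cons (a : A) (W : MM k N B) :
    bp β (d0 β (cons β a W)) = d0 β (cons β a (bp β W)) := by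
  induction W using ee_ind with
  | hb c w =>
    cases w with
    | nil => simp [d0_cons_nil, bp_nil]
    | cons z w =>
      rw [ee_cons β, d0_cons_cons, bp_cons, bp_cons, map_sub, map_sub, d0_cons_cons, d0_assoc]
  | h0 => simp
  | hadd x y hx hy => simp only [map_add, hx, hy]
  | hsmul c x hx => simp only [map_smul, hx]

theorem bp_bp (W : MM k N B) : bp β (bp β W) = 0 := by
  induction W using ee_ind with
  | hb c w =>
    induction w with
    | nil => simp [bp_nil]
    | cons z w ih =>
      rw [ee_cons β, bp_cons, map_sub, bp_d0_cons, bp_cons, ih]; simp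
  | h0 => simp
  | hadd x y hx hy => simp only [map_add, hx, hy, add_zero]
  | hsmul c x hx => simp only [map_smul, hx, smul_zero]

theorem bp_d0_add (W : MM k N B) : bp β (d0 β W) + d0 β (bp β W) = d0 β (d0 β W) := by
  induction W using ee_ind with
  | hb c w =>
    cases w with
    | nil => simp [bp_nil, d0_nil]
    | cons z w => rw [ee_cons β, bp_d0_cons, bp_cons, map_sub]; abel
  | h0 => simp
  | hadd x y hx hy => simp only [map_add, ← hx, ← hy]; abel
  | hsmul c x hx => simp only [map_smul, ← hx, smul_add]

theorem om_cons (a : A) (W : MM k N B) : om (cons β a W) = - cons β a (om W) := by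
  induction a using basis_ind' β with
  | hb x =>
    induction W using ee_ind with
    | hb c w =>
      rw [← ee_cons, om_ee, om_ee, map_smul, ← ee_cons, List.length_cons, pow_succ]; simp
    | h0 => simp
    | hadd x y hx hy => simp only [map_add, hx, hy, neg_add]
    | hsmul c x hx => simp only [map_smul, hx, smul_neg]
  | h0 => simp
  | hadd x y hx hy => simp only [map_add, LinearMap.add_apply, hx, hy, neg_add]
  | hsmul c x hx => simp only [map_smul, LinearMap.smul_apply, hx, smul_neg]

theorem om_om (W : MM k N B) : om (om W) = W := by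
  induction W using ee_ind with
  | hb c w => rw [om_ee, map_smul, om_ee, smul_smul, ← mul_pow]; simp
  | h0 => simp
  | hadd x y hx hy => simp only [map_add, hx, hy]
  | hsmul c x hx => simp only [map_smul, hx]

theorem om_FF (i : ℕ) (W : MM k N B) : om (FF β i W) = - FF β i (om W) := by
  induction i generalizing W with
  | zero =>
    induction W using ee_ind with
    | hb c w =>
      rw [FF_zero]
      match w with
      | [] => simp [om_ee, d0_nil]
      | [x] => simp [om_ee, d0_one]
      | x :: y :: w =>
        rw [ee_cons β, ee_cons β]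
        simp only [om_cons, d0_cons_cons, map_neg, neg_neg]
    | h0 => simp
    | hadd x y hx hy => simp only [map_add, hx, hy, neg_add]
    | hsmul c x hx => simp only [map_smul, hx, smul_neg]
  | succ i ih =>
    induction W using ee_ind with
    | hb c w =>
      match w with
      | [] => simp [om_ee, FF_succ_nil]
      | x :: w =>
        rw [ee_cons β]
        simp only [om_cons, FF_succ_cons, ih, map_neg, neg_neg]
    | h0 => simp
    | hadd x y hx hy => simp only [map_add, hx, hy, neg_add]
    | hsmul c x hx => simp only [map_smul, hx, smul_neg]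

theorem cons_snoc (a a' : A) (W : MM k N B) :
    cons β a (snoc β a' W) = snoc β a' (cons β a W) := by
  induction a using basis_ind' β with
  | hb x =>
    induction a' using basis_ind' β with
    | hb y =>
      induction W using ee_ind with
      | hb c w => rw [← ee_concat, ← ee_cons, ← ee_cons, ← ee_concat, List.cons_append]
      | h0 => simp
      | hadd x y hx hy => simp only [map_add, hx, hy]
      | hsmul c x hx => simp only [map_smul, hx]
    | h0 => simp
    | hadd x y hx hy => simp only [map_add, LinearMap.add_apply, hx, hy]
    | hsmul c x hx => simp only [map_smul, LinearMap.smul_apply, hx]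
  | h0 => simp
  | hadd x y hx hy => simp only [map_add, LinearMap.add_apply, hx, hy]
  | hsmul c x hx => simp only [map_smul, LinearMap.smul_apply, hx]

theorem cons_nil_eq_snoc (a : A) (c : ZMod N) :
    cons β a (ee (c, []) : MM k N B) = snoc β a (ee (c, [])) := by
  induction a using basis_ind' β with
  | hb x => rw [← ee_cons, ← ee_concat, List.nil_append]
  | h0 => simp
  | hadd x y hx hy => simp only [map_add, LinearMap.add_apply, hx, hy]
  | hsmul c x hx => simp only [map_smul, LinearMap.smul_apply, hx]

theorem sh_cons (d : ZMod N) (a : A) (W : MM k N B) :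
    sh d (cons β a W) = cons β a (sh d W) := by
  induction a using basis_ind' β with
  | hb x =>
    induction W using ee_ind with
    | hb c w => rw [← ee_cons, sh_ee, sh_ee, ← ee_cons]
    | h0 => simp
    | hadd x y hx hy => simp only [map_add, hx, hy]
    | hsmul c x hx => simp only [map_smul, hx]
  | h0 => simp
  | hadd x y hx hy => simp only [map_add, LinearMap.add_apply, hx, hy]
  | hsmul c x hx => simp only [map_smul, LinearMap.smul_apply, hx]

theorem sh_sh (d d' : ZMod N) (W : MM k N B) : sh d (sh d' W) = sh (d' + d) W := by
  induction W using ee_ind with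
  | hb c w => rw [sh_ee, sh_ee, sh_ee, add_assoc]
  | h0 => simp
  | hadd x y hx hy => simp only [map_add, hx, hy]
  | hsmul c x hx => simp only [map_smul, hx]

theorem sh_zero (W : MM k N B) : sh 0 W = W := by
  induction W using ee_ind with
  | hb c w => rw [sh_ee, add_zero]
  | h0 => simp
  | hadd x y hx hy => simp only [map_add, hx, hy]
  | hsmul c x hx => simp only [map_smul, hx]

theorem sh_om (d : ZMod N) (W : MM k N B) : sh d (om W) = om (sh d W) := by
  induction W using ee_ind with
  | hb c w => rw [om_ee, map_smul, sh_ee, om_ee]
  | h0 => simp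
  | hadd x y hx hy => simp only [map_add, hx, hy]
  | hsmul c x hx => simp only [map_smul, hx]

theorem sh_FF (d : ZMod N) (i : ℕ) (W : MM k N B) : sh d (FF β i W) = FF β i (sh d W) := by
  induction i generalizing W with
  | zero =>
    induction W using ee_ind with
    | hb c w =>
      rw [FF_zero, sh_ee]
      match w with
      | [] => simp [d0_nil]
      | [x] => simp [d0_one]
      | x :: y :: w => rw [d0_two, d0_two, sh_cons, sh_ee]
    | h0 => simp
    | hadd x y hx hy => simp only [map_add, hx, hy]
    | hsmul c x hx => simp only [map_smul, hx]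
  | succ i ih =>
    induction W using ee_ind with
    | hb c w =>
      match w with
      | [] => simp [sh_ee, FF_succ_nil]
      | x :: w =>
        rw [ee_cons β]
        simp only [sh_cons, FF_succ_cons, ih, map_neg]
    | h0 => simp
    | hadd x y hx hy => simp only [map_add, hx, hy]
    | hsmul c x hx => simp only [map_smul, hx]

theorem sh_d0 (d : ZMod N) (W : MM k N B) : sh d (d0 β W) = d0 β (sh d W) := sh_FF β d 0 W

theorem sh_bp (d : ZMod N) (W : MM k N B) : sh d (bp β W) = bp β (sh d W) := by
  induction W using ee_ind with
  | hb c w => rw [sh_ee, bp_ee, bp_ee, map_sum]; simp only [sh_FF, sh_ee]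
  | h0 => simp
  | hadd x y hx hy => simp only [map_add, hx, hy]
  | hsmul c x hx => simp only [map_smul, hx]

theorem sh_TT (deg : B → ℕ) (d : ZMod N) (W : MM k N B) :
    sh d (TT deg W) = TT deg (sh d W) := by
  induction W using ee_ind with
  | hb c w =>
    rw [sh_ee, TT_ee, TT_ee, map_smul, tau, tau, sh_ee]
    simp only [add_right_comm]
  | h0 => simp
  | hadd x y hx hy => simp only [map_add, hx, hy]
  | hsmul c x hx => simp only [map_smul, hx]

theorem bb_apply (deg : B → ℕ) (W : MM k N B) :
    bb β deg W = bp β W + d0 β (TT deg W) := rfl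

theorem sh_bb (deg : B → ℕ) (d : ZMod N) (W : MM k N B) :
    sh d (bb β deg W) = bb β deg (sh d W) := by
  rw [bb_apply, bb_apply, map_add, sh_bp, sh_d0, sh_TT]

end Pool.Agent.MP_92f1cb_al.H14
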