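import Mathlib

/-! A module of projective dimension at most `d` has a projective resolution of length `d`. -/

set_option autoImplicit false

namespace Pool.Agent.MP_92f1cb_al.H14

open CategoryTheory Limits

namespace Res

universe v u

variable {C : Type u} [Category.{v} C] [Abelian C]

/-- The data of a projective resolution that stops after degree `d`. -/
structure Dat (d : ℕ) (M : C) where
  X : ℕ → C
  δ : ∀ n, X (n + 1) ⟶ X n
  π : X 0 ⟶ M
  sq : ∀ n, δ (n + 1) ≫ δ n = 0
  sq0 : δ 0 ≫ π = 0
  proj : ∀ n, Projective (X n)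
  ex : ∀ n, (ShortComplex.mk _ _ (sq n)).Exact
  ex0 : (ShortComplex.mk _ _ sq0).Exact
  epi : Epi π
  zero : ∀ n, d < n → IsZero (X n)

open ZeroObject in
theorem dat_zero (M : C) (h : Projective M) : Nonempty (Dat 0 M) :=
  ⟨{ X := fun n => Nat.casesOn n M fun _ => 0
     δ := fun _ => 0
     π := 𝟙 M
     sq := fun _ => by simp
     sq0 := by simp
     proj := fun n => by
       cases n with
       | zero => exact h
       | succ n => exact (isZero_zero C).projective
     ex := fun _ => ShortComplex.exact_of_isZero_X₂ _ (isZero_zero C)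
     ex0 := (ShortComplex.exact_iff_mono _ rfl).2 (show Mono (𝟙 M) from inferInstance)
     epi := inferInstanceAs (Epi (𝟙 M))
     zero := fun n hn => by
       cases n with
       | zero => omega
       | succ n => exact isZero_zero C }⟩

theorem dat_succ {d : ℕ} {M P : C} (p : P ⟶ M) [Epi p] (hP : Projective P)
    (D : Dat d (kernel p)) : Nonempty (Dat (d + 1) M) := by
  have := D.epi
  refine ⟨{
    X := fun n => Nat.casesOn n P D.X
    δ := fun n => Nat.casesOn (motive := fun n =>
      D.X n ⟶ (Nat.casesOn n P D.X : C)) n (D.π ≫ kernel.ι p) D.δ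
    π := p
    sq := fun n => ?_
    sq0 := ?_
    proj := fun n => ?_
    ex := fun n => ?_
    ex0 := ?_
    epi := inferInstance
    zero := fun n hn => ?_ }⟩
  · cases n with
    | zero =>
      change D.δ 0 ≫ D.π ≫ kernel.ι p = 0
      rw [← Category.assoc, D.sq0, zero_comp]
    | succ n => exact D.sq n
  · change (D.π ≫ kernel.ι p) ≫ p = 0
    simp
  · cases n with
    | zero => exact hP
    | succ n => exact D.proj n
  · cases n with
    | zero =>
      have h0 : D.δ 0 ≫ D.π ≫ kernel.ι p = 0 := by
        rw [← Category.assoc, D.sq0, zero_comp]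
      let φ : ShortComplex.mk _ _ D.sq0 ⟶ ShortComplex.mk _ _ h0 :=
        { τ₁ := 𝟙 _, τ₂ := 𝟙 _, τ₃ := kernel.ι p }
      exact (ShortComplex.exact_iff_of_epi_of_isIso_of_mono φ).1 D.ex0
    | succ n => exact D.ex n
  · have h0 : (D.π ≫ kernel.ι p) ≫ p = 0 := by simp
    let φ : ShortComplex.mk _ _ h0 ⟶ ShortComplex.mk _ _ (kernel.condition p) :=
      { τ₁ := D.π, τ₂ := 𝟙 _, τ₃ := 𝟙 _ }
    exact (ShortComplex.exact_iff_of_epi_of_isIso_of_mono φ).2
      (ShortComplex.exact_of_f_is_kernel _ (kernelIsKernel p))
  · cases n with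
    | zero => omega
    | succ n => exact D.zero n (by omega)

theorem dat [EnoughProjectives C] (d : ℕ) (M : C) (h : HasProjectiveDimensionLE M d) :
    Nonempty (Dat d M) := by
  induction d generalizing M with
  | zero => exact dat_zero M ((projective_iff_hasProjectiveDimensionLE_zero M).2 h)
  | succ d ih =>
    have hS : (ShortComplex.mk _ _ (kernel.condition (Projective.π M))).ShortExact :=
      { exact := ShortComplex.exact_of_f_is_kernel _ (kernelIsKernel _) }
    obtain ⟨D⟩ := ih (kernel (Projective.π M))
      ((hS.hasProjectiveDimensionLT_X₃_iff d (Projective.projective_over M)).1 h)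
    exact dat_succ (Projective.π M) (Projective.projective_over M) D

set_option backward.defeqAttrib.useBackward true in
set_option backward.isDefEq.respectTransparency false in
theorem res {d : ℕ} {M : C} (D : Dat d M) :
    ∃ P : ProjectiveResolution M, ∀ i : ℕ, d < i → IsZero (P.complex.X i) := by
  have hd : ∀ n, (ChainComplex.of D.X D.δ D.sq).d (n + 1) n = D.δ n := fun n =>
    ChainComplex.of_d _ _ n
  refine ⟨{
    complex := ChainComplex.of D.X D.δ D.sq
    projective := D.proj
    π := (ChainComplex.toSingle₀Equiv _ _).symm ⟨D.π, by rw [hd 0]; exact D.sq0⟩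
    quasiIso := ⟨fun n => ?_⟩ }, D.zero⟩
  cases n with
  | zero =>
    rw [ChainComplex.quasiIsoAt₀_iff, ShortComplex.quasiIso_iff_of_zeros']
    · dsimp
      refine (ShortComplex.exact_and_epi_g_iff_of_iso ?_).2 ⟨D.ex0, D.epi⟩
      exact ShortComplex.isoMk (Iso.refl _) (Iso.refl _) (Iso.refl _)
        (by simpa using (hd 0).symm)
        (by
          simpa using (ChainComplex.toSingle₀Equiv_symm_apply_f_zero
            (C := ChainComplex.of D.X D.δ D.sq) D.π _).symm)
    all_goals rfl
  | succ n =>
    rw [quasiIsoAt_iff_exactAt']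
    · rw [HomologicalComplex.exactAt_iff' _ (n + 1 + 1) (n + 1) n (by simp) (by simp)]
      refine (ShortComplex.exact_iff_of_iso ?_).2 (D.ex n)
      exact ShortComplex.isoMk (Iso.refl _) (Iso.refl _) (Iso.refl _)
        (by simp) (by simp)
    · apply ChainComplex.exactAt_succ_single_obj

end Res

theorem exists_finite_resolution (A : Type) [Ring A] (d : ℕ) (M : ModuleCat.{0} A)
    (h : CategoryTheory.HasProjectiveDimensionLE M d) :
    ∃ P : CategoryTheory.ProjectiveResolution M,
      ∀ i : ℕ, d < i → CategoryTheory.Limits.IsZero (P.complex.X i) := by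
  obtain ⟨D⟩ := Res.dat d M h
  exact Res.res D

end Pool.Agent.MP_92f1cb_al.H14
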