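import Mathlib

set_option autoImplicit false

namespace Pool.Agent.MP_92f1cb_al.H14

namespace SS

theorem semisimple (k : Type) [Field k] (A : Type) [Ring A] [Algebra k A]
    (ι : Type) [Fintype ι] (e : ι → A) (he : CompleteOrthogonalIdempotents e)
    (h : Submodule.span k (Set.range e) = ⊤) : IsSemisimpleRing A := by
  classical
  let f : (ι → k) →+* A :=
    { toFun := fun c => ∑ i, c i • e i
      map_one' := by simpa using he.complete
      map_mul' := fun c d => by
        rw [Finset.sum_mul_sum]
        refine Finset.sum_congr rfl fun i _ => ?_
        rw [Finset.sum_eq_single i]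
        · rw [smul_mul_smul_comm, (he.idem i).eq, Pi.mul_apply]
        · intro j _ hj
          rw [smul_mul_smul_comm, he.ortho hj.symm, smul_zero]
        · simp
      map_zero' := by simp
      map_add' := fun c d => by simp [add_smul, Finset.sum_add_distrib] }
  refine f.isSemisimpleRing_of_surjective fun a => ?_
  have ha : a ∈ Submodule.span k (Set.range e) := h ▸ Submodule.mem_top
  exact (Submodule.mem_span_range_iff_exists_fun k).1 ha

end SS

theorem resolution_of_span (k : Type) [Field k] (A : Type) [Ring A] [Algebra k A]
    (ι : Type) [Fintype ι] (e : ι → A) (he : CompleteOrthogonalIdempotents e)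
    (h : Submodule.span k (Set.range e) = ⊤) (M : ModuleCat.{0} A) :
    ∃ P : CategoryTheory.ProjectiveResolution M,
      ∀ i : ℕ, 0 < i → CategoryTheory.Limits.IsZero (P.complex.X i) := by
  have := SS.semisimple k A ι e he h
  have : Module.Projective A M := Module.projective_of_isSemisimpleRing A M
  refine ⟨CategoryTheory.ProjectiveResolution.self M, fun i hi => ?_⟩
  exact HomologicalComplex.isZero_single_obj_X _ 0 M i (by omega)

end Pool.Agent.MP_92f1cb_al.H14
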