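import Pool.Agent.MP_92f1cb_al.H14.Defs

set_option autoImplicit false

namespace Pool.Agent.MP_92f1cb_al.H14

open Polynomial

namespace Self

theorem coeff_prod_top {ι : Type} [DecidableEq ι] (S : Finset ι) (f : ι → ℤ[X]) (s : ι → ℕ)
    (h : ∀ j ∈ S, (f j).natDegree ≤ s j) :
    (∏ j ∈ S, f j).coeff (∑ j ∈ S, s j) = ∏ j ∈ S, (f j).coeff (s j) := by
  induction S using Finset.induction_on with
  | empty => simp
  | insert a S ha ih =>
    rw [Finset.prod_insert ha, Finset.sum_insert ha, Finset.prod_insert ha]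
    have h1 : (f a).natDegree ≤ s a := h a (Finset.mem_insert_self _ _)
    have h2 : ∀ j ∈ S, (f j).natDegree ≤ s j := fun j hj => h j (Finset.mem_insert_of_mem hj)
    have h3 : (∏ j ∈ S, f j).natDegree ≤ ∑ j ∈ S, s j :=
      (natDegree_prod_le S f).trans (Finset.sum_le_sum h2)
    rw [coeff_mul_add_eq_of_natDegree_le h1 h3, ih h2]

theorem coeff_det_top {ι : Type} [Fintype ι] [DecidableEq ι] (C : Matrix ι ι ℤ[X]) (s : ι → ℕ)
    (h : ∀ i j, (C i j).natDegree ≤ s j) :
    C.det.coeff (∑ j, s j) = (Matrix.of fun i j => (C i j).coeff (s j)).det := by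
  rw [Matrix.det_apply, Matrix.det_apply, finsetSum_coeff]
  refine Finset.sum_congr rfl fun σ _ => ?_
  rw [coeff_smul, coeff_prod_top _ _ s (fun j _ => h _ j)]
  rfl

theorem det_ne_zero {ι : Type} [Fintype ι] [DecidableEq ι] (L : Matrix ι ι ℤ)
    (hcol : ∀ j, ∃ i, L i j ≠ 0) (hrow : ∀ i j j', L i j ≠ 0 → L i j' ≠ 0 → j = j') :
    L.det ≠ 0 := by
  choose π hπ using hcol
  have hinj : Function.Injective π := fun j j' hjj =>
    hrow (π j) j j' (hπ j) (by rw [hjj]; exact hπ j')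
  let p : Equiv.Perm ι := Equiv.ofBijective π (Finite.injective_iff_bijective.1 hinj)
  rw [Matrix.det_apply, Finset.sum_eq_single p]
  · have h1 : ∏ j, L (p j) j ≠ 0 := Finset.prod_ne_zero_iff.2 fun j _ => hπ j
    intro h
    exact h1 ((smul_eq_zero_iff_eq _).1 h)
  · intro σ _ hσ
    have : ∃ j, σ j ≠ p j := by
      by_contra hcon
      push Not at hcon
      exact hσ (Equiv.ext hcon)
    obtain ⟨j, hj⟩ := this
    have h0 : L (σ j) j = 0 := by
      by_contra hne
      obtain ⟨j', hj'⟩ := p.surjective (σ j)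
      have h2 : L (σ j) j' ≠ 0 := by rw [← hj']; exact hπ j'
      have := hrow _ _ _ hne h2
      exact hj (by rw [← hj', this])
    have h3 : ∏ i, L (σ i) i = 0 :=
      Finset.prod_eq_zero (f := fun i => L (σ i) i) (Finset.mem_univ j) h0
    rw [h3, smul_zero]
  · intro h
    exact absurd (Finset.mem_univ p) h

theorem exists_mul_of_injective {A : Type} [Ring A] (hinj : Module.Injective A A) (x y : A)
    (h : ∀ a : A, a * x = 0 → a * y = 0) : ∃ u, y = x * u := by
  let φ : A →ₗ[A] A := LinearMap.toSpanSingleton A A x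
  let ψ : A →ₗ[A] A := LinearMap.toSpanSingleton A A y
  have hle : LinearMap.ker φ ≤ LinearMap.ker ψ := by
    intro a ha
    simp only [φ, ψ, LinearMap.mem_ker, LinearMap.toSpanSingleton_apply, smul_eq_mul] at ha ⊢
    exact h a ha
  have hf : Function.Injective ((LinearMap.ker φ).liftQ φ le_rfl) :=
    LinearMap.ker_eq_bot.1 (Submodule.ker_liftQ_eq_bot _ _ _ le_rfl)
  obtain ⟨g, hg⟩ := hinj.out _ hf ((LinearMap.ker φ).liftQ ψ hle)
  have h1 := hg (Submodule.Quotient.mk 1)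
  simp only [Submodule.liftQ_apply, φ, ψ, LinearMap.toSpanSingleton_apply, one_smul] at h1
  refine ⟨g 1, ?_⟩
  rw [← h1, ← smul_eq_mul, ← map_smul, smul_eq_mul, mul_one]

section graded

variable {k : Type} [Field k] {A : Type} [Ring A] [Algebra k A]
  (𝒜 : ℕ → Submodule k A) [GradedAlgebra 𝒜] {ι : Type} [Fintype ι] (e : ι → A)

theorem exists_scalar (he : CompleteOrthogonalIdempotents e)
    (h0 : 𝒜 0 = Submodule.span k (Set.range e)) (i : ι) (a : A) :
    ∃ c : k, ∀ x : A, e i * x = x → (∀ m, 0 < m → ∀ b ∈ 𝒜 m, b * x = 0) → a * x = c • x := by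
  classical
  induction a using DirectSum.Decomposition.inductionOn 𝒜 with
  | zero => exact ⟨0, fun x _ _ => by simp⟩
  | @homogeneous m a =>
    rcases Nat.eq_zero_or_pos m with rfl | hm
    · have ha : (a : A) ∈ Submodule.span k (Set.range e) := h0 ▸ a.2
      obtain ⟨c, hc⟩ := (Submodule.mem_span_range_iff_exists_fun k).1 ha
      refine ⟨c i, fun x hx _ => ?_⟩
      rw [← hc, Finset.sum_mul, Finset.sum_eq_single i]
      · rw [smul_mul_assoc, hx]
      · intro l _ hl
        rw [smul_mul_assoc, ← hx, ← mul_assoc, he.ortho hl, zero_mul, smul_zero]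
      · intro h
        exact absurd (Finset.mem_univ i) h
    · exact ⟨0, fun x _ hx => by rw [hx m hm a a.2, zero_smul]⟩
  | add a b ha hb =>
    obtain ⟨c, hc⟩ := ha
    obtain ⟨c', hc'⟩ := hb
    exact ⟨c + c', fun x h1 h2 => by rw [add_mul, hc x h1 h2, hc' x h1 h2, add_smul]⟩

theorem deg_le {d d' : ℕ} {x y u : A} (hx : x ∈ 𝒜 d) (hy : y ∈ 𝒜 d') (hy0 : y ≠ 0)
    (h : y = x * u) : d ≤ d' ∧ y = x * (DirectSum.decompose 𝒜 u (d' - d) : A) := by
  have h1 : (DirectSum.decompose 𝒜 y d' : A) = y := DirectSum.decompose_of_mem_same 𝒜 hy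
  have h2 := DirectSum.coe_decompose_mul_of_left_mem 𝒜 (b := u) d' hx
  rw [← h, h1] at h2
  by_cases hd : d ≤ d'
  · rw [if_pos hd] at h2
    exact ⟨hd, h2⟩
  · rw [if_neg hd] at h2
    exact absurd h2 hy0

omit [GradedAlgebra 𝒜] in
theorem sandwich (he : CompleteOrthogonalIdempotents e) {j j' : ι} (hj : j ≠ j') {u : A}
    (hu : u ∈ Submodule.span k (Set.range e)) : e j * u * e j' = 0 := by
  classical
  obtain ⟨c, rfl⟩ := (Submodule.mem_span_range_iff_exists_fun k).1 hu
  rw [Finset.mul_sum, Finset.sum_mul]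
  refine Finset.sum_eq_zero fun l _ => ?_
  rw [mul_smul_comm, smul_mul_assoc]
  by_cases hl : j = l
  · subst hl
    rw [mul_assoc, he.ortho hj, mul_zero, smul_zero]
  · rw [he.ortho hl, zero_mul, smul_zero]

theorem col_eq (he : CompleteOrthogonalIdempotents e)
    (h0 : 𝒜 0 = Submodule.span k (Set.range e)) (hinj : Module.Injective A A)
    {i j j' : ι} {d d' : ℕ} {x y : A} (hx : x ∈ 𝒜 d) (hy : y ∈ 𝒜 d') (hx0 : x ≠ 0)
    (hy0 : y ≠ 0) (hxi : e i * x = x) (hyi : e i * y = y) (hxj : x * e j = x)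
    (hyj : y * e j' = y) (hxk : ∀ m, 0 < m → ∀ b ∈ 𝒜 m, b * x = 0)
    (hyk : ∀ m, 0 < m → ∀ b ∈ 𝒜 m, b * y = 0) : j = j' := by
  have key : ∀ x y : A, x ≠ 0 → e i * x = x → e i * y = y →
      (∀ m, 0 < m → ∀ b ∈ 𝒜 m, b * x = 0) → (∀ m, 0 < m → ∀ b ∈ 𝒜 m, b * y = 0) →
      ∃ u, y = x * u := by
    intro x y hx0 hxi hyi hxk hyk
    refine exists_mul_of_injective hinj x y fun a ha => ?_
    obtain ⟨c, hc⟩ := exists_scalar 𝒜 e he h0 i a
    rw [hc x hxi hxk] at ha
    rcases smul_eq_zero.1 ha with h | h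
    · rw [hc y hyi hyk, h, zero_smul]
    · exact absurd h hx0
  obtain ⟨u, hu⟩ := key x y hx0 hxi hyi hxk hyk
  obtain ⟨v, hv⟩ := key y x hy0 hyi hxi hyk hxk
  obtain ⟨h1, h2⟩ := deg_le 𝒜 hx hy hy0 hu
  obtain ⟨h3, -⟩ := deg_le 𝒜 hy hx hx0 hv
  have hd : d' - d = 0 := by omega
  rw [hd] at h2
  by_contra hne
  have hmem : (DirectSum.decompose 𝒜 u 0 : A) ∈ Submodule.span k (Set.range e) :=
    h0 ▸ (DirectSum.decompose 𝒜 u 0).2
  apply hy0
  rw [← hyj, h2, ← hxj, mul_assoc x, mul_assoc x, sandwich e he hne hmem, mul_zero]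

omit [GradedAlgebra 𝒜] in
theorem eq_zero_of_corners (he : CompleteOrthogonalIdempotents e) (a : A)
    (h : ∀ i j, e i * (a * e j) = 0) : a = 0 := by
  have h1 : a = (∑ i, e i) * (a * ∑ j, e j) := by rw [he.complete, mul_one, one_mul]
  rw [h1, Finset.sum_mul]
  refine Finset.sum_eq_zero fun i _ => ?_
  rw [Finset.mul_sum, Finset.mul_sum]
  exact Finset.sum_eq_zero fun j _ => h i j

end graded

end Self

theorem top_of_injective (k : Type) [Field k] (A : Type) [Ring A] [Algebra k A]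
    [FiniteDimensional k A] (𝒜 : ℕ → Submodule k A) [GradedAlgebra 𝒜]
    (ι : Type) [Fintype ι] [DecidableEq ι] (e : ι → A) (he : CompleteOrthogonalIdempotents e)
    (hne : ∀ i, e i ≠ 0) (h0 : 𝒜 0 = Submodule.span k (Set.range e))
    (C : Matrix ι ι ℤ[X])
    (hC : ∀ i j d, (C i j).coeff d = (Module.finrank k
      ((𝒜 d).map (LinearMap.mulLeft k (e i) ∘ₗ LinearMap.mulRight k (e j))) : ℤ))
    (hinj : Module.Injective A A) (hdet : C.det = 1) :
    Submodule.span k (Set.range e) = ⊤ := by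
  have he0 : ∀ i, e i ∈ 𝒜 0 := fun i => h0 ▸ Submodule.subset_span ⟨i, rfl⟩
  have hzero : ∀ i j d, (C i j).coeff d = 0 ↔ ∀ a ∈ 𝒜 d, e i * (a * e j) = 0 := by
    intro i j d
    rw [hC, Nat.cast_eq_zero, Submodule.finrank_eq_zero, Submodule.eq_bot_iff]
    constructor
    · intro h a ha
      exact h _ ⟨a, ha, rfl⟩
    · rintro h _ ⟨a, ha, rfl⟩
      exact h a ha
  let s : ι → ℕ := fun j => Finset.univ.sup fun i => (C i j).natDegree
  have hs : ∀ i j, (C i j).natDegree ≤ s j := fun i j =>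
    Finset.le_sup (f := fun i => (C i j).natDegree) (Finset.mem_univ i)
  have hbig : ∀ i j d, s j < d → ∀ a ∈ 𝒜 d, e i * (a * e j) = 0 := fun i j d hd =>
    (hzero i j d).1 (coeff_eq_zero_of_natDegree_lt ((hs i j).trans_lt hd))
  have hcol : ∀ j, ∃ i, (C i j).coeff (s j) ≠ 0 := by
    intro j
    rcases Nat.eq_zero_or_pos (s j) with h | h
    · refine ⟨j, fun hz => hne j ?_⟩
      rw [h] at hz
      have := (hzero j j 0).1 hz (e j) (he0 j)
      rwa [(he.idem j).eq, (he.idem j).eq] at this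
    · obtain ⟨i, -, hi⟩ := Finset.exists_mem_eq_sup Finset.univ ⟨j, Finset.mem_univ j⟩
        fun i => (C i j).natDegree
      have hi' : s j = (C i j).natDegree := hi
      refine ⟨i, ?_⟩
      rw [hi', coeff_natDegree, Ne, leadingCoeff_eq_zero]
      intro hz
      rw [hi', hz, natDegree_zero] at h
      exact lt_irrefl _ h
  have htop : ∀ i j, (C i j).coeff (s j) ≠ 0 → ∃ x ∈ 𝒜 (s j), x ≠ 0 ∧ e i * x = x ∧
      x * e j = x ∧ ∀ m, 0 < m → ∀ b ∈ 𝒜 m, b * x = 0 := by
    intro i j hij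
    rw [Ne, hzero] at hij
    push Not at hij
    obtain ⟨a, ha, hx⟩ := hij
    have hmem : e i * (a * e j) ∈ 𝒜 (s j) := by
      have := SetLike.mul_mem_graded (he0 i) (SetLike.mul_mem_graded ha (he0 j))
      simpa using this
    have hr : e i * (a * e j) * e j = e i * (a * e j) := by
      rw [mul_assoc, mul_assoc, (he.idem j).eq]
    refine ⟨e i * (a * e j), hmem, hx, ?_, hr, fun m hm b hb => ?_⟩
    · rw [← mul_assoc, (he.idem i).eq]
    · have hbx : b * (e i * (a * e j)) ∈ 𝒜 (m + s j) := SetLike.mul_mem_graded hb hmem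
      refine Self.eq_zero_of_corners e he _ fun l l' => ?_
      have h1 := hbig l j (m + s j) (by omega) _ hbx
      rw [mul_assoc b, hr] at h1
      rw [← mul_assoc, h1, zero_mul]
  have hrow : ∀ i j j', (C i j).coeff (s j) ≠ 0 → (C i j').coeff (s j') ≠ 0 → j = j' := by
    intro i j j' h1 h2
    obtain ⟨x, hx, hx0, hxi, hxj, hxk⟩ := htop i j h1
    obtain ⟨y, hy, hy0, hyi, hyj, hyk⟩ := htop i j' h2
    exact Self.col_eq 𝒜 e he h0 hinj hx hy hx0 hy0 hxi hyi hxj hyj hxk hyk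
  have hdet' := Self.det_ne_zero (Matrix.of fun i j => (C i j).coeff (s j)) hcol hrow
  rw [← Self.coeff_det_top C s hs, hdet, coeff_one] at hdet'
  have hsum : ∑ j, s j = 0 := by
    by_contra hcon
    exact hdet' (if_neg hcon)
  have hs0 : ∀ j, s j = 0 := fun j => Finset.sum_eq_zero_iff.1 hsum j (Finset.mem_univ j)
  rw [eq_top_iff]
  intro a ha
  clear ha
  induction a using DirectSum.Decomposition.inductionOn 𝒜 with
  | zero => exact Submodule.zero_mem _
  | @homogeneous m a =>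
    rcases Nat.eq_zero_or_pos m with rfl | hm
    · exact h0 ▸ a.2
    · have : (a : A) = 0 := Self.eq_zero_of_corners e he _ fun i j =>
        hbig i j m (by rw [hs0]; exact hm) a a.2
      rw [this]
      exact Submodule.zero_mem _
  | add a b ha hb => exact Submodule.add_mem _ ha hb

end Pool.Agent.MP_92f1cb_al.H14
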