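import Mathlib

set_option autoImplicit false

namespace Pool.Agent.MP_92f1cb_al.H14

/-- Hochschild chains of degree `n`: the tensor power of `A` over `k` with `n + 1` factors. -/
abbrev HChain (k A : Type) [Field k] [Ring A] [Algebra k A] (n : ℕ) : Type :=
  PiTensorProduct k (fun _ : Fin (n + 1) => A)

/-- The pure tensor `a 0 ⊗ ⋯ ⊗ a n`. -/
noncomputable def pureTensor (k : Type) {A : Type} [Field k] [Ring A] [Algebra k A] {n : ℕ}
    (a : Fin (n + 1) → A) : HChain k A n :=
  PiTensorProduct.tprod k a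

/-- `(a 0, …, a i * a (i+1), …, a (n+1))`. -/
def innerFace {A : Type} [Ring A] {n : ℕ} (i : Fin (n + 1)) (a : Fin (n + 1 + 1) → A) :
    Fin (n + 1) → A :=
  Fin.contractNth i.castSucc (fun x y : A => x * y) a

/-- `(a (n+1) * a 0, a 1, …, a n)`. -/
def lastFace {A : Type} [Ring A] {n : ℕ} (a : Fin (n + 1 + 1) → A) : Fin (n + 1) → A :=
  Fin.cons (a (Fin.last (n + 1)) * a 0) (fun j : Fin n => a j.succ.castSucc)

/-- The Hochschild boundary of the pure tensor `a 0 ⊗ ⋯ ⊗ a (n+1)`. -/
noncomputable def hBoundary (k : Type) {A : Type} [Field k] [Ring A] [Algebra k A] {n : ℕ}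
    (a : Fin (n + 1 + 1) → A) : HChain k A n :=
  (∑ i : Fin (n + 1), (-1 : k) ^ (i : ℕ) • pureTensor k (innerFace i a)) +
    (-1 : k) ^ (n + 1) • pureTensor k (lastFace a)

/-- Families of linear maps from chains of degree `n + 1` to chains of degree `n`. -/
abbrev HChainMaps (k A : Type) [Field k] [Ring A] [Algebra k A] : Type :=
  (n : ℕ) → HChain k A (n + 1) →ₗ[k] HChain k A n

/-- The value of the `n`-th map of the family `b` on the chain `x`. -/
def valueAt {k A : Type} [Field k] [Ring A] [Algebra k A] (b : HChainMaps k A) (n : ℕ)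
    (x : HChain k A (n + 1)) : HChain k A n :=
  b n x

/-- `b` is the Hochschild differential. -/
def IsHochschild {k A : Type} [Field k] [Ring A] [Algebra k A] (b : HChainMaps k A) : Prop :=
  ∀ (n : ℕ) (a : Fin (n + 1 + 1) → A), valueAt b n (pureTensor k a) = hBoundary k a

/-- Exactness of `b` at the chains of degree `n + 1`. -/
def ExactIn {k A : Type} [Field k] [Ring A] [Algebra k A] (b : HChainMaps k A) (n : ℕ) : Prop :=
  ∀ x : HChain k A (n + 1), valueAt b n x = 0 →
    ∃ y : HChain k A (n + 1 + 1), valueAt b (n + 1) y = x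

/-- Hochschild homology of `A` over `k` vanishes in all degrees greater than `N`. -/
def HHVanishesAbove (k A : Type) [Field k] [Ring A] [Algebra k A] (N : ℕ) : Prop :=
  ∃ b : HChainMaps k A, IsHochschild b ∧ ∀ n : ℕ, N ≤ n → ExactIn b n

/-- Every left `A`-module has a projective resolution that vanishes above degree `D`. -/
def GlDimLE (A : Type) [Ring A] (D : ℕ) : Prop :=
  ∀ M : ModuleCat.{0} A, ∃ Q : CategoryTheory.ProjectiveResolution M,
    ∀ i : ℕ, D < i → CategoryTheory.Limits.IsZero (Q.complex.X i)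

/-- The degree-zero part is spanned by the nonzero orthogonal idempotents `e i` with sum one. -/
def DegreeZeroSplit {k A ι : Type} [Field k] [Ring A] [Algebra k A] [Fintype ι]
    (𝒜 : ℕ → Submodule k A) (e : ι → A) : Prop :=
  CompleteOrthogonalIdempotents e ∧ (∀ i, e i ≠ 0) ∧ 𝒜 0 = Submodule.span k (Set.range e)

/-- The subspace `x V y`. -/
def cornerSpace {k A : Type} [Field k] [Ring A] [Algebra k A] (V : Submodule k A) (x y : A) :
    Submodule k A :=
  V.map (LinearMap.mulLeft k x ∘ₗ LinearMap.mulRight k y)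

/-- `C` is the graded Cartan matrix. -/
def IsGradedCartan {k A ι : Type} [Field k] [Ring A] [Algebra k A]
    (𝒜 : ℕ → Submodule k A) (e : ι → A) (C : Matrix ι ι (Polynomial ℤ)) : Prop :=
  ∀ i j d, (C i j).coeff d = (Module.finrank k (cornerSpace (𝒜 d) (e i) (e j)) : ℤ)

/-- The left ideal generated by the homogeneous elements of positive degree. -/
def posIdeal {k A : Type} [Field k] [Ring A] [Algebra k A] (𝒜 : ℕ → Submodule k A) :
    Submodule A A :=
  Submodule.span A {a : A | ∃ j, 0 < j ∧ a ∈ 𝒜 j}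

/-- `P` is a graded projective left module generated by its component of degree `g`. -/
def GenInDegree {k A P : Type} [Field k] [Ring A] [Algebra k A] [AddCommGroup P] [Module k P]
    [Module A P] (𝒜 : ℕ → Submodule k A) (ℳ : ℕ → Submodule k P) (g : ℕ) : Prop :=
  Module.Projective A P ∧ Nonempty (DirectSum.Decomposition ℳ) ∧ SetLike.GradedSMul 𝒜 ℳ ∧
    Submodule.span A (ℳ g : Set P) = ⊤

/-- `d`, `ε` form an exact sequence `⋯ → P 1 → P 0 → M → 0` of left modules. -/
def IsResolution {A M : Type} [Ring A] [AddCommGroup M] [Module A M] {P : ℕ → Type}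
    [∀ n, AddCommGroup (P n)] [∀ n, Module A (P n)]
    (d : ∀ n, P (n + 1) →ₗ[A] P n) (ε : P 0 →ₗ[A] M) : Prop :=
  (∀ n, Function.Exact (d (n + 1)) (d n)) ∧ Function.Exact (d 0) ε ∧ Function.Surjective ε

theorem HHVanishesAbove.elim {k A : Type} [Field k] [Ring A] [Algebra k A] {N : ℕ}
    (h : HHVanishesAbove k A N) :
    ∃ b : (n : ℕ) →
          (PiTensorProduct k (fun _ : Fin (n + 1 + 1) => A)) →ₗ[k]
            (PiTensorProduct k (fun _ : Fin (n + 1) => A)),
        (∀ (n : ℕ) (a : Fin (n + 1 + 1) → A),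
            b n (PiTensorProduct.tprod k a) =
              (∑ i : Fin (n + 1),
                  (-1 : k) ^ (i : ℕ) •
                    PiTensorProduct.tprod k
                      (Fin.contractNth i.castSucc (fun x y : A => x * y) a)) +
                (-1 : k) ^ (n + 1) •
                  PiTensorProduct.tprod k
                    ((Fin.cons (a (Fin.last (n + 1)) * a 0)
                        (fun j : Fin n => a j.succ.castSucc) : Fin (n + 1) → A))) ∧
        (∃ N : ℕ, ∀ n : ℕ, N ≤ n → LinearMap.ker (b n) ≤ LinearMap.range (b (n + 1))) := by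
  obtain ⟨b, hb, hN⟩ := h
  exact ⟨b, hb, N, fun n hn x hx => hN n hn x hx⟩

end Pool.Agent.MP_92f1cb_al.H14
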