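import Pool.Agent.MP_92f1cb_al.H14.Cyc

set_option autoImplicit false

namespace Pool.Agent.MP_92f1cb_al.H14

variable {k A B ι : Type} [Field k] [Ring A] [Algebra k A] {N : ℕ}
variable {β : Module.Basis B k A} {s t : B → ι} {deg : B → ℕ}

/-- What a face does to a word. -/
def Rel (s t : B → ι) (deg : B → ℕ) (w w' : List B) : Prop :=
  w'.length + 1 = w.length ∧ wt deg w' = wt deg w ∧ (∀ i j, Comp s t i w' j ↔ Comp s t i w j) ∧
    ((∀ x ∈ w, 0 < deg x) → ∀ x ∈ w', 0 < deg x)

theorem cons_ee_mem (β : Module.Basis B k A) (a : A) (c : ZMod N) (w : List B)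
    (V : Submodule k (MM k N B)) (h : ∀ z, β.repr a z ≠ 0 → ee (c, z :: w) ∈ V) :
    cons β a (ee (c, w)) ∈ V := by
  refine basis_ind β (fun z => ee (c, z :: w) ∈ V) (P := fun a => cons β a (ee (c, w)) ∈ V)
    ?_ ?_ ?_ ?_ a h
  · intro z hz; rwa [← ee_cons]
  · simp
  · intro x y hx hy; simpa only [map_add, LinearMap.add_apply] using V.add_mem hx hy
  · intro c x hx; simpa only [map_smul, LinearMap.smul_apply] using V.smul_mem c hx

theorem FF_ee_mem (hmul : ∀ x y z, β.repr (β x * β y) z ≠ 0 →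
      t x = s y ∧ s z = s x ∧ t z = t y ∧ deg z = deg x + deg y)
    (i : ℕ) (c : ZMod N) (w : List B) :
    FF β i (ee (c, w)) ∈ Finsupp.supported k k {p : ZMod N × List B | Rel s t deg w p.2} := by
  induction i generalizing w with
  | zero =>
    rw [FF_zero]
    match w with
    | [] => simp [d0_nil]
    | [x] => simp [d0_one]
    | x :: y :: w =>
      rw [d0_two]
      refine cons_ee_mem β _ _ _ _ fun z hz => ee_mem ?_
      obtain ⟨h1, h2, h3, h4⟩ := hmul x y z hz
      refine ⟨by simp, by simp [h4, add_assoc], fun i j => by simp [Comp, h1, h2, h3], ?_⟩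
      intro h u hu
      rcases List.mem_cons.1 hu with rfl | hu
      · have := h x (by simp); omega
      · exact h u (by simp [hu])
  | succ i ih =>
    match w with
    | [] => simp [FF_succ_nil]
    | x :: w =>
      rw [ee_cons β, FF_succ_cons]
      refine Submodule.neg_mem _ (mem_of_supported _ _ _ (fun p hp => ?_) (ih w))
      obtain ⟨c', w'⟩ := p
      obtain ⟨h1, h2, h3, h4⟩ : Rel s t deg w w' := hp
      rw [← ee_cons]
      refine ee_mem ⟨by simp [h1], by simp [h2], fun i j => by simp [Comp, h3], ?_⟩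
      intro h u hu
      rcases List.mem_cons.1 hu with rfl | hu
      · exact h u (by simp)
      · exact h4 (fun v hv => h v (by simp [hv])) u hu

theorem FF_mem_of (hmul : ∀ x y z, β.repr (β x * β y) z ≠ 0 →
      t x = s y ∧ s z = s x ∧ t z = t y ∧ deg z = deg x + deg y)
    (P Q : List B → Prop) (h : ∀ w w', P w → Rel s t deg w w' → Q w') (i : ℕ) {W : MM k N B}
    (hW : W ∈ Finsupp.supported k k {p : ZMod N × List B | P p.2}) :
    FF β i W ∈ Finsupp.supported k k {p : ZMod N × List B | Q p.2} :=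
  mem_of_supported _ _ _ (fun p hp =>
    Finsupp.supported_mono (fun q hq => h p.2 q.2 hp hq) (FF_ee_mem hmul i p.1 p.2)) hW

theorem bp_mem_of (hmul : ∀ x y z, β.repr (β x * β y) z ≠ 0 →
      t x = s y ∧ s z = s x ∧ t z = t y ∧ deg z = deg x + deg y)
    (P Q : List B → Prop) (h : ∀ w w', P w → Rel s t deg w w' → Q w') {W : MM k N B}
    (hW : W ∈ Finsupp.supported k k {p : ZMod N × List B | P p.2}) :
    bp β W ∈ Finsupp.supported k k {p : ZMod N × List B | Q p.2} := by
  refine mem_of_supported _ _ _ (fun p hp => ?_) hW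
  rw [bp_ee]
  exact Submodule.sum_mem _ fun i _ => FF_mem_of hmul P Q h i (ee_mem hp)

theorem TT_mem_of (P : List B → Prop) (hP : ∀ w, P w → P (rot w)) {W : MM k N B}
    (hW : W ∈ Finsupp.supported k k {p : ZMod N × List B | P p.2}) :
    TT deg W ∈ Finsupp.supported k k {p : ZMod N × List B | P p.2} := by
  refine mem_of_supported _ _ _ (fun p hp => ?_) hW
  rw [TT_ee]
  exact Submodule.smul_mem _ _ (ee_mem (hP _ hp))

theorem bb_mem_of (hmul : ∀ x y z, β.repr (β x * β y) z ≠ 0 →
      t x = s y ∧ s z = s x ∧ t z = t y ∧ deg z = deg x + deg y)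
    (P Q : List B → Prop) (hP : ∀ w, P w → P (rot w))
    (h : ∀ w w', P w → Rel s t deg w w' → Q w') {W : MM k N B}
    (hW : W ∈ Finsupp.supported k k {p : ZMod N × List B | P p.2}) :
    bb β deg W ∈ Finsupp.supported k k {p : ZMod N × List B | Q p.2} := by
  rw [bb_apply]
  exact Submodule.add_mem _ (bp_mem_of hmul P Q h hW)
    (FF_mem_of hmul P Q h 0 (TT_mem_of P hP hW))

theorem bb_mem_LL (hmul : ∀ x y z, β.repr (β x * β y) z ≠ 0 →
      t x = s y ∧ s z = s x ∧ t z = t y ∧ deg z = deg x + deg y)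
    {n : ℕ} {W : MM k N B} (hW : W ∈ LL k N B (n + 1)) : bb β deg W ∈ LL k N B n :=
  bb_mem_of hmul (fun w => w.length = n + 1) (fun w => w.length = n)
    (fun w hw => by rw [length_rot, hw]) (fun w w' hw h => by have := h.1; omega) hW

theorem sh_mem_LL (d : ZMod N) {n : ℕ} {W : MM k N B} (hW : W ∈ LL k N B n) :
    sh d W ∈ LL k N B n := by
  refine mem_of_supported _ _ _ (fun p hp => ?_) hW
  obtain ⟨c, w⟩ := p
  rw [sh_ee]
  exact ee_mem hp

theorem cons_mem_LL (β : Module.Basis B k A) (a : A) {n : ℕ} {W : MM k N B}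
    (hW : W ∈ LL k N B n) : cons β a W ∈ LL k N B (n + 1) := by
  refine mem_of_supported _ _ _ (fun p hp => ?_) hW
  obtain ⟨c, w⟩ := p
  have hp' : w.length = n := hp
  exact cons_ee_mem β a c w _ fun z _ => ee_mem (by simp [hp'])

end Pool.Agent.MP_92f1cb_al.H14
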